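import Mathlib
import Pool.Agent.Lib.MP_1a3405_co.BP.Defs

/-!
# The case `r = 3`: planar sets and wires

The construction is that of `BP` with other planar sets (and slightly stronger wires).

Let `H ≥ 3` and let `L` be a multiple of the period `2 H + 8`. The rows `b` of the planar picture
are classified by `rho H b = (b + 3) % (2 H + 8) + 1 ∈ [1, 2 H + 8]`; `rho H b ≡ b` mod `2`.
The chain of an active fibre with entry column `e` and exit column `x`:
`(e,2), (e,1)`, row `1` to the right until the column `H + 1`, then upwards in the column `H + 1`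
to the first block (rows `5, …, 2 H + 4`, `rho = 9, …, 2 H + 8`). In a block (`i = rho - 8`,
`1 ≤ i ≤ 2 H`) the odd rows go to the right and the even rows to the left; the row `i` consists
of the columns `lf … rg`, `lf = H + 1 - i / 2`, `rg = L - H + (i - 1) / 2`. The block ends at the
column `1`. Between two blocks the chain goes up in the column `1` (`rho = 1, 2, 3, 4`), to the
right in the row `rho = 5` until the column `H + 1`, and up in this column (`rho = 6, 7, 8`).
After the last block: up in the column `1` until the row `L`, then to the left along this row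
until `(x, L)`, `(x, L-1)`.

Seeds (`SI`: those between the heights `2` and `L - 1`): `rho = 1, 2, 3`: column `0`;
`rho = 4`: columns `2, …, H + 1`; `rho = 6`: column `1` (not for `b = 2`) and column `H + 2`;
`rho = 7`: column `H + 2`; `rho = 8`: columns `H + 2, …, L - H`; in a block column `lf - 1`
(odd rows), column `rg + 1` (even rows). At the height `0`: columns `-2, …, H + 1` (and `e`);
at the height `2`: also the columns `e < a ≤ -3`; at the height `L - 1` also `x < a ≤ -1`; at the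
height `L + 1`: the column `1` (and `x`).
-/

namespace Pool.Agent.Lib.MP_1a3405_co.BT

open Pool.Agent.Lib.MP_1a3405_co Pool.Agent.Lib.MP_1a3405_co.Ord
open Pool.Agent.Lib.MP_1a3405_co.BP

/-! ### planar sets -/

/-- admissible sizes -/
structure Sz (H L : ℤ) : Prop where
  H3 : 3 ≤ H
  mul : ∃ K : ℤ, 1 ≤ K ∧ L = (2 * H + 8) * K

/-- the type of a row -/
def rho (H b : ℤ) : ℤ := (b + 3) % (2 * H + 8) + 1

/-- left end of a row -/
def lf (H b : ℤ) : ℤ :=
  if rho H b ≤ 5 then 1 else if rho H b ≤ 8 then H + 1 else H + 1 - (rho H b - 8) / 2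

/-- right end of a row -/
def rg (H L b : ℤ) : ℤ :=
  if rho H b ≤ 4 then 1 else if rho H b ≤ 8 then H + 1 else L - H + (rho H b - 9) / 2

/-- chain cells of an active fibre -/
def KC (H L e x a b : ℤ) : Prop :=
  (b = 2 ∧ a = e) ∨ (b = 1 ∧ e ≤ a ∧ a ≤ H + 1) ∨
    (2 ≤ b ∧ b ≤ L - 1 ∧ lf H b ≤ a ∧ a ≤ rg H L b) ∨
    (b = L ∧ x ≤ a ∧ a ≤ 1) ∨ (b = L - 1 ∧ a = x)

/-- the seeds between the heights `2` and `L - 1` which do not depend on `e`, `x` -/
def SI (H L a b : ℤ) : Prop :=
  2 ≤ b ∧ b ≤ L - 1 ∧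
    ((rho H b ≤ 3 ∧ a = 0) ∨ (rho H b = 4 ∧ 2 ≤ a ∧ a ≤ H + 1) ∨
      (rho H b = 6 ∧ b ≠ 2 ∧ a = 1) ∨ (6 ≤ rho H b ∧ rho H b ≤ 7 ∧ a = H + 2) ∨
      (rho H b = 8 ∧ H + 2 ≤ a ∧ a ≤ L - H) ∨
      (9 ≤ rho H b ∧ rho H b % 2 = 1 ∧ a = lf H b - 1) ∨
      (9 ≤ rho H b ∧ rho H b % 2 = 0 ∧ a = rg H L b + 1))

/-- the seeds of an active fibre which are also seeds in the face fibres -/
def SC0 (H L e x a b : ℤ) : Prop :=
  (b = 0 ∧ -2 ≤ a ∧ a ≤ H + 1) ∨ (b = 2 ∧ e < a ∧ a ≤ -3) ∨ (b = L - 1 ∧ x < a ∧ a ≤ -1) ∨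
    (b = L + 1 ∧ a = 1) ∨ SI H L a b

/-- seeds of an active fibre -/
def SC (H L e x a b : ℤ) : Prop :=
  SC0 H L e x a b ∨ (b = 0 ∧ a = e) ∨ (b = L + 1 ∧ a = x)

/-- cells of a face fibre (all are seeds) -/
def MF (H L e x a b : ℤ) : Prop := KC H L e x a b ∨ SC0 H L e x a b

/-- phase of a chain cell (first key of the order inside a fibre) -/
def ph (L e x a b : ℤ) : ℤ :=
  if b = 2 ∧ a = e then 0 else if b = L - 1 ∧ a = x then L + 1 else b

/-- second key of the order inside a fibre -/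
def sg (a b : ℤ) : ℤ := if b % 2 = 1 then a else -a

/-- (lower bound for the) number of chain cells of a fibre -/
def ar (H L : ℤ) : ℤ := 2 * H * (L / (2 * H + 8)) * (L - 2 * H)

/-! ### wires -/

/-- a wire with more distance between the steps: outside cells see at most `2` of its cells -/
structure Wire3 {E : ℕ} (r : ℕ) (lo hi : ℤ) (X : ℤ → Fin E → ℤ) (J : ℤ → Finset (Fin E)) :
    Prop extends BP.Wire r lo hi X J where
  step2 : ∀ b i s, X b = nb (X (b + 1)) (i, s) → ∀ c, b - 2 ≤ c → c ≤ b + 2 → i ∉ J c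
  gap2 : ∀ b, X b ≠ X (b + 1) → X (b + 2) = X (b + 3)
  sep : ∀ b l, l ∈ J (b - 1) → l ∈ J (b + 1) → l ∈ J b

end Pool.Agent.Lib.MP_1a3405_co.BT
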