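import Mathlib
import Pool.Agent.Lib.MP_1a3405_co.BT.Sets

/-!
Facts on the row types.
-/

namespace Pool.Agent.Lib.MP_1a3405_co.BT

variable {H L : ℤ}

theorem rho_bd (hS : Sz H L) (b : ℤ) : 1 ≤ rho H b ∧ rho H b ≤ 2 * H + 8 := by
  have h3 := hS.H3
  unfold rho
  have h1 := Int.emod_nonneg (b + 3) (b := 2 * H + 8) (by omega)
  have h2 := Int.emod_lt_of_pos (b + 3) (b := 2 * H + 8) (by omega)
  omega

theorem rho_eq (hS : Sz H L) {b s k : ℤ} (hs1 : 1 ≤ s) (hs2 : s ≤ 2 * H + 8)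
    (h : b + 3 = (2 * H + 8) * k + (s - 1)) : rho H b = s := by
  have h3 := hS.H3
  unfold rho
  have h4 : ((2 * H + 8) * k + (s - 1)) % (2 * H + 8) = s - 1 := by
    rw [Int.mul_add_emod_self_left]
    exact Int.emod_eq_of_lt (by omega) (by omega)
  rw [h, h4]
  ring

theorem rho_par (hS : Sz H L) (b : ℤ) : rho H b % 2 = b % 2 := by
  have h3 := hS.H3
  unfold rho
  have h1 := Int.emod_add_mul_ediv (b + 3) (2 * H + 8)
  have h2 : (2 * H + 8) * ((b + 3) / (2 * H + 8)) = 2 * ((H + 4) * ((b + 3) / (2 * H + 8))) := by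
    ring
  rw [h2] at h1
  generalize (H + 4) * ((b + 3) / (2 * H + 8)) = t at h1
  omega

theorem rho_succ (hS : Sz H L) (b : ℤ) :
    (rho H b = 2 * H + 8 ∧ rho H (b + 1) = 1) ∨
      (rho H b < 2 * H + 8 ∧ rho H (b + 1) = rho H b + 1) := by
  have h3 := hS.H3
  have hb := rho_bd hS b
  have h1 := Int.emod_add_mul_ediv (b + 3) (2 * H + 8)
  have h2 : (b + 3) % (2 * H + 8) = rho H b - 1 := by unfold rho; ring
  rw [h2] at h1
  by_cases h : rho H b = 2 * H + 8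
  · left
    refine ⟨h, rho_eq hS (s := 1) (k := (b + 3) / (2 * H + 8) + 1) (by omega) (by omega) ?_⟩
    rw [mul_add, mul_one]
    omega
  · right
    refine ⟨by omega, rho_eq hS (k := (b + 3) / (2 * H + 8)) (by omega) (by omega) ?_⟩
    omega

theorem rho_pred (hS : Sz H L) (b : ℤ) :
    (rho H b = 1 ∧ rho H (b - 1) = 2 * H + 8) ∨
      (1 < rho H b ∧ rho H (b - 1) = rho H b - 1) := by
  have h := rho_succ hS (b - 1)
  have h' := rho_bd hS (b - 1)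
  rw [sub_add_cancel] at h
  omega

theorem rho_low (hS : Sz H L) {b : ℤ} (h1 : -3 ≤ b) (h2 : b ≤ 4) : rho H b = b + 4 := by
  have h3 := hS.H3
  exact rho_eq hS (k := 0) (by omega) (by omega) (by ring)

theorem rho_top (hS : Sz H L) {b : ℤ} (h1 : L - 3 ≤ b) (h2 : b ≤ L + 4) :
    rho H b = b - L + 4 := by
  have h3 := hS.H3
  obtain ⟨K, _, hK⟩ := hS.mul
  refine rho_eq hS (k := K) (by omega) (by omega) ?_
  rw [← hK]
  ring

/-- `L` is even -/
theorem Sz.even (hS : Sz H L) : L % 2 = 0 := by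
  have h1 := rho_par hS L
  rw [rho_top hS (by omega) (by omega)] at h1
  omega

theorem Sz.H_le (hS : Sz H L) : 2 * H + 8 ≤ L := by
  have h3 := hS.H3
  obtain ⟨K, h1, hK⟩ := hS.mul
  rw [hK]
  nlinarith

/-- everything about the row `b`, in a form usable by `omega` -/
theorem rho_all (hS : Sz H L) (b : ℤ) :
    3 ≤ H ∧ 2 * H + 8 ≤ L ∧ L % 2 = 0 ∧ 1 ≤ rho H b ∧ rho H b ≤ 2 * H + 8 ∧
      rho H b % 2 = b % 2 ∧ (-3 ≤ b → b ≤ 4 → rho H b = b + 4) ∧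
      (L - 3 ≤ b → b ≤ L + 4 → rho H b = b - L + 4) :=
  ⟨hS.H3, hS.H_le, hS.even, (rho_bd hS b).1, (rho_bd hS b).2, rho_par hS b,
    fun h1 h2 => rho_low hS h1 h2, fun h1 h2 => rho_top hS h1 h2⟩

/-- `lf` and `rg`, in a form usable by `omega` -/
theorem lf_rg (H L b : ℤ) :
    (rho H b ≤ 4 ∧ lf H b = 1 ∧ rg H L b = 1) ∨
    (rho H b = 5 ∧ lf H b = 1 ∧ rg H L b = H + 1) ∨
    (6 ≤ rho H b ∧ rho H b ≤ 8 ∧ lf H b = H + 1 ∧ rg H L b = H + 1) ∨
    (9 ≤ rho H b ∧ lf H b = H + 1 - (rho H b - 8) / 2 ∧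
      rg H L b = L - H + (rho H b - 9) / 2) := by
  unfold lf rg
  split_ifs <;> omega

end Pool.Agent.Lib.MP_1a3405_co.BT
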