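import Mathlib
import Pool.Agent.Lib.MP_1a3405_co.BT.PRho

/-!
Planar lemmas: inclusions between the sets of different fibres.
-/

namespace Pool.Agent.Lib.MP_1a3405_co.BT

/-- chain cells are not seeds -/
theorem kc_not_sc {H L e x a b : ℤ} (hL : Sz H L) (_hL12 : 12 ≤ L) (hex : e + 6 ≤ x)
    (hx : x ≤ -12) (h : KC H L e x a b) : ¬ SC H L e x a b := by
  have A := rho_all hL b
  have B := lf_rg H L b
  unfold KC at h
  unfold SC SC0 SI
  generalize rho H b = s at *
  generalize lf H b = l at *
  generalize rg H L b = r at *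
  rcases h with h | h | h | h | h
  · omega
  · omega
  · rcases B with B | B | B | B
    · omega
    · omega
    · omega
    · omega
  · omega
  · omega

/-- a chain cell belongs to all earlier neighbouring fibres -/
theorem kc_lower {H L e x e' x' a b : ℤ} (hL : Sz H L) (_hL12 : 12 ≤ L) (hex : e + 6 ≤ x)
    (hx : x ≤ -12) (hex' : e' + 6 ≤ x') (hxe : x' ≤ e) (h : KC H L e x a b) :
    KC H L e' x' a b ∨ SC H L e' x' a b := by
  unfold KC at *
  unfold SC SC0
  rcases h with h | h | h | h | h
  · right; left; right; left; omega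
  · left; right; left; omega
  · left; right; right; left; omega
  · left; right; right; right; left; omega
  · right; left; right; right; left; omega

/-- a chain cell belongs to the face fibres -/
theorem kc_face {H L e x e' x' a b : ℤ} (hL : Sz H L) (_hL12 : 12 ≤ L) (hex : e + 6 ≤ x)
    (hx : x ≤ -12) (he : e' ≤ e) (hxx : x' ≤ x) (h : KC H L e x a b) : MF H L e' x' a b := by
  unfold MF SC0
  unfold KC at *
  rcases h with h | h | h | h | h
  · by_cases hee : e = e'
    · left; left; omega
    · right; right; left; omega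
  · left; right; left; omega
  · left; right; right; left; omega
  · left; right; right; right; left; omega
  · by_cases hee : x = x'
    · left; right; right; right; right; omega
    · right; right; right; left; omega

/-- a chain cell is not a seed of a later neighbouring fibre -/
theorem kc_upper {H L e x e' x' a b : ℤ} (hL : Sz H L) (hL12 : 12 ≤ L) (hex : e + 6 ≤ x)
    (hx : x ≤ -12) (hex' : e' + 6 ≤ x') (hx' : x' ≤ -12) (hxe : x ≤ e') (h : KC H L e x a b) :
    ¬ SC H L e' x' a b := by
  have A := rho_all hL b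
  have B := lf_rg H L b
  unfold KC at h
  unfold SC SC0 SI
  generalize rho H b = s at *
  generalize lf H b = l at *
  generalize rg H L b = r at *
  rcases h with h | h | h | h | h
  · omega
  · omega
  · rcases B with B | B | B | B
    · omega
    · omega
    · omega
    · omega
  · omega
  · omega

/-- heights and columns of the core cells -/
theorem core_zone {H L e x a b : ℤ} (hL : Sz H L) (_hL12 : 12 ≤ L) (hex : e + 6 ≤ x)
    (hx : x ≤ -12) (h : KC H L e x a b ∨ SC H L e x a b) :
    0 ≤ b ∧ b ≤ L + 1 ∧ e ≤ a ∧ a ≤ L + 1 ∧ (3 ≤ b → b ≤ L - 2 → 0 ≤ a) ∧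
      (L - 1 ≤ b → x ≤ a) := by
  have A := rho_all hL b
  have B := lf_rg H L b
  unfold KC SC SC0 SI at h
  generalize rho H b = s at *
  generalize lf H b = l at *
  generalize rg H L b = r at *
  refine ⟨?_, ?_, ?_, ?_, ?_, ?_⟩ <;> omega

/-- the same for the faces -/
theorem face_zone {H L e x a b : ℤ} (hL : Sz H L) (_hL12 : 12 ≤ L) (hex : e + 6 ≤ x)
    (hx : x ≤ -12) (h : MF H L e x a b) :
    0 ≤ b ∧ b ≤ L + 1 ∧ e ≤ a ∧ a ≤ L + 1 ∧ (3 ≤ b → b ≤ L - 2 → 0 ≤ a) ∧
      (L - 1 ≤ b → x ≤ a) := by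
  have A := rho_all hL b
  have B := lf_rg H L b
  unfold MF KC SC0 SI at h
  generalize rho H b = s at *
  generalize lf H b = l at *
  generalize rg H L b = r at *
  refine ⟨?_, ?_, ?_, ?_, ?_, ?_⟩ <;> omega

/-- the chain cells, coarsely -/
theorem kc_coarse {H L e x a b : ℤ} (hL : Sz H L) (h : KC H L e x a b) :
    (b = 2 ∧ a = e) ∨ (b = 1 ∧ e ≤ a ∧ a ≤ H + 1) ∨
    (2 ≤ b ∧ b ≤ L - 1 ∧ 1 ≤ a ∧ a ≤ L - 1) ∨
    (b = L ∧ x ≤ a ∧ a ≤ 1) ∨ (b = L - 1 ∧ a = x) := by
  have A := rho_bd hL b
  have A3 := hL.H3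
  have A4 := hL.H_le
  have B := lf_rg H L b
  unfold KC at h
  rcases h with h | h | h | h | h
  · exact Or.inl h
  · exact Or.inr (Or.inl h)
  · right; right; left
    omega
  · exact Or.inr (Or.inr (Or.inr (Or.inl h)))
  · exact Or.inr (Or.inr (Or.inr (Or.inr h)))

end Pool.Agent.Lib.MP_1a3405_co.BT
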