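import Mathlib
import Pool.Agent.Lib.MP_1a3405_co.BT.Defs

/-!
Separation of the links: two cells of wires at distance at most `2` in every coordinate belong
to the same wire, and no cell of a wire is that near to the start cell or its seeds.
(A cell of wire `g` is at `X g b` or `X g b + e_l`; use `far`, `far0`.)
-/

namespace Pool.Agent.Lib.MP_1a3405_co.BT

open Pool.Agent.Lib.MP_1a3405_co Pool.Agent.Lib.MP_1a3405_co.Ord
open Pool.Agent.Lib.MP_1a3405_co.BP

namespace Plan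

variable {D r : ℕ} (P : Plan D r)

/-- cells of the wire `g` -/
def W (g : ℕ) (p : Fin (D + 2) → ℤ) : Prop :=
  WC 3 (P.L - 2) (P.X g) p ∨ WS 3 (P.L - 2) (P.X g) (P.J g) p

/-- the start cell and its seeds -/
def St (p : Fin (D + 2) → ℤ) : Prop :=
  p = P.start ∨ p = pt (P.e 0) 4 (P.v 0) ∨ p = pt (P.e 0 + 1) 3 (P.v 0) ∨
    ∃ i, P.T (nb (P.v 0) (i, true)) ∧ p = pt (P.e 0) 3 (nb (P.v 0) (i, true))

private lemma nb_true_bound {d : ℕ} (y : Fin d → ℤ) (l i : Fin d) :
    0 ≤ nb y (l, true) i - y i ∧ nb y (l, true) i - y i ≤ 1 := by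
  by_cases h : i = l
  · subst h; simp [nb]
  · simp [nb, Function.update_of_ne h]

private lemma nb_bound {d : ℕ} (y : Fin d → ℤ) (δ : Fin d × Bool) (i : Fin d) :
    -1 ≤ nb y δ i - y i ∧ nb y δ i - y i ≤ 1 := by
  obtain ⟨l, s⟩ := δ
  by_cases h : i = l
  · subst h; cases s <;> simp [nb]
  · simp [nb, Function.update_of_ne h]

/-- a cell of a wire is at a position of the wire, plus `0` or `1` in every coordinate -/
private lemma W_bound {g : ℕ} {p : Fin (D + 2) → ℤ} (hp : P.W g p) :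
    ∃ b, ∀ i, 0 ≤ Fin.tail p i - P.X g b i ∧ Fin.tail p i - P.X g b i ≤ 1 := by
  rcases hp with hp | hp
  · obtain ⟨-, -, h | h⟩ := hp
    · exact ⟨p 0, fun i => by rw [h]; omega⟩
    · exact ⟨p 0 + 1, fun i => by rw [h]; omega⟩
  · obtain ⟨-, -, l, -, h | h⟩ := hp
    · exact ⟨p 0, fun i => by rw [h]; exact nb_true_bound _ _ _⟩
    · exact ⟨p 0 + 1, fun i => by rw [h]; exact nb_true_bound _ _ _⟩

/-- a cell of the start is at the start position, plus `0` or `1` in every coordinate -/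
private lemma St_bound {p : Fin (D + 2) → ℤ} (hp : P.St p) :
    ∀ i, 0 ≤ Fin.tail p i - (Fin.cons (P.e 0) (P.v 0) : Fin (D + 1) → ℤ) i ∧
      Fin.tail p i - (Fin.cons (P.e 0) (P.v 0) : Fin (D + 1) → ℤ) i ≤ 1 := by
  intro i
  rcases hp with h | h | h | ⟨l, -, h⟩
  · rw [h, start, tail_pt]; omega
  · rw [h, tail_pt]; omega
  · rw [h, tail_pt]
    refine Fin.cases ?_ (fun j => ?_) i
    · simp
    · simp
  · rw [h, tail_pt]
    refine Fin.cases ?_ (fun j => ?_) i
    · simp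
    · simp only [Fin.cons_succ]
      exact nb_true_bound _ _ _

theorem near_unique {g h : ℕ} (hg : g < P.M) (hh : h < P.M) {p q : Fin (D + 2) → ℤ}
    (hp : P.W g p) (hq : P.W h q) (hpq : ∀ j, |p j - q j| ≤ 2) : g = h := by
  by_contra hne
  obtain ⟨b, hb⟩ := W_bound P hp
  obtain ⟨c, hc⟩ := W_bound P hq
  obtain ⟨i, hi⟩ := P.far g hg h hh hne b c
  have h1 := hb i
  have h2 := hc i
  have h3 := hpq i.succ
  simp only [Fin.tail] at h1 h2
  rw [abs_le] at h3
  rcases abs_cases (P.X g b i - P.X h c i) with h4 | h4 <;> omega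

theorem near_start {g : ℕ} (hg : g < P.M) {p q : Fin (D + 2) → ℤ}
    (hp : P.W g p) (hq : P.St q) (hpq : ∀ j, |p j - q j| ≤ 2) : False := by
  obtain ⟨b, hb⟩ := W_bound P hp
  have hc := St_bound P hq
  obtain ⟨i, hi⟩ := P.far0 g hg b
  have h1 := hb i
  have h2 := hc i
  have h3 := hpq i.succ
  simp only [Fin.tail] at h1 h2
  rw [abs_le] at h3
  rcases abs_cases (P.X g b i - (Fin.cons (P.e 0) (P.v 0) : Fin (D + 1) → ℤ) i) with h4 | h4 <;>
    omega

/-- neighbours of a common cell are near -/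
theorem near_nb_nb (p : Fin (D + 2) → ℤ) (δ δ' : Fin (D + 2) × Bool) (j : Fin (D + 2)) :
    |nb p δ j - nb p δ' j| ≤ 2 := by
  have h1 := nb_bound p δ j
  have h2 := nb_bound p δ' j
  rw [abs_le]
  omega

theorem near_self_nb (p : Fin (D + 2) → ℤ) (δ : Fin (D + 2) × Bool) (j : Fin (D + 2)) :
    |p j - nb p δ j| ≤ 2 := by
  have h1 := nb_bound p δ j
  rw [abs_le]
  omega

end Plan

end Pool.Agent.Lib.MP_1a3405_co.BT
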