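import Mathlib
import Pool.Agent.Lib.MP_1a3405_co.BT.PRho

/-!
Planar lemmas on the order `(ph, sg)` of the chain cells inside a fibre: injectivity, first and
last cell, immediate predecessors.
-/

namespace Pool.Agent.Lib.MP_1a3405_co.BT

/-- the order inside a fibre -/
def pl (L e x a' b' a b : ℤ) : Prop :=
  ph L e x a' b' < ph L e x a b ∨ (ph L e x a' b' = ph L e x a b ∧ sg a' b' < sg a b)

variable {H L e x : ℤ}

/-- left end of the row `b`, `1 ≤ b ≤ L` -/
def lo1 (H L e x b : ℤ) : ℤ := if b = 1 then e else if b = L then x else lf H b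

/-- right end of the row `b`, `1 ≤ b ≤ L` -/
def hi1 (H L b : ℤ) : ℤ := if b = 1 then H + 1 else if b = L then 1 else rg H L b

/-- facts about the ends of the rows -/
theorem lo_hi (hL : Sz H L) (hex : e + 6 ≤ x) (hx : x ≤ -12) {b : ℤ} (h1 : 1 ≤ b)
    (h2 : b ≤ L) :
    lo1 H L e x b ≤ hi1 H L b ∧ (b = 1 → lo1 H L e x b = e) ∧ (b = L → lo1 H L e x b = x) ∧
      (2 ≤ b → b ≤ L - 1 → 1 ≤ lo1 H L e x b) ∧
      (b % 2 = 1 → 3 ≤ b → lo1 H L e x (b - 1) = lo1 H L e x b) ∧
      (b % 2 = 0 → hi1 H L (b - 1) = hi1 H L b) := by
  have A := rho_all hL b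
  have B := lf_rg H L b
  have A' := rho_all hL (b - 1)
  have B' := lf_rg H L (b - 1)
  have C := rho_pred hL b
  unfold lo1 hi1
  generalize rho H b = s at *
  generalize rho H (b - 1) = s' at *
  generalize lf H b = l at *
  generalize rg H L b = r at *
  generalize lf H (b - 1) = l' at *
  generalize rg H L (b - 1) = r' at *
  refine ⟨?_, ?_, ?_, ?_, ?_, ?_⟩
  · split_ifs <;> omega
  · split_ifs <;> omega
  · split_ifs <;> omega
  · split_ifs <;> omega
  · split_ifs <;> omega
  · split_ifs <;> omega

theorem kc_iff (hL : Sz H L) {a b : ℤ} : KC H L e x a b ↔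
    (a = e ∧ b = 2) ∨ (a = x ∧ b = L - 1) ∨
      (1 ≤ b ∧ b ≤ L ∧ lo1 H L e x b ≤ a ∧ a ≤ hi1 H L b) := by
  have A := rho_all hL b
  unfold KC lo1 hi1
  split_ifs <;> omega

/-- the values of the two keys -/
theorem ph_sg_cases (hL : Sz H L) (_hL12 : 12 ≤ L) (hex : e + 6 ≤ x) (hx : x ≤ -12)
    {a b : ℤ} (h : KC H L e x a b) :
    (a = e ∧ b = 2 ∧ ph L e x a b = 0) ∨
    (a = x ∧ b = L - 1 ∧ ph L e x a b = L + 1) ∨
    (1 ≤ b ∧ b ≤ L ∧ lo1 H L e x b ≤ a ∧ a ≤ hi1 H L b ∧ ph L e x a b = b ∧
      ((b % 2 = 1 ∧ sg a b = a) ∨ (b % 2 = 0 ∧ sg a b = -a))) := by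
  have A := rho_all hL b
  rw [kc_iff hL] at h
  unfold ph sg
  by_cases h1 : b = 2 ∧ a = e
  · left
    rw [if_pos h1]
    omega
  by_cases h2 : b = L - 1 ∧ a = x
  · right; left
    rw [if_neg h1, if_pos h2]
    omega
  rw [if_neg h1, if_neg h2]
  right; right
  rcases Int.emod_two_eq_zero_or_one b with hb | hb
  · rw [if_neg (by omega)]
    omega
  · rw [if_pos hb]
    omega

theorem pl_inj (hL : Sz H L) (hL12 : 12 ≤ L) (hex : e + 6 ≤ x) (hx : x ≤ -12)
    {a b a' b' : ℤ} (h : KC H L e x a b) (h' : KC H L e x a' b')
    (h1 : ph L e x a b = ph L e x a' b') (h2 : sg a b = sg a' b') : a = a' ∧ b = b' := by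
  rcases ph_sg_cases hL hL12 hex hx h with c | c | c <;>
    rcases ph_sg_cases hL hL12 hex hx h' with c' | c' | c' <;> omega

theorem pl_first (hL : Sz H L) (hL12 : 12 ≤ L) (hex : e + 6 ≤ x) (hx : x ≤ -12)
    {a b : ℤ} (h : KC H L e x a b) : (a = e ∧ b = 2) ∨ pl L e x e 2 a b := by
  have h0 : ph L e x e 2 = 0 := by unfold ph; rw [if_pos ⟨rfl, rfl⟩]
  unfold pl
  rw [h0]
  rcases ph_sg_cases hL hL12 hex hx h with c | c | c
  · left; omega
  · right; left; omega
  · right; left; omega

theorem pl_last (hL : Sz H L) (hL12 : 12 ≤ L) (hex : e + 6 ≤ x) (hx : x ≤ -12)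
    {a b : ℤ} (h : KC H L e x a b) : (a = x ∧ b = L - 1) ∨ pl L e x a b x (L - 1) := by
  have h0 : ph L e x x (L - 1) = L + 1 := by
    unfold ph
    rw [if_neg (by omega), if_pos ⟨rfl, rfl⟩]
  unfold pl
  rw [h0]
  rcases ph_sg_cases hL hL12 hex hx h with c | c | c
  · right; left; omega
  · left; omega
  · right; left; omega

theorem pl_pred_aux (hL : Sz H L) (hL12 : 12 ≤ L) (hex : e + 6 ≤ x) (hx : x ≤ -12)
    {a b a' b' : ℤ} (h' : KC H L e x a' b')
    (hp : (ph L e x a' b' = ph L e x a b ∧ sg a' b' + 1 = sg a b) ∨
      (ph L e x a' b' + 1 = ph L e x a b ∧ (∀ a'' b'', KC H L e x a'' b'' →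
        ph L e x a'' b'' = ph L e x a' b' → (a'' = a' ∧ b'' = b') ∨ sg a'' b'' < sg a' b') ∧
        (∀ a'' b'', KC H L e x a'' b'' →
        ph L e x a'' b'' = ph L e x a b → sg a b ≤ sg a'' b''))) :
    pl L e x a' b' a b ∧
      ∀ a'' b'', KC H L e x a'' b'' → pl L e x a'' b'' a b →
        (a'' = a' ∧ b'' = b') ∨ pl L e x a'' b'' a' b' := by
  rcases hp with hp | ⟨hp1, hp2, hp3⟩
  · refine ⟨Or.inr (by omega), ?_⟩
    intro a'' b'' h'' hpl
    unfold pl at hpl ⊢
    rcases hpl with hpl | hpl
    · right; left; omega
    · by_cases hs : sg a'' b'' = sg a' b'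
      · left
        exact pl_inj hL hL12 hex hx h'' h' (by omega) hs
      · right; right; omega
  · refine ⟨Or.inl (by omega), ?_⟩
    intro a'' b'' h'' hpl
    unfold pl at hpl ⊢
    rcases hpl with hpl | hpl
    · by_cases hs : ph L e x a'' b'' = ph L e x a' b'
      · rcases hp2 a'' b'' h'' hs with h3 | h3
        · left; exact h3
        · right; right; exact ⟨hs, h3⟩
      · right; left; omega
    · exfalso
      have := hp3 a'' b'' h'' hpl.1
      omega

/-- the immediate predecessor is one of the four neighbours -/
theorem pl_pred (hL : Sz H L) (hL12 : 12 ≤ L) (hex : e + 6 ≤ x) (hx : x ≤ -12)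
    {a b : ℤ} (h : KC H L e x a b) (hne : ¬ (a = e ∧ b = 2)) :
    ∃ a' b', ((a' = a ∧ b' = b + 1) ∨ (a' = a ∧ b' = b - 1) ∨ (a' = a + 1 ∧ b' = b) ∨
        (a' = a - 1 ∧ b' = b)) ∧ KC H L e x a' b' ∧ pl L e x a' b' a b ∧
      ∀ a'' b'', KC H L e x a'' b'' → pl L e x a'' b'' a b →
        (a'' = a' ∧ b'' = b') ∨ pl L e x a'' b'' a' b' := by
  have hev := hL.even
  rcases ph_sg_cases hL hL12 hex hx h with c | c | c
  · omega
  · -- (x, L-1): predecessor (x, L)
    obtain ⟨rfl, rfl, c⟩ := c
    have hk : KC H L e a a L := by unfold KC; right; right; right; left; omega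
    have hph : ph L e a a L = L := by
      unfold ph; rw [if_neg (by omega), if_neg (by omega)]
    have hsg : sg a L = -a := by unfold sg; rw [if_neg (by omega)]
    have lh := lo_hi hL hex hx (b := L) (by omega) le_rfl
    refine ⟨a, L, by omega, hk, pl_pred_aux hL hL12 hex hx hk (Or.inr ⟨by omega, ?_, ?_⟩)⟩
    · intro a'' b'' h'' he
      rcases ph_sg_cases hL hL12 hex hx h'' with c' | c' | c'
      · omega
      · omega
      · have : b'' = L := by omega
        subst this
        omega
    · intro a'' b'' h'' he
      rcases ph_sg_cases hL hL12 hex hx h'' with c' | c' | c'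
      · omega
      · rw [c'.1, c'.2.1]
      · omega
  · -- a row
    obtain ⟨c1, c2, c3, c4, c5, c6⟩ := c
    have lh := lo_hi hL hex hx c1 c2
    rcases c6 with c6 | c6
    · -- odd row
      by_cases hs : a = lo1 H L e x b
      · -- start of a row
        by_cases hb : b = 1
        · subst hb
          have ha : a = e := by omega
          subst ha
          have hk : KC H L a x a 2 := by unfold KC; left; omega
          have hph : ph L a x a 2 = 0 := by
            unfold ph; rw [if_pos ⟨rfl, rfl⟩]
          refine ⟨a, 2, by omega, hk, pl_pred_aux hL hL12 hex hx hk (Or.inr ⟨by omega, ?_, ?_⟩)⟩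
          · intro a'' b'' h'' he
            rcases ph_sg_cases hL hL12 hex hx h'' with c' | c' | c' <;> omega
          · intro a'' b'' h'' he
            rcases ph_sg_cases hL hL12 hex hx h'' with c' | c' | c'
            · omega
            · omega
            · have : b'' = 1 := by omega
              subst this
              omega
        · have lh' := lo_hi hL hex hx (b := b - 1) (by omega) (by omega)
          have hk : KC H L e x a (b - 1) := by
            rw [kc_iff hL]
            right; right
            omega
          have hph : ph L e x a (b - 1) = b - 1 := by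
            unfold ph
            rw [if_neg (by intro h'; omega), if_neg (by omega)]
          have hsg : sg a (b - 1) = -a := by unfold sg; rw [if_neg (by omega)]
          refine ⟨a, b - 1, by omega, hk,
            pl_pred_aux hL hL12 hex hx hk (Or.inr ⟨by omega, ?_, ?_⟩)⟩
          · intro a'' b'' h'' he
            rcases ph_sg_cases hL hL12 hex hx h'' with c' | c' | c'
            · omega
            · omega
            · have : b'' = b - 1 := by omega
              subst this
              omega
          · intro a'' b'' h'' he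
            rcases ph_sg_cases hL hL12 hex hx h'' with c' | c' | c'
            · omega
            · omega
            · have : b'' = b := by omega
              subst this
              omega
      · have hk : KC H L e x (a - 1) b := by
          rw [kc_iff hL]
          right; right
          omega
        have hph : ph L e x (a - 1) b = b := by
          unfold ph
          rw [if_neg (by omega), if_neg (by
            intro h'
            omega)]
        have hsg : sg (a - 1) b = a - 1 := by unfold sg; rw [if_pos (by omega)]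
        exact ⟨a - 1, b, by omega, hk,
          pl_pred_aux hL hL12 hex hx hk (Or.inl ⟨by omega, by omega⟩)⟩
    · -- even row
      by_cases hs : a = hi1 H L b
      · have lh' := lo_hi hL hex hx (b := b - 1) (by omega) (by omega)
        have hk : KC H L e x a (b - 1) := by
          rw [kc_iff hL]
          right; right
          omega
        have hL1 : 1 ≤ hi1 H L b := by
          have A := rho_all hL b
          have B := lf_rg H L b
          unfold hi1
          split_ifs <;> omega
        have hph : ph L e x a (b - 1) = b - 1 := by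
          unfold ph; rw [if_neg (by omega), if_neg (by omega)]
        have hsg : sg a (b - 1) = a := by unfold sg; rw [if_pos (by omega)]
        refine ⟨a, b - 1, by omega, hk,
          pl_pred_aux hL hL12 hex hx hk (Or.inr ⟨by omega, ?_, ?_⟩)⟩
        · intro a'' b'' h'' he
          rcases ph_sg_cases hL hL12 hex hx h'' with c' | c' | c'
          · omega
          · omega
          · have : b'' = b - 1 := by omega
            subst this
            omega
        · intro a'' b'' h'' he
          rcases ph_sg_cases hL hL12 hex hx h'' with c' | c' | c'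
          · omega
          · omega
          · have : b'' = b := by omega
            subst this
            omega
      · have hk : KC H L e x (a + 1) b := by
          rw [kc_iff hL]
          right; right
          omega
        have hph : ph L e x (a + 1) b = b := by
          unfold ph; rw [if_neg (by omega), if_neg (by omega)]
        have hsg : sg (a + 1) b = -(a + 1) := by unfold sg; rw [if_neg (by omega)]
        exact ⟨a + 1, b, by omega, hk,
          pl_pred_aux hL hL12 hex hx hk (Or.inl ⟨by omega, by omega⟩)⟩

end Pool.Agent.Lib.MP_1a3405_co.BT
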