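import Mathlib
import Pool.Agent.Lib.MP_1a3405_co.BT.Defs
import Pool.Agent.Lib.MP_1a3405_co.BT.PPred
import Pool.Agent.Lib.MP_1a3405_co.BP.WPred
import Pool.Agent.Lib.MP_1a3405_co.BT.LKey

/-!
The global order of the chain. Modules in this order (first key): the start cell (`0`), the
fibre `0` (`1`), the link `0` (`2`), the fibre `1` (`3`), …, the fibre `M - 1` (`2M - 1`).
Inside a fibre: `PPred`; inside a link: `WPred`. The first cell of the fibre `g` is
`(e g, 2)`, preceded by the last cell `(e g, 3)` of the link `g - 1` (or the start cell); the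
first cell of the link `g` is `(x g, L - 2)`, preceded by the last cell `(x g, L - 1)` of the
fibre `g`.
-/

namespace Pool.Agent.Lib.MP_1a3405_co.BT

open Pool.Agent.Lib.MP_1a3405_co Pool.Agent.Lib.MP_1a3405_co.Ord
open Pool.Agent.Lib.MP_1a3405_co.BP

namespace Plan

variable {D r : ℕ} (P : Plan D r)

theorem bef_irrefl (p : Fin (D + 2) → ℤ) : ¬ P.bef p p := by
  unfold bef
  omega

theorem bef_trans {p q z : Fin (D + 2) → ℤ} (h1 : P.bef p q) (h2 : P.bef q z) : P.bef p z := by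
  unfold bef at *
  omega

private theorem c_cases {p : Fin (D + 2) → ℤ} (h : P.C p) :
    (∃ g < P.M, ∃ a b, p = pt a b (P.v g) ∧ KC P.H P.L (P.e g) (P.x g) a b) ∨ p = P.start ∨
      ∃ g, g + 1 < P.M ∧ WC 3 (P.L - 2) (P.X g) p := by
  rcases h with ⟨g, hg, hf, hk⟩ | h | h
  · refine Or.inl ⟨g, hg, p 1, p 0, ?_, hk⟩
    rw [← hf, pt_eta]
  · exact Or.inr (Or.inl h)
  · exact Or.inr (Or.inr h)

private theorem key_inj {p q : Fin (D + 2) → ℤ} (hp : P.C p) (hq : P.C q)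
    (h1 : P.k1 p = P.k1 q) (h2 : P.k2 p = P.k2 q) (h3 : P.k3 p = P.k3 q) : p = q := by
  obtain ⟨s1, s2, s3⟩ := P.k_start
  rcases P.c_cases hp with ⟨g, hg, a, b, rfl, hk⟩ | rfl | ⟨g, hg, hw⟩ <;>
    rcases P.c_cases hq with ⟨g', hg', a', b', rfl, hk'⟩ | rfl | ⟨g', hg', hw'⟩
  · obtain ⟨c1, c2, c3⟩ := P.k_core hg hk
    obtain ⟨d1, d2, d3⟩ := P.k_core hg' hk'
    have hgg : g = g' := by omega
    subst hgg
    have := pl_inj P.hL P.hL12 (P.ex g hg) (P.x_le g hg) hk hk' (by omega) (by omega)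
    rw [this.1, this.2]
  · obtain ⟨c1, c2, c3⟩ := P.k_core hg hk
    omega
  · obtain ⟨c1, c2, c3⟩ := P.k_core hg hk
    obtain ⟨d1, d2, d3⟩ := P.k_wire hg' hw'
    omega
  · obtain ⟨d1, d2, d3⟩ := P.k_core hg' hk'
    omega
  · rfl
  · obtain ⟨d1, d2, d3⟩ := P.k_wire hg' hw'
    omega
  · obtain ⟨c1, c2, c3⟩ := P.k_wire hg hw
    obtain ⟨d1, d2, d3⟩ := P.k_core hg' hk'
    omega
  · obtain ⟨c1, c2, c3⟩ := P.k_wire hg hw
    omega
  · obtain ⟨c1, c2, c3⟩ := P.k_wire hg hw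
    obtain ⟨d1, d2, d3⟩ := P.k_wire hg' hw'
    have hgg : g = g' := by omega
    subst hgg
    exact wire_key_inj (P.wire g (by omega)) hw hw' (by omega)

theorem bef_total {p q : Fin (D + 2) → ℤ} (hp : P.C p) (hq : P.C q) :
    p = q ∨ P.bef p q ∨ P.bef q p := by
  by_cases h1 : P.bef p q
  · exact Or.inr (Or.inl h1)
  by_cases h2 : P.bef q p
  · exact Or.inr (Or.inr h2)
  left
  unfold bef at h1 h2
  exact P.key_inj hp hq (by omega) (by omega) (by omega)

private theorem kc_last : KC P.H P.L (P.e (P.M - 1)) (P.x (P.M - 1)) (P.x (P.M - 1)) (P.L - 1) := by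
  unfold KC
  right; right; right; right
  exact ⟨rfl, rfl⟩

theorem last_max {p : Fin (D + 2) → ℤ} (h : P.C p) (hne : p ≠ P.last) : P.bef p P.last := by
  have hM := P.M_pos
  have hm : P.M - 1 < P.M := by omega
  obtain ⟨l1, l2, l3⟩ := P.k_core hm P.kc_last
  have hl : pt (P.x (P.M - 1)) (P.L - 1) (P.v (P.M - 1)) = P.last := rfl
  rw [hl] at l1 l2 l3
  rcases P.c_cases h with ⟨g, hg, a, b, rfl, hk⟩ | rfl | ⟨g, hg, hw⟩
  · obtain ⟨c1, c2, c3⟩ := P.k_core hg hk
    by_cases hgm : g = P.M - 1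
    · subst hgm
      rcases pl_last P.hL P.hL12 (P.ex _ hg) (P.x_le _ hg) hk with h1 | h1
      · exact absurd (by rw [h1.1, h1.2]; rfl) hne
      · unfold pl at h1
        unfold bef
        omega
    · unfold bef
      omega
  · obtain ⟨s1, s2, s3⟩ := P.k_start
    unfold bef
    omega
  · obtain ⟨c1, c2, c3⟩ := P.k_wire hg hw
    unfold bef
    omega

theorem c_last : P.C P.last := by
  have hM := P.M_pos
  exact Or.inl ⟨P.M - 1, by omega, rfl, P.kc_last⟩

theorem c_start : P.C P.start := Or.inr (Or.inl rfl)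

end Plan

end Pool.Agent.Lib.MP_1a3405_co.BT
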