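import Mathlib
import Pool.Agent.Lib.MP_1a3405_co.BT.Defs
import Pool.Agent.Lib.MP_1a3405_co.BT.LKey
import Pool.Agent.Lib.MP_1a3405_co.BP.WPred

/-!
The earlier link cells seen by a link cell. All link cells near a chain cell of the wire `g`
belong to the wire `g` (`near_unique`, `near_start`), and the keys are given by `k_wire`; use
`wire_pred`, `wire_first`.
-/

namespace Pool.Agent.Lib.MP_1a3405_co.BT

open Pool.Agent.Lib.MP_1a3405_co Pool.Agent.Lib.MP_1a3405_co.Ord
open Pool.Agent.Lib.MP_1a3405_co.BP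

namespace Plan

variable {D r : ℕ} (P : Plan D r)

/-- near a chain cell of the wire `g`, the earlier link cells are the earlier cells of the
wire `g` -/
private theorem lc_bef_iff {g : ℕ} (hg : g + 1 < P.M) {p : Fin (D + 2) → ℤ}
    (hp : WC 3 (P.L - 2) (P.X g) p) (δ : Fin (D + 2) × Bool) :
    (P.LC (nb p δ) ∧ P.bef (nb p δ) p) ↔
      (WC 3 (P.L - 2) (P.X g) (nb p δ) ∧ wkey (P.X g) (nb p δ) < wkey (P.X g) p) := by
  have kp := P.k_wire hg hp
  have key : WC 3 (P.L - 2) (P.X g) (nb p δ) →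
      (P.bef (nb p δ) p ↔ wkey (P.X g) (nb p δ) < wkey (P.X g) p) := by
    intro hq
    have kq := P.k_wire hg hq
    unfold bef
    rw [kp.1, kp.2.1, kp.2.2, kq.1, kq.2.1, kq.2.2]
    omega
  constructor
  · rintro ⟨hLC, hb⟩
    have hW : WC 3 (P.L - 2) (P.X g) (nb p δ) := by
      rcases hLC with h | ⟨g', hg', h⟩
      · exact (P.near_start (by omega : g < P.M) (Or.inl hp) (Or.inl h)
          (near_self_nb p δ)).elim
      · have e := P.near_unique (by omega : g < P.M) (by omega : g' < P.M)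
          (Or.inl hp) (Or.inl h) (near_self_nb p δ)
        subst e
        exact h
    exact ⟨hW, (key hW).1 hb⟩
  · rintro ⟨hW, hlt⟩
    exact ⟨Or.inr ⟨g, hg, hW⟩, (key hW).2 hlt⟩

private theorem first_eq {g : ℕ} (hg : g < P.M) :
    pt (P.x g) (P.L - 2) (P.v g) = Fin.cons (P.L - 2) (P.X g (P.L - 2)) := by
  rw [P.X_hi g hg]
  rfl

/-- among its neighbours, a chain cell of the wire `g < M - 1` (not the first one) sees exactly
one earlier link cell -/
theorem wire_earlier {g : ℕ} (hg : g + 1 < P.M) {p : Fin (D + 2) → ℤ}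
    (hp : WC 3 (P.L - 2) (P.X g) p) (hne : p ≠ pt (P.x g) (P.L - 2) (P.v g)) :
    cz (fun q => P.LC q ∧ P.bef q p) p = 1 := by
  rw [first_eq P (by omega)] at hne
  rw [← (wire_pred (P.wire g (by omega)) hp hne).1]
  exact cz_congr fun δ => P.lc_bef_iff hg hp δ

/-- the first cell of a link sees no earlier link cell -/
theorem wire_earlier_first {g : ℕ} (hg : g + 1 < P.M) :
    cz (fun q => P.LC q ∧ P.bef q (pt (P.x g) (P.L - 2) (P.v g)))
      (pt (P.x g) (P.L - 2) (P.v g)) = 0 := by
  have hf := wire_first (P.wire g (by omega : g < P.M))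
  rw [first_eq P (by omega)]
  refine cz_eq_zero fun δ h => ?_
  have h' := (P.lc_bef_iff hg hf.1 δ).1 h
  have := hf.2 _ h'.1
  omega

end Plan

end Pool.Agent.Lib.MP_1a3405_co.BT
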