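import Mathlib
import Pool.Agent.Lib.MP_1a3405_co.BT.Defs
import Pool.Agent.Lib.MP_1a3405_co.BT.GOrd
import Pool.Agent.Lib.MP_1a3405_co.BT.LPred

/-!
The global order of the chain. Modules in this order (first key): the start cell (`0`), the
fibre `0` (`1`), the link `0` (`2`), the fibre `1` (`3`), …, the fibre `M - 1` (`2M - 1`).
Inside a fibre: `PPred`; inside a link: `WPred`. The first cell of the fibre `g` is
`(e g, 2)`, preceded by the last cell `(e g, 3)` of the link `g - 1` (or the start cell); the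
first cell of the link `g` is `(x g, L - 2)`, preceded by the last cell `(x g, L - 1)` of the
fibre `g`.
-/

namespace Pool.Agent.Lib.MP_1a3405_co.BT

open Pool.Agent.Lib.MP_1a3405_co Pool.Agent.Lib.MP_1a3405_co.Ord
open Pool.Agent.Lib.MP_1a3405_co.BP

namespace Plan

variable {D r : ℕ} (P : Plan D r)

private theorem k1_cases {z : Fin (D + 2) → ℤ} (hz : P.C z) :
    (z = P.start ∧ P.k1 z = 0) ∨
      (∃ h < P.M, ∃ a b, z = pt a b (P.v h) ∧ KC P.H P.L (P.e h) (P.x h) a b ∧
        P.k1 z = 2 * (h : ℤ) + 1) ∨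
      (∃ h, h + 1 < P.M ∧ WC 3 (P.L - 2) (P.X h) z ∧ P.k1 z = 2 * (h : ℤ) + 2) := by
  rcases hz with ⟨h, hh, hf, hk⟩ | rfl | ⟨h, hh, hw⟩
  · refine Or.inr (Or.inl ⟨h, hh, z 1, z 0, ?_, hk, ?_⟩)
    · rw [← hf, pt_eta]
    · have e := (P.k_core hh hk).1
      rw [← hf, pt_eta] at e
      exact e
  · exact Or.inl ⟨rfl, P.k_start.1⟩
  · exact Or.inr (Or.inr ⟨h, hh, hw, (P.k_wire hh hw).1⟩)

private theorem bef_core_cases {g : ℕ} (hg : g < P.M) {a b : ℤ}
    (h : KC P.H P.L (P.e g) (P.x g) a b) {z : Fin (D + 2) → ℤ} (hz : P.C z)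
    (hb : P.bef z (pt a b (P.v g))) :
    P.k1 z < 2 * (g : ℤ) + 1 ∨ ∃ a' b', z = pt a' b' (P.v g) ∧ KC P.H P.L (P.e g) (P.x g) a' b' ∧
      pl P.L (P.e g) (P.x g) a' b' a b := by
  obtain ⟨p1, p2, p3⟩ := P.k_core hg h
  unfold bef at hb
  rw [p1, p2, p3] at hb
  rcases P.k1_cases hz with ⟨-, hk⟩ | ⟨h', hh', a', b', rfl, hk', hk⟩ | ⟨h', hh', hw, hk⟩
  · left
    omega
  · rcases hb with hb | ⟨hb1, hb2⟩
    · left
      exact hb
    · right
      have : h' = g := by omega
      subst this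
      obtain ⟨q1, q2, q3⟩ := P.k_core hh' hk'
      rw [q2, q3] at hb2
      exact ⟨a', b', rfl, hk', hb2⟩
  · rcases hb with hb | ⟨hb1, hb2⟩
    · left
      exact hb
    · omega

private theorem bef_wire_cases {g : ℕ} (hg : g + 1 < P.M) {p : Fin (D + 2) → ℤ}
    (hp : WC 3 (P.L - 2) (P.X g) p) {z : Fin (D + 2) → ℤ} (hz : P.C z) (hb : P.bef z p) :
    P.k1 z < 2 * (g : ℤ) + 2 ∨
      (WC 3 (P.L - 2) (P.X g) z ∧ wkey (P.X g) z < wkey (P.X g) p) := by
  obtain ⟨p1, p2, p3⟩ := P.k_wire hg hp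
  unfold bef at hb
  rw [p1, p2, p3] at hb
  rcases P.k1_cases hz with ⟨-, hk⟩ | ⟨h', hh', a', b', rfl, hk', hk⟩ | ⟨h', hh', hw, hk⟩
  · left
    omega
  · left
    omega
  · rcases hb with hb | ⟨hb1, hb2⟩
    · left
      exact hb
    · right
      have : h' = g := by omega
      subst this
      obtain ⟨q1, q2, q3⟩ := P.k_wire hh' hw
      rw [q2, q3] at hb2
      refine ⟨hw, ?_⟩
      omega

theorem pred_core {g : ℕ} (hg : g < P.M) {a b : ℤ} (h : KC P.H P.L (P.e g) (P.x g) a b) :
    ∃ δ, P.C (nb (pt a b (P.v g)) δ) ∧ P.bef (nb (pt a b (P.v g)) δ) (pt a b (P.v g)) ∧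
      ∀ z, P.C z → P.bef z (pt a b (P.v g)) →
        z = nb (pt a b (P.v g)) δ ∨ P.bef z (nb (pt a b (P.v g)) δ) := by
  obtain ⟨p1, p2, p3⟩ := P.k_core hg h
  have hL := P.hL
  have hL12 := P.hL12
  have hex := P.ex g hg
  have hxl := P.x_le g hg
  by_cases hf : a = P.e g ∧ b = 2
  · -- the first cell of the fibre
    have hmin : ∀ a' b', KC P.H P.L (P.e g) (P.x g) a' b' →
        ¬ pl P.L (P.e g) (P.x g) a' b' a b := by
      intro a' b' hk' hpl
      rcases pl_first hL hL12 hex hxl hk' with hq | hq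
      · rw [hq.1, hq.2, hf.1, hf.2] at hpl
        unfold pl at hpl
        omega
      · rw [hf.1, hf.2] at hpl
        unfold pl at hpl hq
        omega
    have hnb : nb (pt a b (P.v g)) (0, true) = pt (P.e g) 3 (P.v g) := by
      rw [nb_pt_b, hf.1, hf.2]
      have e : (2 : ℤ) + (if (true : Bool) = true then 1 else -1) = 3 := by
        simp
      rw [e]
    refine ⟨(0, true), ?_⟩
    rw [hnb]
    rcases Nat.eq_zero_or_pos g with rfl | hpos
    · have hs : pt (P.e 0) 3 (P.v 0) = P.start := rfl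
      rw [hs]
      refine ⟨Or.inr (Or.inl rfl), Or.inl ?_, fun z hz hb => ?_⟩
      · rw [P.k_start.1, p1]
        norm_num
      · rcases P.bef_core_cases hg h hz hb with h1 | ⟨a', b', -, hk', hpl⟩
        · rcases P.k1_cases hz with ⟨hk, -⟩ | ⟨h', hh', a', b', -, hk', hk⟩ | ⟨h', hh', hw, hk⟩
          · exact Or.inl hk
          · push_cast at h1
            omega
          · push_cast at h1
            omega
        · exact absurd hpl (hmin a' b' hk')
    · obtain ⟨g', rfl⟩ : ∃ g', g = g' + 1 := ⟨g - 1, by omega⟩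
      have hw := P.wire g' (by omega)
      obtain ⟨hl1, hl2⟩ := wire_last hw
      rw [P.X_lo g' hg] at hl1 hl2
      have hs : (Fin.cons 3 (Fin.cons (P.e (g' + 1)) (P.v (g' + 1)) : Fin (D + 1) → ℤ) :
        Fin (D + 2) → ℤ) = pt (P.e (g' + 1)) 3 (P.v (g' + 1)) := rfl
      rw [hs] at hl1 hl2
      obtain ⟨q1, q2, q3⟩ := P.k_wire hg hl1
      refine ⟨Or.inr (Or.inr ⟨g', hg, hl1⟩), Or.inl ?_, fun z hz hb => ?_⟩
      · rw [q1, p1]
        push_cast
        omega
      · rcases P.bef_core_cases hg h hz hb with h1 | ⟨a', b', -, hk', hpl⟩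
        · push_cast at h1
          rcases P.k1_cases hz with ⟨-, hk⟩ | ⟨h', hh', a', b', -, hk', hk⟩ | ⟨h', hh', hw', hk⟩
          · right
            left
            rw [hk, q1]
            omega
          · right
            left
            rw [hk, q1]
            omega
          · by_cases hgg : h' = g'
            · subst hgg
              obtain ⟨z1, z2, z3⟩ := P.k_wire hh' hw'
              rcases (hl2 z hw').lt_or_eq with hlt | heq
              · right
                right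
                refine ⟨by rw [z1, q1], Or.inl ?_⟩
                rw [z2, q2]
                exact hlt
              · left
                exact wire_key_inj hw hw' hl1 heq
            · right
              left
              rw [hk, q1]
              omega
        · exact absurd hpl (hmin a' b' hk')
  · obtain ⟨a', b', hadj, hk', hpl, hmin⟩ := pl_pred hL hL12 hex hxl h hf
    obtain ⟨q1, q2, q3⟩ := P.k_core hg hk'
    have hnb : ∃ δ, nb (pt a b (P.v g)) δ = pt a' b' (P.v g) := by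
      rcases hadj with ⟨rfl, rfl⟩ | ⟨rfl, rfl⟩ | ⟨rfl, rfl⟩ | ⟨rfl, rfl⟩
      · refine ⟨(0, true), ?_⟩
        rw [nb_pt_b]
        simp
      · refine ⟨(0, false), ?_⟩
        rw [nb_pt_b]
        simp [sub_eq_add_neg]
      · refine ⟨(1, true), ?_⟩
        rw [nb_pt_a]
        simp
      · refine ⟨(1, false), ?_⟩
        rw [nb_pt_a]
        simp [sub_eq_add_neg]
    obtain ⟨δ, hδ⟩ := hnb
    refine ⟨δ, ?_⟩
    rw [hδ]
    refine ⟨Or.inl ⟨g, hg, fib_pt _ _ _, hk'⟩, Or.inr ⟨by rw [q1, p1], ?_⟩, fun z hz hb => ?_⟩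
    · rw [q2, q3, p2, p3]
      exact hpl
    · rcases P.bef_core_cases hg h hz hb with h1 | ⟨a'', b'', rfl, hk'', hpl''⟩
      · right
        left
        rw [q1]
        exact h1
      · rcases hmin a'' b'' hk'' hpl'' with ⟨rfl, rfl⟩ | h2
        · exact Or.inl rfl
        · right
          right
          obtain ⟨z1, z2, z3⟩ := P.k_core hg hk''
          refine ⟨by rw [z1, q1], ?_⟩
          rw [z2, z3, q2, q3]
          exact h2

theorem pred_link {g : ℕ} (hg : g + 1 < P.M) {p : Fin (D + 2) → ℤ}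
    (hp : WC 3 (P.L - 2) (P.X g) p) :
    ∃ δ, P.C (nb p δ) ∧ P.bef (nb p δ) p ∧
      ∀ z, P.C z → P.bef z p → z = nb p δ ∨ P.bef z (nb p δ) := by
  have hgM : g < P.M := by omega
  have hw := P.wire g hgM
  have hL := P.hL
  have hL12 := P.hL12
  have hex := P.ex g hgM
  have hxl := P.x_le g hgM
  obtain ⟨p1, p2, p3⟩ := P.k_wire hg hp
  by_cases hf : p = Fin.cons (P.L - 2) (P.X g (P.L - 2))
  · obtain ⟨-, hfirst⟩ := wire_first hw
    rw [← hf] at hfirst
    have hf' : p = pt (P.x g) (P.L - 2) (P.v g) := by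
      rw [hf, P.X_hi g hgM]
      rfl
    have hnb : nb p (0, true) = pt (P.x g) (P.L - 1) (P.v g) := by
      rw [hf', nb_pt_b]
      have e : P.L - 2 + (if (true : Bool) = true then 1 else -1) = P.L - 1 := by
        simp
        ring
      rw [e]
    have hk' : KC P.H P.L (P.e g) (P.x g) (P.x g) (P.L - 1) :=
      Or.inr (Or.inr (Or.inr (Or.inr ⟨rfl, rfl⟩)))
    obtain ⟨q1, q2, q3⟩ := P.k_core hgM hk'
    refine ⟨(0, true), ?_⟩
    rw [hnb]
    refine ⟨Or.inl ⟨g, hgM, fib_pt _ _ _, hk'⟩, Or.inl (by rw [q1, p1]; omega),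
      fun z hz hb => ?_⟩
    rcases P.bef_wire_cases hg hp hz hb with h1 | ⟨h1, h2⟩
    · rcases P.k1_cases hz with ⟨-, hk⟩ | ⟨h', hh', a', b', rfl, hkc, hk⟩ | ⟨h', hh', hw', hk⟩
      · right
        left
        rw [hk, q1]
        omega
      · by_cases hgg : h' = g
        · subst hgg
          rcases pl_last hL hL12 hex hxl hkc with ⟨rfl, rfl⟩ | h2
          · exact Or.inl rfl
          · right
            right
            obtain ⟨z1, z2, z3⟩ := P.k_core hh' hkc
            refine ⟨by rw [z1, q1], ?_⟩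
            rw [z2, z3, q2, q3]
            exact h2
        · right
          left
          rw [hk, q1]
          omega
      · right
        left
        rw [hk, q1]
        omega
    · have := hfirst z h1
      omega
  · obtain ⟨-, δ, hw1, hlt, hmin⟩ := wire_pred hw hp hf
    obtain ⟨q1, q2, q3⟩ := P.k_wire hg hw1
    refine ⟨δ, Or.inr (Or.inr ⟨g, hg, hw1⟩), Or.inr ⟨by rw [q1, p1], Or.inl ?_⟩,
      fun z hz hb => ?_⟩
    · rw [q2, p2]
      exact hlt
    · rcases P.bef_wire_cases hg hp hz hb with h1 | ⟨h1, h2⟩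
      · right
        left
        rw [q1]
        exact h1
      · rcases hmin z h1 h2 with h3 | h3
        · exact Or.inl h3
        · right
          right
          obtain ⟨z1, z2, z3⟩ := P.k_wire hg h1
          refine ⟨by rw [z1, q1], Or.inl ?_⟩
          rw [z2, q2]
          exact h3

theorem pred {p : Fin (D + 2) → ℤ} (h : P.C p) (hne : p ≠ P.start) :
    ∃ δ, P.C (nb p δ) ∧ P.bef (nb p δ) p ∧
      ∀ z, P.C z → P.bef z p → z = nb p δ ∨ P.bef z (nb p δ) := by
  rcases P.k1_cases h with ⟨hs, -⟩ | ⟨g, hg, a, b, rfl, hk, -⟩ | ⟨g, hg, hw, -⟩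
  · exact absurd hs hne
  · exact P.pred_core hg hk
  · exact P.pred_link hg hw

end Plan

end Pool.Agent.Lib.MP_1a3405_co.BT
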