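import Mathlib
import Pool.Agent.Lib.MP_1a3405_co.BT.PRho

/-!
Planar lemmas: the set `Mem H L e x = KC ∪ SC` of all cells of an active fibre, row by row.
Rows: `0`: `[-2, H+1] ∪ {e}`; `1`: `[e, H+1]`; `2`: `[e, -3] ∪ {H+1, H+2}`; rows
`3 ≤ b ≤ L - 2`: `RM H L (rho H b)`; rows `L - 1`, `L`: `[x, 1]`; row `L + 1`: `{1, x}`.
-/

namespace Pool.Agent.Lib.MP_1a3405_co.BT

/-- all cells of an active fibre -/
def Mem (H L e x a b : ℤ) : Prop := KC H L e x a b ∨ SC H L e x a b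

/-- the row of type `s` -/
def RM (H L s a : ℤ) : Prop :=
  (s ≤ 3 ∧ 0 ≤ a ∧ a ≤ 1) ∨ (4 ≤ s ∧ s ≤ 5 ∧ 1 ≤ a ∧ a ≤ H + 1) ∨ (s = 6 ∧ a = 1) ∨
    (6 ≤ s ∧ s ≤ 7 ∧ H + 1 ≤ a ∧ a ≤ H + 2) ∨ (s = 8 ∧ H + 1 ≤ a ∧ a ≤ L - H) ∨
    (9 ≤ s ∧ s % 2 = 1 ∧ H + 4 - s / 2 ≤ a ∧ a ≤ L - H + s / 2 - 4) ∨
    (9 ≤ s ∧ s % 2 = 0 ∧ H + 5 - s / 2 ≤ a ∧ a ≤ L - H + s / 2 - 4)

variable {H L e x a b : ℤ}

theorem mem_iff : Mem H L e x a b ↔
    ((b = 2 ∧ a = e) ∨ (b = 1 ∧ e ≤ a ∧ a ≤ H + 1) ∨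
      (2 ≤ b ∧ b ≤ L - 1 ∧ lf H b ≤ a ∧ a ≤ rg H L b) ∨
      (b = L ∧ x ≤ a ∧ a ≤ 1) ∨ (b = L - 1 ∧ a = x)) ∨
    (((b = 0 ∧ -2 ≤ a ∧ a ≤ H + 1) ∨ (b = 2 ∧ e < a ∧ a ≤ -3) ∨ (b = L - 1 ∧ x < a ∧ a ≤ -1) ∨
      (b = L + 1 ∧ a = 1) ∨ SI H L a b) ∨ (b = 0 ∧ a = e) ∨ (b = L + 1 ∧ a = x)) := by
  unfold Mem KC SC SC0
  exact Iff.rfl

/-- the cells of a middle row: chain cells and the seeds `SI` -/
theorem row_iff (hL : Sz H L) (hb : 2 ≤ b) (hb' : b ≤ L - 1) (h2 : b ≠ 2) :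
    ((lf H b ≤ a ∧ a ≤ rg H L b) ∨ SI H L a b) ↔ RM H L (rho H b) a := by
  have A := rho_all hL b
  have B := lf_rg H L b
  obtain ⟨A1, A2, A3, A4, A5, -, -, -⟩ := A
  unfold SI RM
  generalize rho H b = s at *
  generalize lf H b = l at *
  generalize rg H L b = r at *
  rcases B with B | B | B | B
  · constructor
    · rintro (h | ⟨-, -, h | h | h | h | h | h | h⟩) <;> omega
    · rintro (h | h | h | h | h | h | h) <;> omega
  · constructor
    · rintro (h | ⟨-, -, h | h | h | h | h | h | h⟩) <;> omega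
    · rintro (h | h | h | h | h | h | h) <;> omega
  · constructor
    · rintro (h | ⟨-, -, h | h | h | h | h | h | h⟩) <;> omega
    · rintro (h | h | h | h | h | h | h) <;> omega
  · obtain ⟨B1, B2, B3⟩ := B
    subst B2 B3
    rcases Int.emod_two_eq_zero_or_one s with hs | hs
    · constructor
      · rintro (h | ⟨-, -, h | h | h | h | h | h | h⟩) <;> omega
      · rintro (h | h | h | h | h | h | h) <;> omega
    · constructor
      · rintro (h | ⟨-, -, h | h | h | h | h | h | h⟩) <;> omega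
      · rintro (h | h | h | h | h | h | h) <;> omega

theorem not_si {a b : ℤ} (h : b < 2 ∨ L - 1 < b) : ¬ SI H L a b := by
  unfold SI
  omega

theorem mem_row0 (hL : Sz H L) : Mem H L e x a 0 ↔ (-2 ≤ a ∧ a ≤ H + 1) ∨ a = e := by
  have A := hL.H3
  have A' := hL.H_le
  have S := @not_si H L a 0 (by omega)
  rw [mem_iff]
  constructor
  · rintro ((h | h | h | h | h) | ((h | h | h | h | h) | h | h))
    all_goals first | exact absurd h S | omega
  · rintro (h | h)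
    · exact Or.inr (Or.inl (Or.inl ⟨rfl, h⟩))
    · exact Or.inr (Or.inr (Or.inl ⟨rfl, h⟩))

theorem mem_row1 (hL : Sz H L) : Mem H L e x a 1 ↔ e ≤ a ∧ a ≤ H + 1 := by
  have A := hL.H3
  have A' := hL.H_le
  have S := @not_si H L a 1 (by omega)
  rw [mem_iff]
  constructor
  · rintro ((h | h | h | h | h) | ((h | h | h | h | h) | h | h))
    all_goals first | exact absurd h S | omega
  · intro h
    exact Or.inl (Or.inr (Or.inl ⟨rfl, h⟩))

theorem si_two (hL : Sz H L) : SI H L a 2 ↔ a = H + 2 := by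
  have A := rho_all hL 2
  obtain ⟨A1, A2, A3, A4, A5, -, A7, -⟩ := A
  have A8 := A7 (by omega) (by omega)
  unfold SI
  rw [A8]
  constructor
  · rintro ⟨-, -, h | h | h | h | h | h | h⟩ <;> omega
  · intro h
    exact ⟨by omega, by omega, Or.inr (Or.inr (Or.inr (Or.inl ⟨by omega, by omega, h⟩)))⟩

theorem lf_two (hL : Sz H L) : lf H 2 = H + 1 ∧ rg H L 2 = H + 1 := by
  have A8 := rho_low hL (b := 2) (by omega) (by omega)
  have B := lf_rg H L 2
  rw [A8] at B
  omega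

theorem mem_row2 (hL : Sz H L) (hex : e + 6 ≤ x) (hx : x ≤ -12) :
    Mem H L e x a 2 ↔ (e ≤ a ∧ a ≤ -3) ∨ (H + 1 ≤ a ∧ a ≤ H + 2) := by
  have A := hL.H3
  have A' := hL.H_le
  have B := lf_two hL
  rw [mem_iff, si_two hL, B.1, B.2]
  constructor
  · rintro ((h | h | h | h | h) | ((h | h | h | h | h) | h | h)) <;> omega
  · rintro (⟨h1, h2⟩ | ⟨h1, h2⟩)
    · rcases eq_or_lt_of_le h1 with h3 | h3
      · exact Or.inl (Or.inl ⟨rfl, h3.symm⟩)
      · exact Or.inr (Or.inl (Or.inr (Or.inl ⟨rfl, h3, h2⟩)))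
    · rcases eq_or_lt_of_le h2 with h3 | h3
      · exact Or.inr (Or.inl (Or.inr (Or.inr (Or.inr (Or.inr h3)))))
      · exact Or.inl (Or.inr (Or.inr (Or.inl ⟨by omega, by omega, by omega, by omega⟩)))

/-- membership in a middle row -/
theorem mem_rowM (hL : Sz H L) (hb : 3 ≤ b) (hb' : b ≤ L - 2) :
    Mem H L e x a b ↔ RM H L (rho H b) a := by
  rw [mem_iff, ← row_iff hL (by omega) (by omega) (by omega)]
  constructor
  · rintro ((h | h | h | h | h) | ((h | h | h | h | h) | h | h))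
    · omega
    · omega
    · exact Or.inl h.2.2
    · omega
    · omega
    · omega
    · omega
    · omega
    · omega
    · exact Or.inr h
    · omega
    · omega
  · rintro (h | h)
    · exact Or.inl (Or.inr (Or.inr (Or.inl ⟨by omega, by omega, h⟩)))
    · exact Or.inr (Or.inl (Or.inr (Or.inr (Or.inr (Or.inr h)))))

/-- membership in the row `L - 1` -/
theorem mem_rowL1 (hL : Sz H L) (hx : x ≤ -12) (hb : b = L - 1) :
    Mem H L e x a b ↔ x ≤ a ∧ a ≤ 1 := by
  have A' := hL.H_le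
  have A := hL.H3
  have R := row_iff (a := a) hL (b := b) (by omega) (by omega) (by omega)
  have A8 := rho_top hL (b := b) (by omega) (by omega)
  have A9 : rho H b = 3 := by omega
  have R' : RM H L (rho H b) a ↔ 0 ≤ a ∧ a ≤ 1 := by
    rw [A9]
    unfold RM
    constructor
    · rintro (h | h | h | h | h | h | h) <;> omega
    · intro h
      exact Or.inl ⟨by omega, h⟩
  rw [R'] at R
  rw [mem_iff]
  constructor
  · rintro ((h | h | h | h | h) | ((h | h | h | h | h) | h | h))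
    · omega
    · omega
    · have := R.1 (Or.inl h.2.2)
      omega
    · omega
    · omega
    · omega
    · omega
    · omega
    · omega
    · have := R.1 (Or.inr h)
      omega
    · omega
    · omega
  · rintro ⟨h1, h2⟩
    rcases eq_or_lt_of_le h1 with h3 | h3
    · exact Or.inl (Or.inr (Or.inr (Or.inr (Or.inr ⟨hb, h3.symm⟩))))
    · by_cases h4 : a ≤ -1
      · exact Or.inr (Or.inl (Or.inr (Or.inr (Or.inl ⟨hb, h3, h4⟩))))
      · rcases R.2 ⟨by omega, h2⟩ with h5 | h5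
        · exact Or.inl (Or.inr (Or.inr (Or.inl ⟨by omega, by omega, h5⟩)))
        · exact Or.inr (Or.inl (Or.inr (Or.inr (Or.inr (Or.inr h5)))))

/-- membership in the row `L` -/
theorem mem_rowL (hL : Sz H L) (hb : b = L) :
    Mem H L e x a b ↔ x ≤ a ∧ a ≤ 1 := by
  have A' := hL.H_le
  have A := hL.H3
  have S := @not_si H L a b (by omega)
  rw [mem_iff]
  constructor
  · rintro ((h | h | h | h | h) | ((h | h | h | h | h) | h | h))
    all_goals first | exact absurd h S | omega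
  · intro h
    exact Or.inl (Or.inr (Or.inr (Or.inr (Or.inl ⟨hb, h⟩))))

/-- membership in the row `L + 1` -/
theorem mem_rowL2 (hL : Sz H L) (hb : b = L + 1) : Mem H L e x a b ↔ a = 1 ∨ a = x := by
  have A' := hL.H_le
  have A := hL.H3
  have S := @not_si H L a b (by omega)
  rw [mem_iff]
  constructor
  · rintro ((h | h | h | h | h) | ((h | h | h | h | h) | h | h))
    all_goals first | exact absurd h S | omega
  · rintro (h | h)
    · exact Or.inr (Or.inl (Or.inr (Or.inr (Or.inr (Or.inl ⟨hb, h⟩)))))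
    · exact Or.inr (Or.inr (Or.inr ⟨hb, h⟩))

theorem rm_nonneg (hL : Sz H L) {s : ℤ} (hs : s ≤ 2 * H + 8) (h : RM H L s a) : 0 ≤ a := by
  have A := hL.H3
  unfold RM at h
  rcases h with h | h | h | h | h | h | h <;> omega

theorem mem_coarse (hL : Sz H L) (hex : e + 6 ≤ x) (hx : x ≤ -12) (h : Mem H L e x a b) :
    e ≤ a ∧ 0 ≤ b ∧ b ≤ L + 1 ∧ (3 ≤ b → b ≤ L - 2 → 0 ≤ a) ∧ (L - 1 ≤ b → x ≤ a) := by
  have A' := hL.H_le
  have A := hL.H3
  have hb : b < 0 ∨ b = 0 ∨ b = 1 ∨ b = 2 ∨ (3 ≤ b ∧ b ≤ L - 2) ∨ b = L - 1 ∨ b = L ∨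
    b = L + 1 ∨ L + 1 < b := by omega
  rcases hb with hb | hb | hb | hb | hb | hb | hb | hb | hb
  · have S := @not_si H L a b (by omega)
    rw [mem_iff] at h
    rcases h with (h | h | h | h | h) | ((h | h | h | h | h) | h | h)
    all_goals first | exact absurd h S | (exfalso; omega)
  · subst hb
    rw [mem_row0 hL] at h
    omega
  · subst hb
    rw [mem_row1 hL] at h
    omega
  · subst hb
    rw [mem_row2 hL hex hx] at h
    omega
  · rw [mem_rowM hL hb.1 hb.2] at h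
    have := rm_nonneg hL (rho_bd hL b).2 h
    omega
  · rw [mem_rowL1 hL hx hb] at h
    omega
  · rw [mem_rowL hL hb] at h
    omega
  · rw [mem_rowL2 hL hb] at h
    omega
  · have S := @not_si H L a b (by omega)
    rw [mem_iff] at h
    rcases h with (h | h | h | h | h) | ((h | h | h | h | h) | h | h)
    all_goals first | exact absurd h S | (exfalso; omega)

theorem mem_of_mf (h : MF H L e x a b) : Mem H L e x a b :=
  h.elim Or.inl (fun h => Or.inr (Or.inl h))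

end Pool.Agent.Lib.MP_1a3405_co.BT
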