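import Mathlib
import Pool.Agent.Lib.MP_1a3405_co.BT.PIncl
import Pool.Agent.Lib.MP_1a3405_co.BT.PRows

/-!
Planar lemma: a chain cell of an active fibre sees, inside its fibre, exactly two cells which are
seeds or earlier chain cells (only one for the first cell `(e, 2)`).
-/

namespace Pool.Agent.Lib.MP_1a3405_co.BT

/-- `(a', b')` is a seed, or a chain cell earlier than `(a, b)` -/
def EK (H L e x a b a' b' : ℤ) : Prop :=
  SC H L e x a' b' ∨ (KC H L e x a' b' ∧ (ph L e x a' b' < ph L e x a b ∨
    (ph L e x a' b' = ph L e x a b ∧ sg a' b' < sg a b)))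

open Classical in
theorem sum_aux {p q r s : Prop} {c : Prop} [Decidable c] (hc : ¬ c)
    (h : (p ∧ q ∧ ¬ r ∧ ¬ s) ∨ (p ∧ ¬ q ∧ r ∧ ¬ s) ∨ (p ∧ ¬ q ∧ ¬ r ∧ s) ∨
      (¬ p ∧ q ∧ r ∧ ¬ s) ∨ (¬ p ∧ q ∧ ¬ r ∧ s) ∨ (¬ p ∧ ¬ q ∧ r ∧ s)) :
    (if p then 1 else 0) + (if q then 1 else 0) + ((if r then 1 else 0) + (if s then 1 else 0)) =
      if c then 1 else 2 := by
  rcases h with ⟨h1, h2, h3, h4⟩ | ⟨h1, h2, h3, h4⟩ | ⟨h1, h2, h3, h4⟩ | ⟨h1, h2, h3, h4⟩ |
    ⟨h1, h2, h3, h4⟩ | ⟨h1, h2, h3, h4⟩ <;> simp [h1, h2, h3, h4, hc]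

/-- the chain cells of a row of type `s` -/
def KR (H L s a : ℤ) : Prop :=
  (s ≤ 4 ∧ a = 1) ∨ (s = 5 ∧ 1 ≤ a ∧ a ≤ H + 1) ∨ (6 ≤ s ∧ s ≤ 8 ∧ a = H + 1) ∨
    (9 ≤ s ∧ s % 2 = 1 ∧ H + 5 - s / 2 ≤ a ∧ a ≤ L - H + s / 2 - 4) ∨
    (9 ≤ s ∧ s % 2 = 0 ∧ H + 5 - s / 2 ≤ a ∧ a ≤ L - H + s / 2 - 5)

/-- the seeds of a row of type `s` -/
def SR (H L s a : ℤ) : Prop :=
  (s ≤ 3 ∧ a = 0) ∨ (s = 4 ∧ 2 ≤ a ∧ a ≤ H + 1) ∨ (s = 6 ∧ a = 1) ∨
    (6 ≤ s ∧ s ≤ 7 ∧ a = H + 2) ∨ (s = 8 ∧ H + 2 ≤ a ∧ a ≤ L - H) ∨
    (9 ≤ s ∧ s % 2 = 1 ∧ a = H + 4 - s / 2) ∨ (9 ≤ s ∧ s % 2 = 0 ∧ a = L - H + s / 2 - 4)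

variable {H L e x a b : ℤ}

theorem kr_iff (hL : Sz H L) (hex : e + 6 ≤ x) (hx : x ≤ -12) (hb : 2 ≤ b) (hb' : b ≤ L - 1)
    (ha : 0 ≤ a) : KC H L e x a b ↔ KR H L (rho H b) a := by
  have A := rho_bd hL b
  have A3 := hL.H3
  have B := lf_rg H L b
  have h1 : KC H L e x a b ↔ lf H b ≤ a ∧ a ≤ rg H L b := by
    unfold KC
    constructor
    · rintro (h | h | h | h | h)
      · omega
      · omega
      · exact h.2.2
      · omega
      · omega
    · intro h
      exact Or.inr (Or.inr (Or.inl ⟨hb, hb', h⟩))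
  rw [h1]
  unfold KR
  generalize rho H b = s at *
  generalize lf H b = l at *
  generalize rg H L b = r at *
  rcases B with B | B | B | B
  · constructor
    · intro h
      exact Or.inl ⟨by omega, by omega⟩
    · rintro (h | h | h | h | h) <;> omega
  · constructor
    · intro h
      exact Or.inr (Or.inl ⟨by omega, by omega⟩)
    · rintro (h | h | h | h | h) <;> omega
  · constructor
    · intro h
      exact Or.inr (Or.inr (Or.inl ⟨by omega, by omega, by omega⟩))
    · rintro (h | h | h | h | h) <;> omega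
  · rcases Int.emod_two_eq_zero_or_one s with hs | hs
    · constructor
      · intro h
        exact Or.inr (Or.inr (Or.inr (Or.inr ⟨by omega, by omega, by omega, by omega⟩)))
      · rintro (h | h | h | h | h) <;> omega
    · constructor
      · intro h
        exact Or.inr (Or.inr (Or.inr (Or.inl ⟨by omega, by omega, by omega, by omega⟩)))
      · rintro (h | h | h | h | h) <;> omega

theorem sr_iff (hL : Sz H L) (hex : e + 6 ≤ x) (hx : x ≤ -12) (hb : 2 ≤ b) (hb' : b ≤ L - 1)
    (ha : 0 ≤ a) (h2 : b = 2 → a ≠ 1) : SC H L e x a b ↔ SR H L (rho H b) a := by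
  have A := rho_bd hL b
  have A3 := hL.H3
  have B := lf_rg H L b
  have h1 : SC H L e x a b ↔ SI H L a b := by
    unfold SC SC0
    constructor
    · rintro ((h | h | h | h | h) | h | h)
      · omega
      · omega
      · omega
      · omega
      · exact h
      · omega
      · omega
    · intro h
      exact Or.inl (Or.inr (Or.inr (Or.inr (Or.inr h))))
  rw [h1]
  unfold SR SI
  generalize rho H b = s at *
  generalize lf H b = l at *
  generalize rg H L b = r at *
  rcases B with B | B | B | B
  · constructor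
    · rintro ⟨-, -, h | h | h | h | h | h | h⟩ <;> omega
    · rintro (h | h | h | h | h | h | h)
      · exact ⟨hb, hb', Or.inl h⟩
      · exact ⟨hb, hb', Or.inr (Or.inl h)⟩
      · omega
      · omega
      · omega
      · omega
      · omega
  · constructor
    · rintro ⟨-, -, h | h | h | h | h | h | h⟩ <;> omega
    · rintro (h | h | h | h | h | h | h) <;> omega
  · constructor
    · rintro ⟨-, -, h | h | h | h | h | h | h⟩ <;> omega
    · rintro (h | h | h | h | h | h | h)
      · omega
      · omega
      · exact ⟨hb, hb', Or.inr (Or.inr (Or.inl ⟨h.1, fun h3 => h2 h3 h.2, h.2⟩))⟩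
      · exact ⟨hb, hb', Or.inr (Or.inr (Or.inr (Or.inl h)))⟩
      · exact ⟨hb, hb', Or.inr (Or.inr (Or.inr (Or.inr (Or.inl h))))⟩
      · omega
      · omega
  · obtain ⟨B1, B2, B3⟩ := B
    subst B2 B3
    rcases Int.emod_two_eq_zero_or_one s with hs | hs
    · constructor
      · rintro ⟨-, -, h | h | h | h | h | h | h⟩
        · omega
        · omega
        · omega
        · omega
        · omega
        · omega
        · exact Or.inr (Or.inr (Or.inr (Or.inr (Or.inr (Or.inr ⟨by omega, hs, by omega⟩)))))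
      · rintro (h | h | h | h | h | h | h)
        · omega
        · omega
        · omega
        · omega
        · omega
        · omega
        · exact ⟨hb, hb', Or.inr (Or.inr (Or.inr (Or.inr (Or.inr (Or.inr
            ⟨by omega, hs, by omega⟩)))))⟩
    · constructor
      · rintro ⟨-, -, h | h | h | h | h | h | h⟩
        · omega
        · omega
        · omega
        · omega
        · omega
        · exact Or.inr (Or.inr (Or.inr (Or.inr (Or.inr (Or.inl ⟨by omega, hs, by omega⟩)))))
        · omega
      · rintro (h | h | h | h | h | h | h)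
        · omega
        · omega
        · omega
        · omega
        · omega
        · exact ⟨hb, hb', Or.inr (Or.inr (Or.inr (Or.inr (Or.inr (Or.inl
            ⟨by omega, hs, by omega⟩)))))⟩
        · omega

/-- the count in a middle row -/
theorem row_chain (hL : Sz H L) {s s' s'' : ℤ} (hs1 : 1 ≤ s) (hs : s ≤ 2 * H + 8)
    (hs' : (s = 2 * H + 8 ∧ s' = 1) ∨ (s < 2 * H + 8 ∧ s' = s + 1))
    (hs'' : (s = 1 ∧ s'' = 2 * H + 8) ∨ (1 < s ∧ s'' = s - 1)) (h : KR H L s a) :
    (SR H L s' a ∧ (SR H L s'' a ∨ KR H L s'' a) ∧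
        ¬ (SR H L s (a + 1) ∨ (KR H L s (a + 1) ∧ s % 2 = 0)) ∧
        ¬ (SR H L s (a - 1) ∨ (KR H L s (a - 1) ∧ s % 2 = 1))) ∨
      (¬ SR H L s' a ∧ (SR H L s'' a ∨ KR H L s'' a) ∧
        (SR H L s (a + 1) ∨ (KR H L s (a + 1) ∧ s % 2 = 0)) ∧
        ¬ (SR H L s (a - 1) ∨ (KR H L s (a - 1) ∧ s % 2 = 1))) ∨
      (¬ SR H L s' a ∧ (SR H L s'' a ∨ KR H L s'' a) ∧
        ¬ (SR H L s (a + 1) ∨ (KR H L s (a + 1) ∧ s % 2 = 0)) ∧
        (SR H L s (a - 1) ∨ (KR H L s (a - 1) ∧ s % 2 = 1))) := by
  have A := hL.H3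
  have A' := hL.H_le
  have hc : s = 1 ∨ s = 2 ∨ s = 3 ∨ s = 4 ∨ s = 5 ∨ s = 6 ∨ s = 7 ∨ s = 8 ∨ s = 9 ∨
    (10 ≤ s ∧ s % 2 = 0) ∨ (10 ≤ s ∧ s % 2 = 1) := by omega
  rcases hc with hc | hc | hc | hc | hc | hc | hc | hc | hc | hc | hc
  · -- 1
    subst hc
    obtain rfl : s' = 2 := by omega
    obtain rfl : s'' = 2 * H + 8 := by omega
    have ha : a = 1 := by unfold KR at h; rcases h with h | h | h | h | h <;> omega
    subst ha
    right; right
    refine ⟨?_, Or.inr ?_, ?_, Or.inl ?_⟩
    · unfold SR; omega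
    · unfold KR; omega
    · unfold KR SR; omega
    · unfold SR; omega
  · -- 2
    subst hc
    obtain rfl : s' = 3 := by omega
    obtain rfl : s'' = 1 := by omega
    have ha : a = 1 := by unfold KR at h; rcases h with h | h | h | h | h <;> omega
    subst ha
    right; right
    refine ⟨?_, Or.inr ?_, ?_, Or.inl ?_⟩
    · unfold SR; omega
    · unfold KR; omega
    · unfold KR SR; omega
    · unfold SR; omega
  · -- 3
    subst hc
    obtain rfl : s' = 4 := by omega
    obtain rfl : s'' = 2 := by omega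
    have ha : a = 1 := by unfold KR at h; rcases h with h | h | h | h | h <;> omega
    subst ha
    right; right
    refine ⟨?_, Or.inr ?_, ?_, Or.inl ?_⟩
    · unfold SR; omega
    · unfold KR; omega
    · unfold KR SR; omega
    · unfold SR; omega
  · -- 4
    subst hc
    obtain rfl : s' = 5 := by omega
    obtain rfl : s'' = 3 := by omega
    have ha : a = 1 := by unfold KR at h; rcases h with h | h | h | h | h <;> omega
    subst ha
    right; left
    refine ⟨?_, Or.inr ?_, Or.inl ?_, ?_⟩
    · unfold SR; omega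
    · unfold KR; omega
    · unfold SR; omega
    · unfold KR SR; omega
  · -- 5
    subst hc
    obtain rfl : s' = 6 := by omega
    obtain rfl : s'' = 4 := by omega
    have ha : 1 ≤ a ∧ a ≤ H + 1 := by unfold KR at h; rcases h with h | h | h | h | h <;> omega
    by_cases h1 : a = 1
    · left
      refine ⟨?_, Or.inr ?_, ?_, ?_⟩
      · unfold SR; omega
      · unfold KR; omega
      · unfold KR SR; omega
      · unfold KR SR; omega
    · right; right
      refine ⟨?_, Or.inl ?_, ?_, Or.inr ⟨?_, by norm_num⟩⟩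
      · unfold SR; omega
      · unfold SR; omega
      · unfold KR SR; omega
      · unfold KR; omega
  · -- 6
    subst hc
    obtain rfl : s' = 7 := by omega
    obtain rfl : s'' = 5 := by omega
    have ha : a = H + 1 := by unfold KR at h; rcases h with h | h | h | h | h <;> omega
    subst ha
    right; left
    refine ⟨?_, Or.inr ?_, Or.inl ?_, ?_⟩
    · unfold SR; omega
    · unfold KR; omega
    · unfold SR; omega
    · unfold KR SR; omega
  · -- 7
    subst hc
    obtain rfl : s' = 8 := by omega
    obtain rfl : s'' = 6 := by omega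
    have ha : a = H + 1 := by unfold KR at h; rcases h with h | h | h | h | h <;> omega
    subst ha
    right; left
    refine ⟨?_, Or.inr ?_, Or.inl ?_, ?_⟩
    · unfold SR; omega
    · unfold KR; omega
    · unfold SR; omega
    · unfold KR SR; omega
  · -- 8
    subst hc
    obtain rfl : s' = 9 := by omega
    obtain rfl : s'' = 7 := by omega
    have ha : a = H + 1 := by unfold KR at h; rcases h with h | h | h | h | h <;> omega
    subst ha
    right; left
    refine ⟨?_, Or.inr ?_, Or.inl ?_, ?_⟩
    · unfold SR; omega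
    · unfold KR; omega
    · unfold SR; omega
    · unfold KR SR; omega
  · -- 9
    subst hc
    obtain rfl : s' = 10 := by omega
    obtain rfl : s'' = 8 := by omega
    have ha : H + 1 ≤ a ∧ a ≤ L - H := by
      unfold KR at h; rcases h with h | h | h | h | h <;> omega
    right; right
    refine ⟨?_, ?_, ?_, ?_⟩
    · unfold SR; omega
    · by_cases h1 : a = H + 1
      · right; unfold KR; omega
      · left; unfold SR; omega
    · unfold KR SR; omega
    · by_cases h1 : a = H + 1
      · left; unfold SR; omega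
      · right
        refine ⟨?_, by norm_num⟩
        unfold KR; omega
  · -- even
    obtain ⟨hc, hp⟩ := hc
    have ha : H + 5 - s / 2 ≤ a ∧ a ≤ L - H + s / 2 - 5 := by
      unfold KR at h; rcases h with h | h | h | h | h <;> omega
    obtain rfl : s'' = s - 1 := by omega
    right; left
    refine ⟨?_, ?_, ?_, ?_⟩
    · rcases hs' with ⟨h1, h2⟩ | ⟨h1, h2⟩
      · subst h2; unfold SR; omega
      · subst h2; unfold SR; omega
    · by_cases h1 : a = H + 5 - s / 2
      · left; unfold SR; omega
      · right; unfold KR; omega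
    · by_cases h1 : a = L - H + s / 2 - 5
      · left; unfold SR; omega
      · right
        refine ⟨?_, hp⟩
        unfold KR; omega
    · unfold KR SR; omega
  · -- odd
    obtain ⟨hc, hp⟩ := hc
    have ha : H + 5 - s / 2 ≤ a ∧ a ≤ L - H + s / 2 - 4 := by
      unfold KR at h; rcases h with h | h | h | h | h <;> omega
    obtain rfl : s'' = s - 1 := by omega
    obtain rfl : s' = s + 1 := by omega
    right; right
    refine ⟨?_, ?_, ?_, ?_⟩
    · unfold SR; omega
    · by_cases h1 : a = L - H + s / 2 - 4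
      · left; unfold SR; omega
      · right; unfold KR; omega
    · unfold KR SR; omega
    · by_cases h1 : a = H + 5 - s / 2
      · left; unfold SR; omega
      · right
        refine ⟨?_, hp⟩
        unfold KR; omega

/-! the special rows -/

theorem kc_r1 (hL : Sz H L) : KC H L e x a 1 ↔ e ≤ a ∧ a ≤ H + 1 := by
  have A := hL.H3
  have A' := hL.H_le
  unfold KC
  constructor
  · rintro (h | h | h | h | h) <;> omega
  · intro h
    exact Or.inr (Or.inl ⟨rfl, h⟩)

theorem kc_r2 (hL : Sz H L) : KC H L e x a 2 ↔ a = e ∨ a = H + 1 := by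
  have A := hL.H3
  have A' := hL.H_le
  have B := lf_two hL
  unfold KC
  rw [B.1, B.2]
  constructor
  · rintro (h | h | h | h | h) <;> omega
  · rintro (h | h)
    · exact Or.inl ⟨rfl, h⟩
    · exact Or.inr (Or.inr (Or.inl ⟨le_rfl, by omega, by omega, by omega⟩))

theorem kc_out (hL : Sz H L) (hb : b ≤ 0 ∨ L < b) : ¬ KC H L e x a b := by
  have A := hL.H3
  have A' := hL.H_le
  unfold KC
  rintro (h | h | h | h | h) <;> omega

theorem kc_rL (hL : Sz H L) : KC H L e x a L ↔ x ≤ a ∧ a ≤ 1 := by
  have A := hL.H3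
  have A' := hL.H_le
  unfold KC
  constructor
  · rintro (h | h | h | h | h) <;> omega
  · intro h
    exact Or.inr (Or.inr (Or.inr (Or.inl ⟨rfl, h⟩)))

theorem kc_rL1 (hL : Sz H L) : KC H L e x a (L - 1) ↔ a = 1 ∨ a = x := by
  have A := hL.H3
  have A' := hL.H_le
  have B : lf H (L - 1) = 1 ∧ rg H L (L - 1) = 1 := by
    have A8 := rho_top hL (b := L - 1) (by omega) (by omega)
    have B := lf_rg H L (L - 1)
    omega
  unfold KC
  rw [B.1, B.2]
  constructor
  · rintro (h | h | h | h | h) <;> omega
  · rintro (h | h)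
    · exact Or.inr (Or.inr (Or.inl ⟨by omega, by omega, by omega, by omega⟩))
    · exact Or.inr (Or.inr (Or.inr (Or.inr ⟨rfl, h⟩)))

theorem sc_r0 (hL : Sz H L) : SC H L e x a 0 ↔ (-2 ≤ a ∧ a ≤ H + 1) ∨ a = e := by
  have A := hL.H3
  have A' := hL.H_le
  have S := @not_si H L a 0 (by omega)
  unfold SC SC0
  constructor
  · rintro ((h | h | h | h | h) | h | h)
    all_goals first | exact absurd h S | omega
  · rintro (h | h)
    · exact Or.inl (Or.inl ⟨rfl, h⟩)
    · exact Or.inr (Or.inl ⟨rfl, h⟩)

theorem sc_r1 (hL : Sz H L) : ¬ SC H L e x a 1 := by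
  have A := hL.H3
  have A' := hL.H_le
  have S := @not_si H L a 1 (by omega)
  unfold SC SC0
  rintro ((h | h | h | h | h) | h | h)
  all_goals first | exact absurd h S | omega

theorem sc_r2 (hL : Sz H L) : SC H L e x a 2 ↔ (e < a ∧ a ≤ -3) ∨ a = H + 2 := by
  have A := hL.H3
  have A' := hL.H_le
  unfold SC SC0
  rw [si_two hL]
  constructor
  · rintro ((h | h | h | h | h) | h | h) <;> omega
  · rintro (h | h)
    · exact Or.inl (Or.inr (Or.inl ⟨rfl, h⟩))
    · exact Or.inl (Or.inr (Or.inr (Or.inr (Or.inr h))))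

theorem sc_rL (hL : Sz H L) : ¬ SC H L e x a L := by
  have A := hL.H3
  have A' := hL.H_le
  have S := @not_si H L a L (by omega)
  unfold SC SC0
  rintro ((h | h | h | h | h) | h | h)
  all_goals first | exact absurd h S | omega

theorem sc_rL1 (hL : Sz H L) (hx : x ≤ -12) :
    SC H L e x a (L - 1) ↔ x < a ∧ a ≤ 0 := by
  have A := hL.H3
  have A' := hL.H_le
  have hS : SI H L a (L - 1) ↔ a = 0 := by
    have A8 := rho_top hL (b := L - 1) (by omega) (by omega)
    have A9 : rho H (L - 1) = 3 := by omega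
    unfold SI
    rw [A9]
    constructor
    · rintro ⟨-, -, h | h | h | h | h | h | h⟩ <;> omega
    · intro h
      exact ⟨by omega, by omega, Or.inl ⟨by omega, h⟩⟩
  unfold SC SC0
  rw [hS]
  constructor
  · rintro ((h | h | h | h | h) | h | h) <;> omega
  · intro h
    by_cases h0 : a = 0
    · exact Or.inl (Or.inr (Or.inr (Or.inr (Or.inr h0))))
    · exact Or.inl (Or.inr (Or.inr (Or.inl ⟨rfl, h.1, by omega⟩)))

theorem sc_rL2 (hL : Sz H L) : SC H L e x a (L + 1) ↔ a = 1 ∨ a = x := by
  have A := hL.H3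
  have A' := hL.H_le
  have S := @not_si H L a (L + 1) (by omega)
  unfold SC SC0
  constructor
  · rintro ((h | h | h | h | h) | h | h)
    all_goals first | exact absurd h S | omega
  · rintro (h | h)
    · exact Or.inl (Or.inr (Or.inr (Or.inr (Or.inl ⟨rfl, h⟩))))
    · exact Or.inr (Or.inr ⟨rfl, h⟩)

/-- `ph` in the middle -/
theorem ph_mid (hex : e + 6 ≤ x) (hx : x ≤ -12) (ha : 0 ≤ a) : ph L e x a b = b := by
  unfold ph
  rw [if_neg (by omega), if_neg (by omega)]

open Classical in
theorem plane_chain (hL : Sz H L) (hL12 : 12 ≤ L) (hex : e + 6 ≤ x)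
    (hx : x ≤ -12) (h : KC H L e x a b) :
    (if EK H L e x a b a (b + 1) then 1 else 0) + (if EK H L e x a b a (b - 1) then 1 else 0) +
      ((if EK H L e x a b (a + 1) b then 1 else 0) +
        (if EK H L e x a b (a - 1) b then 1 else 0)) =
    if b = 2 ∧ a = e then 1 else 2 := by
  have A := hL.H3
  have A' := hL.H_le
  have Ae := hL.even
  have hcz := @core_zone H L e x a b hL hL12 hex hx (Or.inl h)
  have hmid : ∀ a' b', 3 ≤ b' → b' ≤ L - 2 → a' < 0 → ¬ EK H L e x a b a' b' := by
    intro a' b' h1 h2 h3 hE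
    have := @core_zone H L e x a' b' hL hL12 hex hx (hE.elim Or.inr fun h => Or.inl h.1)
    omega
  have hb : b = 1 ∨ b = 2 ∨ (3 ≤ b ∧ b ≤ L - 2) ∨ b = L - 1 ∨ b = L := by
    by_contra hb
    exact kc_out hL (b := b) (by omega) h
  rcases hb with hb | hb | hb | hb | hb
  · -- row 1
    subst hb
    rw [kc_r1 hL] at h
    have hp : ph L e x a 1 = 1 := by unfold ph; rw [if_neg (by omega), if_neg (by omega)]
    have hp' : ∀ a', ph L e x a' 1 = 1 := by
      intro a'; unfold ph; rw [if_neg (by omega), if_neg (by omega)]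
    have hs' : ∀ a', sg a' 1 = a' := by intro a'; unfold sg; rw [if_pos (by norm_num)]
    have hf : ¬ ((1 : ℤ) = 2 ∧ a = e) := by omega
    have h3 : ¬ EK H L e x a 1 (a + 1) 1 := by
      unfold EK
      rw [hp, hp', hs', hs']
      rintro (h4 | ⟨h4, h5⟩)
      · exact sc_r1 hL h4
      · omega
    have h4 : EK H L e x a 1 (a - 1) 1 ↔ e < a := by
      unfold EK
      rw [hp, hp', hs', hs', kc_r1 hL]
      constructor
      · rintro (h4 | ⟨h4, h5⟩)
        · exact absurd h4 (sc_r1 hL)
        · omega
      · intro h4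
        exact Or.inr (by omega)
    have h2 : EK H L e x a 1 a (1 - 1) ↔ (-2 ≤ a ∧ a ≤ H + 1) ∨ a = e := by
      rw [show (1 : ℤ) - 1 = 0 by norm_num]
      unfold EK
      rw [sc_r0 hL]
      constructor
      · rintro (h4 | ⟨h4, h5⟩)
        · exact h4
        · exact absurd h4 (kc_out hL (by omega))
      · intro h4
        exact Or.inl h4
    have h1 : EK H L e x a 1 a (1 + 1) ↔ e ≤ a ∧ a ≤ -3 := by
      rw [show (1 : ℤ) + 1 = 2 by norm_num]
      unfold EK
      rw [sc_r2 hL, kc_r2 hL, hp]
      constructor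
      · rintro (h4 | ⟨h4, h5⟩)
        · omega
        · by_cases h6 : a = e
          · omega
          · exfalso
            have : ph L e x a 2 = 2 := by
              unfold ph; rw [if_neg (by omega), if_neg (by omega)]
            omega
      · rintro ⟨h4, h5⟩
        by_cases h6 : a = e
        · right
          refine ⟨Or.inl h6, Or.inl ?_⟩
          unfold ph
          rw [if_pos ⟨rfl, h6⟩]
          norm_num
        · left; left
          omega
    rw [show (1 : ℤ) + 1 = 2 by norm_num] at h1 ⊢
    rw [show (1 : ℤ) - 1 = 0 by norm_num] at h2 ⊢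
    by_cases c1 : a = e
    · exact sum_aux hf (Or.inl ⟨h1.2 (by omega), h2.2 (by omega), h3, fun h => by
        have := h4.1 h
        omega⟩)
    · by_cases c2 : a ≤ -3
      · exact sum_aux hf (Or.inr (Or.inr (Or.inl ⟨h1.2 (by omega), fun h => by
          have := h2.1 h
          omega, h3, h4.2 (by omega)⟩)))
      · exact sum_aux hf (Or.inr (Or.inr (Or.inr (Or.inr (Or.inl ⟨fun h => by
          have := h1.1 h
          omega, h2.2 (by omega), h3, h4.2 (by omega)⟩)))))
  · -- row 2
    subst hb
    rw [kc_r2 hL] at h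
    by_cases hf : a = e
    · have hp : ph L e x a 2 = 0 := by unfold ph; rw [if_pos ⟨rfl, hf⟩]
      have h1 : ¬ EK H L e x a 2 a (2 + 1) := hmid _ _ (by omega) (by omega) (by omega)
      have h2 : ¬ EK H L e x a 2 a (2 - 1) := by
        rw [show (2 : ℤ) - 1 = 1 by norm_num]
        unfold EK
        rw [hp]
        rintro (h4 | ⟨h4, h5⟩)
        · exact sc_r1 hL h4
        · have : ph L e x a 1 = 1 := by unfold ph; rw [if_neg (by omega), if_neg (by omega)]
          omega
      have h3 : EK H L e x a 2 (a + 1) 2 := by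
        left
        rw [sc_r2 hL]
        omega
      have h4 : ¬ EK H L e x a 2 (a - 1) 2 := by
        unfold EK
        rw [sc_r2 hL, kc_r2 hL]
        omega
      rw [if_neg h1, if_neg h2, if_pos h3, if_neg h4, if_pos ⟨rfl, hf⟩]
    · have ha : a = H + 1 := by omega
      have hf' : ¬ ((2 : ℤ) = 2 ∧ a = e) := by omega
      have hp : ph L e x a 2 = 2 := ph_mid hex hx (by omega)
      have h1 : ¬ EK H L e x a 2 a (2 + 1) := by
        rw [show (2 : ℤ) + 1 = 3 by norm_num]
        have h6 := sr_iff hL hex hx (a := a) (b := 3) (by omega) (by omega) (by omega) (by omega)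
        rw [rho_low hL (by omega) (by omega)] at h6
        rintro (h4 | ⟨h4, h5⟩)
        · rw [h6] at h4
          unfold SR at h4
          rcases h4 with h4 | h4 | h4 | h4 | h4 | h4 | h4 <;> omega
        · have : ph L e x a 3 = 3 := ph_mid hex hx (by omega)
          omega
      have h2 : EK H L e x a 2 a (2 - 1) := by
        rw [show (2 : ℤ) - 1 = 1 by norm_num]
        right
        rw [kc_r1 hL, hp]
        refine ⟨by omega, Or.inl ?_⟩
        rw [ph_mid hex hx (by omega)]
        norm_num
      have h3 : EK H L e x a 2 (a + 1) 2 := by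
        left
        rw [sc_r2 hL]
        omega
      have h4 : ¬ EK H L e x a 2 (a - 1) 2 := by
        unfold EK
        rw [sc_r2 hL, kc_r2 hL]
        omega
      exact sum_aux hf' (Or.inr (Or.inr (Or.inr (Or.inl ⟨h1, h2, h3, h4⟩))))
  · -- middle rows
    have ha0 : 0 ≤ a := hcz.2.2.2.2.1 hb.1 hb.2
    have hf : ¬ (b = 2 ∧ a = e) := by omega
    rw [kr_iff hL hex hx (by omega) (by omega) ha0] at h
    have ha : 1 ≤ a := by
      have R := rho_bd hL b
      unfold KR at h
      rcases h with h | h | h | h | h <;> omega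
    have hp : ph L e x a b = b := ph_mid hex hx ha0
    have hb2 : b - 1 = 2 → a ≠ 1 := by
      intro h1 h2
      have R := rho_low hL (b := b) (by omega) (by omega)
      unfold KR at h
      rcases h with h | h | h | h | h <;> omega
    have hpar := rho_par hL b
    have h1 : EK H L e x a b a (b + 1) ↔ SR H L (rho H (b + 1)) a := by
      unfold EK
      rw [sr_iff hL hex hx (by omega) (by omega) (by omega) (by omega), hp,
        ph_mid hex hx (by omega)]
      constructor
      · rintro (h4 | ⟨h4, h5⟩)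
        · exact h4
        · omega
      · exact Or.inl
    have h2 : EK H L e x a b a (b - 1) ↔
        (SR H L (rho H (b - 1)) a ∨ KR H L (rho H (b - 1)) a) := by
      unfold EK
      rw [sr_iff hL hex hx (by omega) (by omega) (by omega) hb2, hp,
        ph_mid hex hx (by omega), kr_iff hL hex hx (by omega) (by omega) (by omega)]
      constructor
      · rintro (h4 | ⟨h4, h5⟩)
        · exact Or.inl h4
        · exact Or.inr h4
      · rintro (h4 | h4)
        · exact Or.inl h4
        · exact Or.inr ⟨h4, Or.inl (by omega)⟩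
    have h3 : EK H L e x a b (a + 1) b ↔
        (SR H L (rho H b) (a + 1) ∨ (KR H L (rho H b) (a + 1) ∧ rho H b % 2 = 0)) := by
      unfold EK
      rw [sr_iff hL hex hx (by omega) (by omega) (by omega) (by omega), hp,
        ph_mid hex hx (by omega), kr_iff hL hex hx (by omega) (by omega) (by omega), hpar]
      have : sg (a + 1) b < sg a b ↔ b % 2 = 0 := by
        unfold sg
        split_ifs <;> omega
      rw [this]
      simp
    have h4 : EK H L e x a b (a - 1) b ↔
        (SR H L (rho H b) (a - 1) ∨ (KR H L (rho H b) (a - 1) ∧ rho H b % 2 = 1)) := by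
      unfold EK
      rw [sr_iff hL hex hx (by omega) (by omega) (by omega) (by omega), hp,
        ph_mid hex hx (by omega), kr_iff hL hex hx (by omega) (by omega) (by omega), hpar]
      have : sg (a - 1) b < sg a b ↔ b % 2 = 1 := by
        unfold sg
        split_ifs <;> omega
      rw [this]
      simp
    have R := row_chain hL (rho_bd hL b).1 (rho_bd hL b).2 (rho_succ hL b) (rho_pred hL b) h
    rw [← h1, ← h2, ← h3, ← h4] at R
    rcases R with R | R | R
    · exact sum_aux hf (Or.inl R)
    · exact sum_aux hf (Or.inr (Or.inr (Or.inr (Or.inl R))))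
    · exact sum_aux hf (Or.inr (Or.inr (Or.inr (Or.inr (Or.inl R)))))
  · -- row L - 1
    subst hb
    have hf : ¬ (L - 1 = 2 ∧ a = e) := by omega
    rw [kc_rL1 hL] at h
    rcases h with ha | ha
    · have hp : ph L e x a (L - 1) = L - 1 := ph_mid hex hx (by omega)
      have h1 : ¬ EK H L e x a (L - 1) a (L - 1 + 1) := by
        rw [show L - 1 + 1 = L by ring]
        rintro (h4 | ⟨h4, h5⟩)
        · exact sc_rL hL h4
        · have : ph L e x a L = L := ph_mid hex hx (by omega)
          omega
      have h2 : EK H L e x a (L - 1) a (L - 1 - 1) := by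
        right
        rw [kr_iff hL hex hx (by omega) (by omega) (by omega), hp, ph_mid hex hx (by omega),
          rho_top hL (by omega) (by omega)]
        refine ⟨Or.inl ⟨by omega, ha⟩, Or.inl (by omega)⟩
      have h3 : ¬ EK H L e x a (L - 1) (a + 1) (L - 1) := by
        rintro (h4 | ⟨h4, h5⟩)
        · rw [sc_rL1 hL hx] at h4
          omega
        · rw [kc_rL1 hL] at h4
          omega
      have h4 : EK H L e x a (L - 1) (a - 1) (L - 1) := by
        left
        rw [sc_rL1 hL hx]
        omega
      exact sum_aux hf (Or.inr (Or.inr (Or.inr (Or.inr (Or.inl ⟨h1, h2, h3, h4⟩)))))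
    · have hp : ph L e x a (L - 1) = L + 1 := by
        unfold ph
        rw [if_neg (by omega), if_pos ⟨rfl, ha⟩]
      have h1 : EK H L e x a (L - 1) a (L - 1 + 1) := by
        rw [show L - 1 + 1 = L by ring]
        right
        rw [kc_rL hL, hp]
        refine ⟨by omega, Or.inl ?_⟩
        unfold ph
        rw [if_neg (by omega), if_neg (by omega)]
        omega
      have h2 : ¬ EK H L e x a (L - 1) a (L - 1 - 1) :=
        hmid _ _ (by omega) (by omega) (by omega)
      have h3 : EK H L e x a (L - 1) (a + 1) (L - 1) := by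
        left
        rw [sc_rL1 hL hx]
        omega
      have h4 : ¬ EK H L e x a (L - 1) (a - 1) (L - 1) := by
        rintro (h4 | ⟨h4, h5⟩)
        · rw [sc_rL1 hL hx] at h4
          omega
        · rw [kc_rL1 hL] at h4
          omega
      exact sum_aux hf (Or.inr (Or.inl ⟨h1, h2, h3, h4⟩))
  · -- row L
    subst hb
    have hf : ¬ (b = 2 ∧ a = e) := by omega
    rw [kc_rL hL] at h
    have hp : ∀ a', ph b e x a' b = b := by
      intro a'; unfold ph; rw [if_neg (by omega), if_neg (by omega)]
    have hs' : ∀ a', sg a' b = -a' := by intro a'; unfold sg; rw [if_neg (by omega)]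
    have h1 : EK H b e x a b a (b + 1) ↔ a = 1 ∨ a = x := by
      unfold EK
      rw [sc_rL2 hL]
      constructor
      · rintro (h4 | ⟨h4, h5⟩)
        · exact h4
        · exact absurd h4 (kc_out hL (by omega))
      · exact Or.inl
    have h2 : EK H b e x a b a (b - 1) ↔ x < a := by
      unfold EK
      rw [sc_rL1 hL hx, kc_rL1 hL, hp]
      constructor
      · rintro (h4 | ⟨h4, h5⟩)
        · omega
        · by_cases h6 : a = x
          · exfalso
            have : ph b e x a (b - 1) = b + 1 := by
              unfold ph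
              rw [if_neg (by omega), if_pos ⟨rfl, h6⟩]
            omega
          · omega
      · intro h4
        by_cases h6 : a = 1
        · right
          refine ⟨Or.inl h6, Or.inl ?_⟩
          rw [ph_mid hex hx (by omega)]
          omega
        · left; omega
    have h3 : EK H b e x a b (a + 1) b ↔ a ≤ 0 := by
      unfold EK
      rw [hp, hp, hs', hs', kc_rL hL]
      constructor
      · rintro (h4 | ⟨h4, h5⟩)
        · exact absurd h4 (sc_rL hL)
        · omega
      · intro h4
        exact Or.inr (by omega)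
    have h4 : ¬ EK H b e x a b (a - 1) b := by
      unfold EK
      rw [hp, hp, hs', hs', kc_rL hL]
      rintro (h4 | ⟨h4, h5⟩)
      · exact sc_rL hL h4
      · omega
    by_cases c1 : a = 1
    · exact sum_aux hf (Or.inl ⟨h1.2 (by omega), h2.2 (by omega), fun h => by
        have := h3.1 h
        omega, h4⟩)
    · by_cases c2 : a = x
      · exact sum_aux hf (Or.inr (Or.inl ⟨h1.2 (by omega), fun h => by
          have := h2.1 h
          omega, h3.2 (by omega), h4⟩))
      · exact sum_aux hf (Or.inr (Or.inr (Or.inr (Or.inl ⟨fun h => by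
          have := h1.1 h
          omega, h2.2 (by omega), h3.2 (by omega), h4⟩))))

end Pool.Agent.Lib.MP_1a3405_co.BT
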