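import Mathlib
import Pool.Agent.Lib.MP_1a3405_co.BT.Defs
import Pool.Agent.Lib.MP_1a3405_co.BT.CStar
import Pool.Agent.Lib.MP_1a3405_co.BT.LSeeds
import Pool.Agent.Lib.MP_1a3405_co.BT.LKey

/-!
A core chain cell sees exactly `r` seeds and earlier chain cells.

* Core cell `p = (a, b; v g)`: the core gives `r`, or `r - 1` for `(e g, 2)` (`core_star`). The
  link cells near `p`: for `p = (e g, 2)` the cell `(e g, 3)` above, which is the last cell of
  the link `g - 1` or the start cell (`lc_three`), earlier; for `p = (x g, L-1)` the cell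
  `(x g, L-2)` below, a chain cell of the link `g` (or of the final wire), later. No link seed
  is next to `p`: at height `3` they are at `(e h + 1; v h)` and `(e h; v h + e_i)`
  (`ls_three`; if `v h + e_i = v g` then `e h < x h ≤ e g` by `nb_order`, and `(e h, 2)` is not
  a chain cell of the fibre `v g`), at height `L - 2` similarly (`ls_top`); for the other
  heights use `l_zone` and `core_zone`.
-/

namespace Pool.Agent.Lib.MP_1a3405_co.BT

open Pool.Agent.Lib.MP_1a3405_co Pool.Agent.Lib.MP_1a3405_co.Ord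
open Pool.Agent.Lib.MP_1a3405_co.BP

namespace Plan

variable {D r : ℕ} (P : Plan D r)

theorem gsa_core_l {p : Fin (D + 2) → ℤ} (hc : P.CC p ∨ P.CS p)
    (hl : P.LC p ∨ P.LS p ∨ P.FP p) : False := by
  obtain ⟨h1, h2, h3, h4⟩ := P.l_zone p hl
  rcases hc with ⟨g, hg, hf, hk⟩ | ⟨g, hg, hf, hk⟩ | ⟨hF, hm⟩
  · have := (core_zone P.hL P.hL12 (P.ex g hg) (P.x_le g hg) (Or.inl hk)).2.2.2.2.1 h1 h2
    omega
  · have := (core_zone P.hL P.hL12 (P.ex g hg) (P.x_le g hg) (Or.inr hk)).2.2.2.2.1 h1 h2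
    omega
  · have hx0 := P.xF_le 0 P.M_pos
    have hx1 := P.x_le 0 P.M_pos
    have := (face_zone P.hL P.hL12 P.eF_xF (by omega) hm).2.2.2.2.1 h1 h2
    omega

theorem c_not_s {p : Fin (D + 2) → ℤ} (h : P.C p) : ¬ P.S p := by
  rintro (hs | hs)
  · rcases h with h | h
    · exact P.cc_not_cs h hs
    · exact P.gsa_core_l (Or.inr hs) (Or.inl h)
  · rcases h with h | h
    · exact P.gsa_core_l (Or.inl h) (Or.inr (Or.inl hs))
    · exact P.lc_not_ls h hs

theorem fp_not_s {p : Fin (D + 2) → ℤ} (h : P.FP p) : ¬ P.S p := by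
  rintro (hs | hs)
  · exact P.gsa_core_l (Or.inr hs) (Or.inr (Or.inr h))
  · exact P.fp_not_ls h hs

/-- no link cell in the zone near a core cell, except at the two ends -/
theorem gsa_where {g : ℕ} (hg : g < P.M) {a b : ℤ} (h : KC P.H P.L (P.e g) (P.x g) a b)
    (δ : Fin (D + 2) × Bool) (hl : P.LC (nb (pt a b (P.v g)) δ) ∨ P.LS (nb (pt a b (P.v g)) δ)) :
    (b = 2 ∧ a = P.e g ∧ δ = (0, true)) ∨ (b = P.L - 1 ∧ a = P.x g ∧ δ = (0, false)) := by
  have hl' : P.LC (nb (pt a b (P.v g)) δ) ∨ P.LS (nb (pt a b (P.v g)) δ) ∨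
      P.FP (nb (pt a b (P.v g)) δ) := by
    rcases hl with hl | hl
    · exact Or.inl hl
    · exact Or.inr (Or.inl hl)
  obtain ⟨h1, h2, h3, h4⟩ := P.l_zone _ hl'
  have hL12 := P.hL12
  have hex := P.ex g hg
  have hx := P.x_le g hg
  have hH := P.hL.H3
  replace h := kc_coarse P.hL h
  rcases dir_cases δ with ⟨s, rfl⟩ | ⟨s, rfl⟩ | ⟨i, s, rfl⟩
  · rw [nb_pt_b] at h1 h2 h3 h4
    simp only [pt_zero, pt_one] at h1 h2 h3 h4
    cases s
    · right
      simp only [Bool.false_eq_true, if_false] at h1 h2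
      refine ⟨?_, ?_, rfl⟩ <;> omega
    · left
      simp only [if_true] at h1 h2
      refine ⟨?_, ?_, rfl⟩ <;> omega
  · exfalso
    rw [nb_pt_a] at h1 h2 h3 h4
    simp only [pt_zero, pt_one] at h1 h2 h3 h4
    cases s
    · simp only [Bool.false_eq_true, if_false] at h3 h4
      omega
    · simp only [if_true] at h3 h4
      omega
  · exfalso
    rw [nb_pt_x] at h1 h2 h3 h4
    simp only [pt_zero, pt_one] at h1 h2 h3 h4
    omega

/-- no link seed is next to a core chain cell -/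
theorem gsa_no_ls {g : ℕ} (hg : g < P.M) {a b : ℤ} (h : KC P.H P.L (P.e g) (P.x g) a b)
    (δ : Fin (D + 2) × Bool) : ¬ P.LS (nb (pt a b (P.v g)) δ) := by
  intro hl
  have hex := P.ex g hg
  rcases P.gsa_where hg h δ (Or.inr hl) with ⟨rfl, rfl, rfl⟩ | ⟨rfl, rfl, rfl⟩
  · rw [nb_pt_b] at hl
    have e3 : (2 : ℤ) + (if true = true then 1 else -1) = 3 := by norm_num
    rw [e3] at hl
    rcases P.ls_three _ _ hl with ⟨k, hk, hv, he⟩ | ⟨k, hk, i, -, hv, he⟩ | he
    · have := P.v_inj g hg k hk hv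
      subst this
      omega
    · obtain ⟨-, h2⟩ := P.nb_order hk hg hv
      have := P.ex k hk
      omega
    · have := P.eF_le g hg
      omega
  · rw [nb_pt_b] at hl
    have e3 : P.L - 1 + (if false = true then 1 else -1) = P.L - 2 := by
      simp only [Bool.false_eq_true, if_false]
      ring
    rw [e3] at hl
    rcases P.ls_top _ _ hl with ⟨k, hk, hv, he⟩ | ⟨k, hk, i, -, hv, he⟩
    · have := P.v_inj g hg k hk hv
      subst this
      omega
    · obtain ⟨-, h2⟩ := P.nb_order hk hg hv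
      omega

/-- the earlier link cells next to a core chain cell -/
theorem gsa_lc {g : ℕ} (hg : g < P.M) {a b : ℤ} (h : KC P.H P.L (P.e g) (P.x g) a b)
    (δ : Fin (D + 2) × Bool) :
    (P.LC (nb (pt a b (P.v g)) δ) ∧ P.bef (nb (pt a b (P.v g)) δ) (pt a b (P.v g))) ↔
      ((b = 2 ∧ a = P.e g) ∧ δ = (0, true)) := by
  have hL12 := P.hL12
  constructor
  · rintro ⟨hl, hb⟩
    rcases P.gsa_where hg h δ (Or.inl hl) with ⟨h1, h2, h3⟩ | ⟨rfl, rfl, rfl⟩
    · exact ⟨⟨h1, h2⟩, h3⟩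
    · exfalso
      have hkg := P.k_core hg h
      rw [nb_pt_b] at hl hb
      have e3 : P.L - 1 + (if false = true then 1 else -1) = P.L - 2 := by
        simp only [Bool.false_eq_true, if_false]
        ring
      rw [e3] at hl hb
      obtain ⟨k, hk, hv, -⟩ := (P.lc_top _ _).1 hl
      have := P.v_inj g hg k (by omega) hv
      subst this
      have hW : WC 3 (P.L - 2) (P.X g) (pt (P.x g) (P.L - 2) (P.v g)) := by
        refine ⟨?_, ?_, Or.inl ?_⟩
        · rw [pt_zero]
          omega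
        · rw [pt_zero]
        · rw [pt_zero, tail_pt, P.X_hi g hg]
      have hkw := P.k_wire hk hW
      unfold bef at hb
      rw [hkw.1, hkg.1] at hb
      rcases hb with hb | ⟨hb, -⟩
      · omega
      · omega
  · rintro ⟨⟨rfl, rfl⟩, rfl⟩
    have hkg := P.k_core hg h
    rw [nb_pt_b]
    have e3 : (2 : ℤ) + (if true = true then 1 else -1) = 3 := by norm_num
    rw [e3]
    have hl : P.LC (pt (P.e g) 3 (P.v g)) := (P.lc_three _ _).2 ⟨g, hg, rfl, rfl⟩
    refine ⟨hl, Or.inl ?_⟩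
    rw [hkg.1]
    rcases Nat.eq_zero_or_pos g with h0 | h0
    · subst h0
      have := P.k_start.1
      unfold start at this
      rw [this]
      norm_num
    · obtain ⟨k, rfl⟩ : ∃ k, g = k + 1 := ⟨g - 1, by omega⟩
      have hW : WC 3 (P.L - 2) (P.X k) (pt (P.e (k + 1)) 3 (P.v (k + 1))) := by
        refine ⟨?_, ?_, Or.inl ?_⟩
        · rw [pt_zero]
        · rw [pt_zero]
          omega
        · rw [pt_zero, tail_pt, P.X_lo k hg]
      rw [(P.k_wire hg hW).1]
      push_cast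
      omega

theorem star_core {g : ℕ} (hg : g < P.M) {a b : ℤ} (h : KC P.H P.L (P.e g) (P.x g) a b) :
    cz (fun q => P.S q ∨ (P.C q ∧ P.bef q (pt a b (P.v g)))) (pt a b (P.v g)) = r := by
  classical
  have e1 : cz (fun q => P.S q ∨ (P.C q ∧ P.bef q (pt a b (P.v g)))) (pt a b (P.v g)) =
      cz (fun q => (P.CS q ∨ (P.CC q ∧ P.bef q (pt a b (P.v g)))) ∨
        (P.LC q ∧ P.bef q (pt a b (P.v g)))) (pt a b (P.v g)) := by
    apply cz_congr
    intro δ
    have hls := P.gsa_no_ls hg h δ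
    unfold S C
    tauto
  have e2 : cz (fun q => (P.CS q ∨ (P.CC q ∧ P.bef q (pt a b (P.v g)))) ∨
        (P.LC q ∧ P.bef q (pt a b (P.v g)))) (pt a b (P.v g)) =
      cz (fun q => P.CS q ∨ (P.CC q ∧ P.bef q (pt a b (P.v g)))) (pt a b (P.v g)) +
      cz (fun q => P.LC q ∧ P.bef q (pt a b (P.v g))) (pt a b (P.v g)) := by
    apply cz_or_of_disjoint
    rintro δ (hq | ⟨hq, -⟩) ⟨hl, -⟩
    · exact P.gsa_core_l (Or.inr hq) (Or.inl hl)
    · exact P.gsa_core_l (Or.inl hq) (Or.inl hl)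
  have e3 : cz (fun q => P.LC q ∧ P.bef q (pt a b (P.v g))) (pt a b (P.v g)) =
      if b = 2 ∧ a = P.e g then 1 else 0 := by
    split_ifs with hc
    · rw [cz_eq_of_iff {((0 : Fin (D + 2)), true)} (fun δ => ?_), Finset.card_singleton]
      rw [P.gsa_lc hg h δ, Finset.mem_singleton]
      exact ⟨fun h => h.2, fun h => ⟨hc, h⟩⟩
    · apply cz_eq_zero
      intro δ hq
      exact hc ((P.gsa_lc hg h δ).1 hq).1
  rw [e1, e2, e3, P.core_star hg h]
  have hr := P.hr
  split_ifs <;> omega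

end Plan

end Pool.Agent.Lib.MP_1a3405_co.BT
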