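import Mathlib
import Pool.Agent.Lib.MP_1a3405_co.BT.Defs
import Pool.Agent.Lib.MP_1a3405_co.BT.CSideA
import Pool.Agent.Lib.MP_1a3405_co.BT.GStarB
import Pool.Agent.Lib.MP_1a3405_co.BP.WPred

/-!
Percolation: a set `U` of points which are not initially infected, each of which sees fewer than
`r` points outside of `U`, is empty.

Step 1: no chain cell is in `U` (induction on `τ`, `star_start`, `star`; all cells are in the
box by `box_c`, `box_s`). Step 2: no cell of the final wire is in `U` (induction along the wire,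
`wire_pred`, `fp_seeds`; the first one is below the last chain cell). Step 3: the point
`z = (8; 1; 2, …, 2, 1, …, 1)` (`r - 1` twos) is not in `U`: it sees the last cell
`(8; 2; 2, …, 2, 1, …, 1)` of the final wire (`X_last`) and `r - 1` skeleton points. Step 4:
`skel_perc` with `A` = the first `r - 1` fibre coordinates, `c = 8`.
-/

namespace Pool.Agent.Lib.MP_1a3405_co.BT

open Pool.Agent.Lib.MP_1a3405_co Pool.Agent.Lib.MP_1a3405_co.Ord
open Pool.Agent.Lib.MP_1a3405_co.BP

namespace Plan

variable {D r : ℕ} (P : Plan D r) {τ : (Fin (D + 2) → ℤ) → ℤ}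

/-- seeds are in the box -/
theorem inBox_s {p : Fin (D + 2) → ℤ} (h : P.S p) : InBox P.n (p + P.w) := by
  intro i
  rcases P.box_s h with h1 | ⟨-, -, h1⟩
  · have := h1 i; omega
  · have := h1 i; omega

theorem inBox_c {p : Fin (D + 2) → ℤ} (h : P.C p) : InBox P.n (p + P.w) := by
  intro i
  have := P.box_c h i
  omega

theorem inBox_f {p : Fin (D + 2) → ℤ} (h : P.FP p) : InBox P.n (p + P.w) := by
  intro i
  have := (P.box_f h).2.2 i
  omega

/-- seeds are not in `U` -/
theorem s_not_u (U : (Fin (D + 2) → ℤ) → Prop)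
    (hU : ∀ p, U p → InBox P.n p ∧ ¬ (P.side τ).T p ∧ cnt P.n (fun q => ¬ U q) p < r)
    {p : Fin (D + 2) → ℤ} (h : P.S p) : ¬ U (p + P.w) := by
  intro hu
  apply (hU _ hu).2.1
  right
  rw [P.add_sub_w]
  exact h

/-- a lower bound for the number of infected neighbours -/
theorem le_cnt (U : (Fin (D + 2) → ℤ) → Prop) (Q : (Fin (D + 2) → ℤ) → Prop)
    {p : Fin (D + 2) → ℤ}
    (h : ∀ δ, Q (nb p δ) → InBox P.n (nb p δ + P.w) ∧ ¬ U (nb p δ + P.w)) :
    cz Q p ≤ cnt P.n (fun q => ¬ U q) (p + P.w) := by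
  classical
  rw [cz_eq_card, cnt_eq_card]
  apply Finset.card_le_card
  intro δ hδ
  simp only [Finset.mem_filter, Finset.mem_univ, true_and] at hδ ⊢
  rw [nb_add]
  exact h δ hδ

theorem perc_chain (hτ : P.IsRank τ) (U : (Fin (D + 2) → ℤ) → Prop)
    (hU : ∀ p, U p → InBox P.n p ∧ ¬ (P.side τ).T p ∧ cnt P.n (fun q => ¬ U q) p < r)
    {p : Fin (D + 2) → ℤ} (hp : P.C p) : ¬ U (p + P.w) := by
  have key : ∀ N : ℕ, ∀ p, P.C p → τ p ≤ N → ¬ U (p + P.w) := by
    intro N
    induction N with
    | zero =>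
      intro p hp hN
      have := (hτ.range p hp).1
      push_cast at hN
      omega
    | succ N ih =>
      intro p hp hN hu
      have h3 := (hU _ hu).2.2
      by_cases hs : p = P.start
      · have h4 : cz P.S p ≤ cnt P.n (fun q => ¬ U q) (p + P.w) :=
          P.le_cnt U P.S (fun δ h => ⟨P.inBox_s h, P.s_not_u U hU h⟩)
        rw [hs] at h4 h3
        rw [P.star_start] at h4
        omega
      · have h4 : cz (fun q => P.S q ∨ (P.C q ∧ P.bef q p)) p ≤
            cnt P.n (fun q => ¬ U q) (p + P.w) := by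
          apply P.le_cnt U
          rintro δ (h | ⟨h, hb⟩)
          · exact ⟨P.inBox_s h, P.s_not_u U hU h⟩
          · refine ⟨P.inBox_c h, ih _ h ?_⟩
            have := (hτ.lt p (nb p δ) hp h).1 hb
            push_cast at hN
            omega
        rw [P.star hp hs] at h4
        omega
  obtain ⟨N, hN⟩ := Int.eq_ofNat_of_zero_le (le_trans zero_le_one (hτ.range p hp).1)
  exact key N p hp hN.le

/-- a point of the final wire with an infected neighbour which is not a seed -/
theorem perc_step (U : (Fin (D + 2) → ℤ) → Prop)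
    (hU : ∀ p, U p → InBox P.n p ∧ ¬ (P.side τ).T p ∧ cnt P.n (fun q => ¬ U q) p < r)
    {p : Fin (D + 2) → ℤ} (hp : P.FP p) (δ : Fin (D + 2) × Bool)
    (h1 : InBox P.n (nb p δ + P.w)) (h2 : ¬ U (nb p δ + P.w)) (h3 : ¬ P.S (nb p δ)) :
    ¬ U (p + P.w) := by
  intro hu
  have h4 := (hU _ hu).2.2
  have h5 : cz (fun q => P.LS q ∨ q = nb p δ) p ≤ cnt P.n (fun q => ¬ U q) (p + P.w) := by
    apply P.le_cnt U
    rintro ε (h | h)
    · exact ⟨P.inBox_s (Or.inr h), P.s_not_u U hU (Or.inr h)⟩
    · rw [h]; exact ⟨h1, h2⟩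
  rw [cz_or_of_disjoint (Q := P.LS) (Q' := fun q => q = nb p δ)
    (fun ε h h' => h3 (by rw [← h']; exact Or.inr h)), P.fp_seeds hp] at h5
  have h6 : 1 ≤ cz (fun q => q = nb p δ) p := cz_pos δ rfl
  have := P.hr
  omega

theorem perc_final (hτ : P.IsRank τ) (U : (Fin (D + 2) → ℤ) → Prop)
    (hU : ∀ p, U p → InBox P.n p ∧ ¬ (P.side τ).T p ∧ cnt P.n (fun q => ¬ U q) p < r)
    {p : Fin (D + 2) → ℤ} (hp : P.FP p) : ¬ U (p + P.w) := by
  have hM := P.M_pos
  have hg : P.M - 1 < P.M := by omega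
  have hw := P.wire (P.M - 1) hg
  obtain ⟨hf1, hf2⟩ := wire_first hw
  have hfirst : (Fin.cons (P.L - 2) (P.X (P.M - 1) (P.L - 2)) : Fin (D + 2) → ℤ) =
      pt (P.x (P.M - 1)) (P.L - 2) (P.v (P.M - 1)) := by
    rw [P.X_hi _ hg]; rfl
  have key : ∀ N : ℕ, ∀ p, P.FP p →
      wkey (P.X (P.M - 1)) p - wkey (P.X (P.M - 1)) (Fin.cons (P.L - 2) (P.X (P.M - 1) (P.L - 2)))
        ≤ N → ¬ U (p + P.w) := by
    intro N
    induction N with
    | zero =>
      intro p hp hN
      have h1 := hf2 p hp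
      have h2 : p = Fin.cons (P.L - 2) (P.X (P.M - 1) (P.L - 2)) := by
        apply wire_key_inj hw hp hf1
        push_cast at hN
        omega
      rw [hfirst] at h2
      have h3 : nb p (0, true) = P.last := by
        rw [h2, nb_pt_b, Plan.last]
        simp only [if_true]
        congr 1
        omega
      apply P.perc_step U hU hp (0, true)
      · rw [h3]; exact P.inBox_c P.c_last
      · rw [h3]; exact P.perc_chain hτ U hU P.c_last
      · rw [h3]; exact P.c_not_s P.c_last
    | succ N ih =>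
      intro p hp hN
      by_cases hne : p = Fin.cons (P.L - 2) (P.X (P.M - 1) (P.L - 2))
      · apply ih p hp
        rw [← hne]
        omega
      · obtain ⟨-, δ, h1, h2, -⟩ := wire_pred hw hp hne
        apply P.perc_step U hU hp δ
        · exact P.inBox_f h1
        · apply ih _ h1
          push_cast at hN
          omega
        · exact P.fp_not_s h1
  have h1 := hf2 p hp
  obtain ⟨N, hN⟩ := Int.eq_ofNat_of_zero_le (sub_nonneg.2 h1)
  exact key N p hp hN.le

end Plan

end Pool.Agent.Lib.MP_1a3405_co.BT
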