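import Mathlib
import Pool.Agent.Lib.MP_1a3405_co.BT.PRows

/-!
Planar lemmas on the cells outside of a fibre's set `Mem H L e x = KC ∪ SC`.
-/

namespace Pool.Agent.Lib.MP_1a3405_co.BT

open Classical in
/-- the number of neighbours in the fibre -/
noncomputable def pin (Q : ℤ → ℤ → Prop) (a b : ℤ) : ℕ :=
  (if Q a (b + 1) then 1 else 0) + (if Q a (b - 1) then 1 else 0) +
    ((if Q (a + 1) b then 1 else 0) + (if Q (a - 1) b then 1 else 0))

variable {H L e x a b : ℤ}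

theorem rm_gap (hL : Sz H L) {s : ℤ} (hs : s ≤ 2 * H + 8) (h : ¬ RM H L s a)
    (h1 : RM H L s (a + 1)) (h2 : RM H L s (a - 1)) : False := by
  have A := hL.H3
  have A' := hL.H_le
  unfold RM at h h1 h2
  rcases h1 with h1 | h1 | h1 | h1 | h1 | h1 | h1 <;> omega

/-- two horizontal neighbours of an outside cell are not both inside -/
theorem mem_gap (hL : Sz H L) (_hL12 : 12 ≤ L) (hex : e + 6 ≤ x) (hx : x ≤ -12)
    (h : ¬ Mem H L e x a b) (h1 : Mem H L e x (a + 1) b) (h2 : Mem H L e x (a - 1) b) :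
    False := by
  have A := hL.H3
  obtain ⟨-, hb0, hbL, -, -⟩ := mem_coarse hL hex hx h1
  have hcases : b = 0 ∨ b = 1 ∨ b = 2 ∨ (3 ≤ b ∧ b ≤ L - 2) ∨ b = L - 1 ∨ b = L ∨ b = L + 1 := by
    omega
  rcases hcases with hb | hb | hb | hb | hb | hb | hb
  · subst hb
    rw [mem_row0 hL] at h h1 h2
    omega
  · subst hb
    rw [mem_row1 hL] at h h1 h2
    omega
  · subst hb
    rw [mem_row2 hL hex hx] at h h1 h2
    omega
  · rw [mem_rowM hL hb.1 hb.2] at h h1 h2
    exact rm_gap hL (rho_bd hL b).2 h h1 h2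
  · rw [mem_rowL1 hL hx hb] at h h1 h2
    omega
  · rw [mem_rowL hL hb] at h h1 h2
    omega
  · rw [mem_rowL2 hL hb] at h h1 h2
    omega

/-- an outside cell of a middle row with both vertical neighbours inside has no horizontal
neighbour inside -/
theorem rm_vert (hL : Sz H L) {s s' s'' : ℤ} (hs1 : 1 ≤ s) (hs : s ≤ 2 * H + 8)
    (hs' : (s = 2 * H + 8 ∧ s' = 1) ∨ (s < 2 * H + 8 ∧ s' = s + 1))
    (hs'' : (s = 1 ∧ s'' = 2 * H + 8) ∨ (1 < s ∧ s'' = s - 1))
    (h : ¬ RM H L s a) (h1 : RM H L s' a) (h2 : RM H L s'' a)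
    (h3 : RM H L s (a + 1) ∨ RM H L s (a - 1)) : False := by
  have A := hL.H3
  have A' := hL.H_le
  have hc : s = 1 ∨ s = 2 ∨ s = 3 ∨ s = 4 ∨ s = 5 ∨ s = 6 ∨ s = 7 ∨ s = 8 ∨ s = 9 ∨
    (10 ≤ s ∧ s < 2 * H + 8) ∨ s = 2 * H + 8 := by omega
  unfold RM at h h1 h2 h3
  rcases hc with hc | hc | hc | hc | hc | hc | hc | hc | hc | hc | hc
  · subst hc
    obtain rfl : s' = 2 := by omega
    rcases h1 with h1 | h1 | h1 | h1 | h1 | h1 | h1 <;>
      rcases h3 with (h3 | h3 | h3 | h3 | h3 | h3 | h3) | (h3 | h3 | h3 | h3 | h3 | h3 | h3) <;>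
      first | (exfalso; omega) | skip
  · subst hc
    rcases h1 with h1 | h1 | h1 | h1 | h1 | h1 | h1 <;>
      rcases h3 with (h3 | h3 | h3 | h3 | h3 | h3 | h3) | (h3 | h3 | h3 | h3 | h3 | h3 | h3) <;>
      first | (exfalso; omega) | skip
  · subst hc
    rcases h1 with h1 | h1 | h1 | h1 | h1 | h1 | h1 <;>
      rcases h3 with (h3 | h3 | h3 | h3 | h3 | h3 | h3) | (h3 | h3 | h3 | h3 | h3 | h3 | h3) <;>
      first | (exfalso; omega) | skip
  · subst hc
    rcases h1 with h1 | h1 | h1 | h1 | h1 | h1 | h1 <;>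
      rcases h3 with (h3 | h3 | h3 | h3 | h3 | h3 | h3) | (h3 | h3 | h3 | h3 | h3 | h3 | h3) <;>
      first | (exfalso; omega) | skip
  · subst hc
    rcases h1 with h1 | h1 | h1 | h1 | h1 | h1 | h1 <;>
      rcases h3 with (h3 | h3 | h3 | h3 | h3 | h3 | h3) | (h3 | h3 | h3 | h3 | h3 | h3 | h3) <;>
      first | (exfalso; omega) | skip
  · subst hc
    rcases h1 with h1 | h1 | h1 | h1 | h1 | h1 | h1 <;>
      rcases h3 with (h3 | h3 | h3 | h3 | h3 | h3 | h3) | (h3 | h3 | h3 | h3 | h3 | h3 | h3) <;>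
      first | (exfalso; omega) | skip
  · subst hc
    rcases h1 with h1 | h1 | h1 | h1 | h1 | h1 | h1 <;>
      rcases h3 with (h3 | h3 | h3 | h3 | h3 | h3 | h3) | (h3 | h3 | h3 | h3 | h3 | h3 | h3) <;>
      first | (exfalso; omega) | skip
  · subst hc
    rcases h1 with h1 | h1 | h1 | h1 | h1 | h1 | h1 <;>
      rcases h3 with (h3 | h3 | h3 | h3 | h3 | h3 | h3) | (h3 | h3 | h3 | h3 | h3 | h3 | h3) <;>
      first | (exfalso; omega) | skip
  · subst hc
    rcases h1 with h1 | h1 | h1 | h1 | h1 | h1 | h1 <;>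
      rcases h3 with (h3 | h3 | h3 | h3 | h3 | h3 | h3) | (h3 | h3 | h3 | h3 | h3 | h3 | h3) <;>
      first | (exfalso; omega) | skip
  · rcases h1 with h1 | h1 | h1 | h1 | h1 | h1 | h1 <;>
      rcases h3 with (h3 | h3 | h3 | h3 | h3 | h3 | h3) | (h3 | h3 | h3 | h3 | h3 | h3 | h3) <;>
      first | (exfalso; omega) | skip
  · subst hc
    rcases h1 with h1 | h1 | h1 | h1 | h1 | h1 | h1 <;>
      rcases h3 with (h3 | h3 | h3 | h3 | h3 | h3 | h3) | (h3 | h3 | h3 | h3 | h3 | h3 | h3) <;>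
      first | (exfalso; omega) | skip

/-- an outside cell with both vertical neighbours inside has no horizontal neighbour inside -/
theorem mem_vert (hL : Sz H L) (_hL12 : 12 ≤ L) (hex : e + 6 ≤ x) (hx : x ≤ -12)
    (h : ¬ Mem H L e x a b) (h1 : Mem H L e x a (b + 1)) (h2 : Mem H L e x a (b - 1))
    (h3 : Mem H L e x (a + 1) b ∨ Mem H L e x (a - 1) b) : False := by
  have A := hL.H3
  have A' := hL.H_le
  obtain ⟨-, -, hbL, -, -⟩ := mem_coarse hL hex hx h1
  obtain ⟨-, hb0, -, -, -⟩ := mem_coarse hL hex hx h2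
  have hcases : b = 1 ∨ b = 2 ∨ b = 3 ∨ (4 ≤ b ∧ b ≤ L - 3) ∨ b = L - 2 ∨ b = L - 1 ∨ b = L := by
    omega
  rcases hcases with hb | hb | hb | hb | hb | hb | hb
  · subst hb
    rw [show (1 : ℤ) + 1 = 2 by norm_num, mem_row2 hL hex hx] at h1
    rw [show (1 : ℤ) - 1 = 0 by norm_num, mem_row0 hL] at h2
    rw [mem_row1 hL] at h
    omega
  · subst hb
    rw [show (2 : ℤ) + 1 = 3 by norm_num, mem_rowM hL (by omega) (by omega),
      rho_low hL (by omega) (by omega)] at h1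
    rw [show (2 : ℤ) - 1 = 1 by norm_num, mem_row1 hL] at h2
    rw [mem_row2 hL hex hx] at h
    unfold RM at h1
    rcases h1 with h1 | h1 | h1 | h1 | h1 | h1 | h1 <;> omega
  · subst hb
    rw [show (3 : ℤ) + 1 = 4 by norm_num, mem_rowM hL (by omega) (by omega),
      rho_low hL (by omega) (by omega)] at h1
    rw [show (3 : ℤ) - 1 = 2 by norm_num, mem_row2 hL hex hx] at h2
    rw [mem_rowM hL (by omega) (by omega), rho_low hL (by omega) (by omega)] at h
    unfold RM at h1 h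
    rcases h1 with h1 | h1 | h1 | h1 | h1 | h1 | h1 <;> omega
  · rw [mem_rowM hL (by omega) (by omega)] at h h1 h2 h3
    rw [mem_rowM hL (by omega) (by omega)] at h3
    exact rm_vert hL (rho_bd hL b).1 (rho_bd hL b).2 (rho_succ hL b) (rho_pred hL b) h h1 h2 h3
  · rw [mem_rowL1 hL hx (by omega)] at h1
    rw [mem_rowM hL (by omega) (by omega), rho_top hL (by omega) (by omega)] at h h2
    subst hb
    unfold RM at h h2
    rcases h2 with h2 | h2 | h2 | h2 | h2 | h2 | h2 <;> omega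
  · rw [mem_rowL hL (by omega)] at h1
    rw [mem_rowM hL (by omega) (by omega), rho_top hL (by omega) (by omega)] at h2
    rw [mem_rowL1 hL hx (by omega)] at h
    subst hb
    unfold RM at h2
    rcases h2 with h2 | h2 | h2 | h2 | h2 | h2 | h2 <;> omega
  · rw [mem_rowL2 hL (by omega)] at h1
    rw [mem_rowL1 hL hx (by omega)] at h2
    rw [mem_rowL hL hb] at h
    omega

theorem pin_le_two (hL : Sz H L) (hL12 : 12 ≤ L) (hex : e + 6 ≤ x) (hx : x ≤ -12)
    (h : ¬ Mem H L e x a b) : pin (Mem H L e x) a b ≤ 2 := by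
  classical
  have hg := mem_gap hL hL12 hex hx h
  have hv := mem_vert hL hL12 hex hx h
  unfold pin
  by_cases h1 : Mem H L e x (a + 1) b
  · have h2 : ¬ Mem H L e x (a - 1) b := fun h2 => hg h1 h2
    rw [if_neg h2]
    by_cases h3 : Mem H L e x a (b + 1)
    · have h4 : ¬ Mem H L e x a (b - 1) := fun h4 => hv h3 h4 (Or.inl h1)
      rw [if_neg h4]
      split_ifs <;> omega
    · rw [if_neg h3]
      split_ifs <;> omega
  · rw [if_neg h1]
    by_cases h2 : Mem H L e x (a - 1) b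
    · by_cases h3 : Mem H L e x a (b + 1)
      · have h4 : ¬ Mem H L e x a (b - 1) := fun h4 => hv h3 h4 (Or.inr h2)
        rw [if_neg h4]
        split_ifs <;> omega
      · rw [if_neg h3]
        split_ifs <;> omega
    · rw [if_neg h2]
      split_ifs <;> omega

/-- at most one neighbour if the other three are excluded -/
theorem pin_le_one_of {Q : ℤ → ℤ → Prop} (h1 : ¬ Q a (b + 1)) (h2 : ¬ Q a (b - 1))
    (h3 : ¬ Q (a - 1) b) : pin Q a b ≤ 1 := by
  classical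
  unfold pin
  rw [if_neg h1, if_neg h2, if_neg h3]
  split_ifs <;> omega

theorem pin_le_one_of' {Q : ℤ → ℤ → Prop} (h1 : ¬ Q a (b + 1)) (h2 : ¬ Q (a + 1) b)
    (h3 : ¬ Q (a - 1) b) : pin Q a b ≤ 1 := by
  classical
  unfold pin
  rw [if_neg h1, if_neg h2, if_neg h3]
  split_ifs <;> omega

theorem pin_le_one_of'' {Q : ℤ → ℤ → Prop} (h1 : ¬ Q a (b - 1)) (h2 : ¬ Q (a + 1) b)
    (h3 : ¬ Q (a - 1) b) : pin Q a b ≤ 1 := by
  classical
  unfold pin
  rw [if_neg h1, if_neg h2, if_neg h3]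
  split_ifs <;> omega

/-- to the left of the set -/
theorem pin_left (hL : Sz H L) (_hL12 : 12 ≤ L) (hex : e + 6 ≤ x) (hx : x ≤ -12)
    (h : (b ≤ 2 ∧ a < e) ∨ (L - 1 ≤ b ∧ a < x)) : pin (Mem H L e x) a b ≤ 1 := by
  apply pin_le_one_of
  · intro h1
    obtain ⟨c1, c2, c3, c4, c5⟩ := mem_coarse hL hex hx h1
    omega
  · intro h1
    obtain ⟨c1, c2, c3, c4, c5⟩ := mem_coarse hL hex hx h1
    omega
  · intro h1
    obtain ⟨c1, c2, c3, c4, c5⟩ := mem_coarse hL hex hx h1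
    omega

/-- an outside cell of a set whose ends are further left is to the left -/
theorem left_of_mem {e' x' : ℤ} (hL : Sz H L) (hL12 : 12 ≤ L) (hex : e + 6 ≤ x)
    (hx : x ≤ -12) (hx' : x' ≤ -12) (hex' : e' + 6 ≤ x') (he : e' < e) (hxx : x' < x)
    (h : ¬ Mem H L e x a b) (h' : Mem H L e' x' a b) :
    (b ≤ 2 ∧ a < e) ∨ (L - 1 ≤ b ∧ a < x) := by
  have A := hL.H3
  have A' := hL.H_le
  obtain ⟨-, hb0, hbL, -, -⟩ := mem_coarse hL hex' hx' h'
  have hcases : b = 0 ∨ b = 1 ∨ b = 2 ∨ (3 ≤ b ∧ b ≤ L - 2) ∨ b = L - 1 ∨ b = L ∨ b = L + 1 := by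
    omega
  rcases hcases with hb | hb | hb | hb | hb | hb | hb
  · subst hb
    rw [mem_row0 hL] at h h'
    omega
  · subst hb
    rw [mem_row1 hL] at h h'
    omega
  · subst hb
    rw [mem_row2 hL hex hx] at h
    rw [mem_row2 hL hex' hx'] at h'
    omega
  · rw [mem_rowM hL hb.1 hb.2] at h h'
    exact absurd h' h
  · rw [mem_rowL1 hL hx hb] at h
    rw [mem_rowL1 hL hx' hb] at h'
    omega
  · rw [mem_rowL hL hb] at h
    rw [mem_rowL hL hb] at h'
    omega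
  · rw [mem_rowL2 hL hb] at h h'
    omega

/-- the same for a face -/
theorem left_of_mf {e' x' : ℤ} (hL : Sz H L) (_hL12 : 12 ≤ L) (hex : e + 6 ≤ x)
    (hx : x ≤ -12) (he : e' ≤ e) (hxx : x' ≤ x)
    (h : ¬ Mem H L e x a b) (h' : MF H L e' x' a b) :
    (b ≤ 2 ∧ a < e) ∨ (L - 1 ≤ b ∧ a < x) := by
  have A := hL.H3
  have A' := hL.H_le
  rcases h' with (h' | h' | h' | h' | h') | (h' | h' | h' | h' | h')
  · obtain ⟨hb, ha⟩ := h'
    subst hb
    rw [mem_row2 hL hex hx] at h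
    omega
  · obtain ⟨hb, ha⟩ := h'
    subst hb
    rw [mem_row1 hL] at h
    omega
  · exact absurd (mem_iff.mpr (Or.inl (Or.inr (Or.inr (Or.inl h'))))) h
  · rw [mem_rowL hL h'.1] at h
    omega
  · rw [mem_rowL1 hL hx h'.1] at h
    omega
  · exact absurd (mem_iff.mpr (Or.inr (Or.inl (Or.inl h')))) h
  · obtain ⟨hb, ha⟩ := h'
    subst hb
    rw [mem_row2 hL hex hx] at h
    omega
  · rw [mem_rowL1 hL hx h'.1] at h
    omega
  · exact absurd (mem_iff.mpr (Or.inr (Or.inl (Or.inr (Or.inr (Or.inr (Or.inl h'))))))) h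
  · exact absurd (mem_iff.mpr (Or.inr (Or.inl (Or.inr (Or.inr (Or.inr (Or.inr h'))))))) h

/-- an outside cell in a set whose ends are further right is one of the two ends -/
theorem ends_of_mem {e' x' : ℤ} (hL : Sz H L) (hL12 : 12 ≤ L) (hex : e + 6 ≤ x)
    (hx : x ≤ -12) (hx' : x' ≤ -12) (hex' : e' + 6 ≤ x') (he : e ≤ e') (hxx : x ≤ x')
    (h : ¬ Mem H L e x a b) (h' : Mem H L e' x' a b) :
    (b = 0 ∧ a = e') ∨ (b = L + 1 ∧ a = x') := by
  have A := hL.H3
  have A' := hL.H_le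
  obtain ⟨-, hb0, hbL, -, -⟩ := mem_coarse hL hex' hx' h'
  have hcases : b = 0 ∨ b = 1 ∨ b = 2 ∨ (3 ≤ b ∧ b ≤ L - 2) ∨ b = L - 1 ∨ b = L ∨ b = L + 1 := by
    omega
  rcases hcases with hb | hb | hb | hb | hb | hb | hb
  · subst hb
    rw [mem_row0 hL] at h h'
    omega
  · subst hb
    rw [mem_row1 hL] at h h'
    omega
  · subst hb
    rw [mem_row2 hL hex hx] at h
    rw [mem_row2 hL hex' hx'] at h'
    omega
  · rw [mem_rowM hL hb.1 hb.2] at h h'
    exact absurd h' h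
  · rw [mem_rowL1 hL hx hb] at h
    rw [mem_rowL1 hL hx' hb] at h'
    omega
  · rw [mem_rowL hL hb] at h
    rw [mem_rowL hL hb] at h'
    omega
  · rw [mem_rowL2 hL hb] at h h'
    omega

/-- the cells of an earlier neighbouring fibre -/
theorem pin_lower {e' x' : ℤ} (hL : Sz H L) (hL12 : 12 ≤ L) (hex : e + 6 ≤ x) (hx : x ≤ -12)
    (hex' : e' + 6 ≤ x') (hxe : x' ≤ e) (h : ¬ Mem H L e x a b) (h' : Mem H L e' x' a b) :
    pin (Mem H L e x) a b ≤ 1 :=
  pin_left hL hL12 hex hx (left_of_mem hL hL12 hex hx (by omega) hex' (by omega) (by omega) h h')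

/-- the cells of a face -/
theorem pin_face {e' x' : ℤ} (hL : Sz H L) (hL12 : 12 ≤ L) (hex : e + 6 ≤ x) (hx : x ≤ -12)
    (he : e' ≤ e) (hxx : x' ≤ x) (h : ¬ Mem H L e x a b) (h' : MF H L e' x' a b) :
    pin (Mem H L e x) a b ≤ 1 :=
  pin_left hL hL12 hex hx (left_of_mf hL hL12 hex hx he hxx h h')

/-- the cells of a later neighbouring fibre -/
theorem pin_upper {e' x' : ℤ} (hL : Sz H L) (hL12 : 12 ≤ L) (hex : e + 6 ≤ x) (hx : x ≤ -12)
    (hex' : e' + 6 ≤ x') (hx' : x' ≤ -12) (hxe : x ≤ e') (h : ¬ Mem H L e x a b)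
    (h' : Mem H L e' x' a b) : pin (Mem H L e x) a b ≤ 1 := by
  rcases ends_of_mem hL hL12 hex hx hx' hex' (by omega) (by omega) h h' with ⟨hb, ha⟩ | ⟨hb, ha⟩
  · subst hb ha
    apply pin_le_one_of''
    · intro h1
      obtain ⟨c1, c2, c3, c4, c5⟩ := mem_coarse hL hex hx h1
      omega
    · rw [mem_row0 hL]
      omega
    · rw [mem_row0 hL]
      omega
  · subst ha
    apply pin_le_one_of'
    · intro h1
      obtain ⟨c1, c2, c3, c4, c5⟩ := mem_coarse hL hex hx h1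
      omega
    · rw [mem_rowL2 hL hb]
      omega
    · rw [mem_rowL2 hL hb]
      omega

end Pool.Agent.Lib.MP_1a3405_co.BT
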