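import Mathlib
import Pool.Agent.Lib.MP_1a3405_co.BT.POutA

/-!
More planar lemmas on cells outside of a fibre's set (see the rows in `POutA`).
-/

namespace Pool.Agent.Lib.MP_1a3405_co.BT

variable {H L e x a b : ℤ}

/-- a cell outside cannot be in an earlier and in a later fibre -/
theorem mem_excl {e' x' e'' x'' : ℤ} (hL : Sz H L) (hL12 : 12 ≤ L) (hex : e + 6 ≤ x)
    (hx : x ≤ -12) (hex' : e' + 6 ≤ x') (hxe : x' ≤ e) (hex'' : e'' + 6 ≤ x'')
    (hx'' : x'' ≤ -12) (hxe'' : x ≤ e'') (h : ¬ Mem H L e x a b) (h' : Mem H L e' x' a b)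
    (h'' : Mem H L e'' x'' a b) : False := by
  have h1 := left_of_mem hL hL12 hex hx (by omega) hex' (by omega) (by omega) h h'
  have h2 := ends_of_mem hL hL12 hex hx hx'' hex'' (by omega) (by omega) h h''
  omega

/-- a cell outside cannot be in a face and in a later fibre -/
theorem face_excl {e' x' e'' x'' : ℤ} (hL : Sz H L) (hL12 : 12 ≤ L) (hex : e + 6 ≤ x)
    (hx : x ≤ -12) (he : e' ≤ e) (hxx : x' ≤ x) (hex'' : e'' + 6 ≤ x'')
    (hx'' : x'' ≤ -12) (hxe'' : x ≤ e'') (h : ¬ Mem H L e x a b) (h' : MF H L e' x' a b)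
    (h'' : Mem H L e'' x'' a b) : False := by
  have h1 := left_of_mf hL hL12 hex hx he hxx h h'
  have h2 := ends_of_mem hL hL12 hex hx hx'' hex'' (by omega) (by omega) h h''
  omega

/-- a face is the set of a fibre without its two extra seeds -/
theorem mf_iff_mem (hL : Sz H L) (_hL12 : 12 ≤ L) (hex : e + 6 ≤ x) (hx : x ≤ -12) :
    MF H L e x a b ↔ Mem H L e x a b ∧ ¬ (b = 0 ∧ a = e) ∧ ¬ (b = L + 1 ∧ a = x) := by
  have A := hL.H3
  have A' := hL.H_le
  constructor
  · intro h
    refine ⟨mem_of_mf h, ?_, ?_⟩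
    · rintro ⟨hb, ha⟩
      have S := @not_si H L a b (by omega)
      rcases h with (h | h | h | h | h) | (h | h | h | h | h)
      all_goals first | exact absurd h S | omega
    · rintro ⟨hb, ha⟩
      have S := @not_si H L a b (by omega)
      rcases h with (h | h | h | h | h) | (h | h | h | h | h)
      all_goals first | exact absurd h S | omega
  · rintro ⟨h | h | h | h, h1, h2⟩
    · exact Or.inl h
    · exact Or.inr h
    · exact absurd h h1
    · exact absurd h h2

open Classical in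
theorem pin_mono {Q Q' : ℤ → ℤ → Prop} (h : ∀ a b, Q a b → Q' a b) : pin Q a b ≤ pin Q' a b := by
  have k : ∀ a b, (if Q a b then 1 else 0) ≤ (if Q' a b then 1 else 0) := by
    intro a b
    by_cases h1 : Q a b
    · rw [if_pos h1, if_pos (h a b h1)]
    · rw [if_neg h1]
      exact Nat.zero_le _
  unfold pin
  have k1 := k a (b + 1)
  have k2 := k a (b - 1)
  have k3 := k (a + 1) b
  have k4 := k (a - 1) b
  omega

/-- the extra seeds of a fibre, further right than those of the face -/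
theorem pin_F_ends {e' x' : ℤ} (hL : Sz H L) (hL12 : 12 ≤ L) (hex : e + 6 ≤ x)
    (hx : x ≤ -12) (hx' : x' ≤ -12) (he' : e' ≤ -12)
    (hends : (b = 0 ∧ a = e') ∨ (b = L + 1 ∧ a = x')) : pin (MF H L e x) a b ≤ 1 := by
  have A := hL.H3
  have A' := hL.H_le
  rcases hends with ⟨hb, ha⟩ | ⟨hb, ha⟩
  · subst hb ha
    apply pin_le_one_of''
    · intro h1
      obtain ⟨c1, c2, c3, c4, c5⟩ := mem_coarse hL hex hx (mem_of_mf h1)
      omega
    · rw [mf_iff_mem hL hL12 hex hx, mem_row0 hL]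
      omega
    · rw [mf_iff_mem hL hL12 hex hx, mem_row0 hL]
      omega
  · subst ha
    apply pin_le_one_of'
    · intro h1
      obtain ⟨c1, c2, c3, c4, c5⟩ := mem_coarse hL hex hx (mem_of_mf h1)
      omega
    · rw [mf_iff_mem hL hL12 hex hx, mem_rowL2 hL hb]
      omega
    · rw [mf_iff_mem hL hL12 hex hx, mem_rowL2 hL hb]
      omega

/-- cells outside of a face -/
theorem pin_F (hL : Sz H L) (hL12 : 12 ≤ L) (hex : e + 6 ≤ x) (hx : x ≤ -12)
    (h : ¬ MF H L e x a b) : pin (MF H L e x) a b ≤ 2 := by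
  by_cases hm : Mem H L e x a b
  · have h3 : (b = 0 ∧ a = e) ∨ (b = L + 1 ∧ a = x) := by
      rw [mf_iff_mem hL hL12 hex hx] at h
      by_contra h4
      exact h ⟨hm, fun h5 => h4 (Or.inl h5), fun h5 => h4 (Or.inr h5)⟩
    exact (pin_F_ends hL hL12 hex hx hx (by omega) h3).trans (by omega)
  · exact (pin_mono fun a b h => mem_of_mf h).trans (pin_le_two hL hL12 hex hx hm)

/-- cells outside of a face which belong to an active fibre -/
theorem pin_F_mem {e' x' : ℤ} (hL : Sz H L) (hL12 : 12 ≤ L) (hex : e + 6 ≤ x)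
    (hex' : e' + 6 ≤ x') (hx' : x' ≤ -12) (he : e ≤ e') (hxx : x ≤ x')
    (h : ¬ MF H L e x a b) (h' : Mem H L e' x' a b) : pin (MF H L e x) a b ≤ 1 := by
  have A := hL.H3
  have A' := hL.H_le
  have hx : x ≤ -12 := by omega
  have hends : (b = 0 ∧ a = e') ∨ (b = L + 1 ∧ a = x') := by
    rw [mf_iff_mem hL hL12 hex hx] at h
    by_cases hm : Mem H L e x a b
    · have h3 : (b = 0 ∧ a = e) ∨ (b = L + 1 ∧ a = x) := by
        by_contra h4
        exact h ⟨hm, fun h5 => h4 (Or.inl h5), fun h5 => h4 (Or.inr h5)⟩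
      rcases h3 with ⟨hb, ha⟩ | ⟨hb, ha⟩
      · subst hb
        rw [mem_row0 hL] at h'
        omega
      · rw [mem_rowL2 hL hb] at h'
        omega
    · exact ends_of_mem hL hL12 hex hx hx' hex' he hxx hm h'
  exact pin_F_ends hL hL12 hex hx hx' (by omega) hends

/-- no neighbour in the fibre at the end cells `(e', 2)`, `(x', L - 1)` of an earlier
neighbouring fibre, and these cells are not in any later fibre -/
theorem pin_ends {e' x' : ℤ} (hL : Sz H L) (hL12 : 12 ≤ L) (hex : e + 6 ≤ x) (hx : x ≤ -12)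
    (hex' : e' + 6 ≤ x') (hxe : x' ≤ e) :
    pin (Mem H L e x) e' 2 = 0 ∧ pin (Mem H L e x) x' (L - 1) = 0 ∧ ¬ Mem H L e x e' 2 ∧
      ¬ Mem H L e x x' (L - 1) := by
  classical
  have key : ∀ a b : ℤ, a < e → ¬ Mem H L e x a b := by
    intro a b ha h
    have := (mem_coarse hL hex hx h).1
    omega
  have key2 : ∀ a b : ℤ, L - 2 ≤ b → a < x → a < 0 → ¬ Mem H L e x a b := by
    intro a b hb ha ha0 h
    obtain ⟨c1, c2, c3, c4, c5⟩ := mem_coarse hL hex hx h
    omega
  refine ⟨?_, ?_, key _ _ (by omega), key2 _ _ (by omega) (by omega) (by omega)⟩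
  · unfold pin
    rw [if_neg (key _ _ (by omega)), if_neg (key _ _ (by omega)), if_neg (key _ _ (by omega)),
      if_neg (key _ _ (by omega))]
  · unfold pin
    rw [if_neg (key2 _ _ (by omega) (by omega) (by omega)),
      if_neg (key2 _ _ (by omega) (by omega) (by omega)),
      if_neg (key2 _ _ (by omega) (by omega) (by omega)),
      if_neg (key2 _ _ (by omega) (by omega) (by omega))]

end Pool.Agent.Lib.MP_1a3405_co.BT
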