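import Mathlib
import Pool.Agent.Lib.MP_1a3405_co.BT.Sets
import Pool.Agent.Lib.MP_1a3405_co.BP.Walk

/-!
The existence of a `Wire3` along a walk: steps at every fifth height, the directions `J` are
constant on the five heights around a step.
-/

namespace Pool.Agent.Lib.MP_1a3405_co.BT

open Pool.Agent.Lib.MP_1a3405_co Pool.Agent.Lib.MP_1a3405_co.Ord
open Pool.Agent.Lib.MP_1a3405_co.BP

private lemma exists_J_avoid {E r : ℕ} (hr : 1 ≤ r) (hE : r ≤ E) (i : Fin E) :
    ∃ J : Finset (Fin E), J.card = r - 1 ∧ i ∉ J := by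
  have h : r - 1 ≤ (Finset.univ.erase i).card := by
    rw [Finset.card_erase_of_mem (Finset.mem_univ _), Finset.card_univ, Fintype.card_fin]; omega
  obtain ⟨J, hJ, hc⟩ := Finset.exists_subset_card_eq h
  exact ⟨J, hc, fun hi => by simpa using hJ hi⟩

/-- directions are determined by the neighbour -/
theorem nb_dir {E : ℕ} {x : Fin E → ℤ} {δ δ' : Fin E × Bool} (h : nb x δ = nb x δ') :
    δ = δ' := by
  obtain ⟨i, s⟩ := δ
  obtain ⟨i', s'⟩ := δ'
  have h1 := congrFun h i
  rw [nb_self] at h1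
  by_cases hi : i = i'
  · subst hi
    rw [nb_self] at h1
    cases s <;> cases s' <;> simp at h1 <;> first | rfl | (exfalso; omega)
  · rw [nb_other x s' hi] at h1
    cases s <;> simp at h1

/-- a wire along a walk -/
theorem exists_wire {E r : ℕ} (hr : 1 ≤ r) (hE : r ≤ E) (lo hi : ℤ) (ℓ : ℕ)
    (y : ℕ → Fin E → ℤ) (hw : IsWalk ℓ y) (hlen : lo + 5 * ℓ + 12 ≤ hi)
    (Jlo Jhi : Finset (Fin E)) (hlo : Jlo.card = r - 1) (hhi : Jhi.card = r - 1) :
    ∃ (X : ℤ → Fin E → ℤ) (J : ℤ → Finset (Fin E)), Wire3 r lo hi X J ∧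
      X hi = y 0 ∧ X lo = y ℓ ∧ J lo = Jlo ∧ J hi = Jhi ∧ ∀ b, ∃ j ≤ ℓ, X b = y j := by
  have hE0 : 0 < E := by omega
  have hax : ∀ k : ℕ, ∃ i : Fin E, 1 ≤ k → k ≤ ℓ → ∃ s, y k = nb (y (k - 1)) (i, s) := by
    intro k
    by_cases hk : 1 ≤ k ∧ k ≤ ℓ
    · obtain ⟨⟨i, s⟩, h⟩ := hw (k - 1) (by omega)
      refine ⟨i, fun _ _ => ⟨s, ?_⟩⟩
      rw [← h]
      congr 1
      omega
    · exact ⟨⟨0, hE0⟩, fun h1 h2 => absurd ⟨h1, h2⟩ hk⟩
  choose ax hax using hax
  have hJ : ∀ k, ∃ J : Finset (Fin E), J.card = r - 1 ∧ ax k ∉ J :=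
    fun k => exists_J_avoid hr hE (ax k)
  choose J' hJc hJn using hJ
  obtain ⟨k, hk⟩ : ∃ k : ℤ → ℕ, ∀ b, k b = (min (ℓ : ℤ) (max 0 ((hi - b) / 5))).toNat :=
    ⟨_, fun b => rfl⟩
  obtain ⟨K, hK⟩ : ∃ K : ℤ → Finset (Fin E), ∀ m, K m =
      if m ≤ 0 then Jhi else if (ℓ : ℤ) < m then Jlo else J' m.toNat := ⟨_, fun b => rfl⟩
  have hKc : ∀ m, (K m).card = r - 1 := by
    intro m
    rw [hK]
    split_ifs
    · exact hhi
    · exact hlo
    · exact hJc _
  -- the set `K` near a step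
  have hKs : ∀ (m : ℕ) (c : ℤ), 1 ≤ m → m ≤ ℓ → (hi - c + 2) / 5 = m →
      ax m ∉ K ((hi - c + 2) / 5) := by
    intro m c h1 h2 h3
    rw [hK, if_neg (by omega), if_neg (by omega), h3]
    exact hJn _
  -- the steps
  have hstep : ∀ b, k b ≠ k (b + 1) → k (b + 1) = k b - 1 ∧ 1 ≤ k b ∧ k b ≤ ℓ ∧
      ∀ c, b - 2 ≤ c → c ≤ b + 2 → (hi - c + 2) / 5 = k b := by
    intro b hb
    have h1 := hk b
    have h2 := hk (b + 1)
    refine ⟨by omega, by omega, by omega, ?_⟩
    intro c hc1 hc2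
    omega
  refine ⟨fun b => y (k b), fun c => K ((hi - c + 2) / 5),
    ⟨⟨by omega, fun b => hKc _, ?_, ?_, ?_, ?_⟩, ?_, ?_, ?_⟩, ?_, ?_, ?_, ?_, ?_⟩
  · intro b
    by_cases hb : k b = k (b + 1)
    · exact Or.inl (by simp only [hb])
    · refine Or.inr ?_
      obtain ⟨h3, h4, h5, h6⟩ := hstep b hb
      obtain ⟨s, hs⟩ := hax (k b) h4 h5
      refine ⟨ax (k b), s, ?_, ?_, ?_, ?_⟩
      · simp only [h3]; exact hs
      · exact hKs _ _ h4 h5 (h6 _ (by omega) (by omega))
      · exact hKs _ _ h4 h5 (h6 _ (by omega) (by omega))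
      · exact hKs _ _ h4 h5 (h6 _ (by omega) (by omega))
  · intro b hb
    have hb' : k b ≠ k (b + 1) := fun h => hb (by simp only [h])
    have h1 := hk b
    have h2 := hk (b + 1)
    have h3 := hk (b + 2)
    have : k (b + 1) = k (b + 2) := by omega
    simp only [this]
  · intro b hb
    have h1 := hk b
    have h2 := hk lo
    have : k b = k lo := by omega
    simp only [this]
  · intro b hb
    have h1 := hk b
    have h2 := hk hi
    have : k b = k hi := by omega
    simp only [this]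
  · intro b i s hX c hc1 hc2
    have hb : k b ≠ k (b + 1) := by
      intro h
      simp only [h] at hX
      exact nb_ne _ _ hX.symm
    obtain ⟨h3, h4, h5, h6⟩ := hstep b hb
    obtain ⟨s', hs'⟩ := hax (k b) h4 h5
    simp only [h3] at hX
    rw [hs'] at hX
    have := nb_dir hX
    simp only [Prod.mk.injEq] at this
    rw [← this.1]
    exact hKs _ _ h4 h5 (h6 _ (by omega) (by omega))
  · intro b hb
    have hb' : k b ≠ k (b + 1) := fun h => hb (by simp only [h])
    have h1 := hk b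
    have h2 := hk (b + 1)
    have h3 := hk (b + 2)
    have h4 := hk (b + 3)
    have : k (b + 2) = k (b + 3) := by omega
    simp only [this]
  · intro b l h1 h2
    have : (hi - (b - 1) + 2) / 5 = (hi - b + 2) / 5 ∨
        (hi - (b + 1) + 2) / 5 = (hi - b + 2) / 5 := by omega
    rcases this with h | h
    · rw [h] at h1
      exact h1
    · rw [h] at h2
      exact h2
  · have h2 := hk hi
    have : k hi = 0 := by omega
    simp only [this]
  · have h2 := hk lo
    have : k lo = ℓ := by omega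
    simp only [this]
  · show K ((hi - lo + 2) / 5) = Jlo
    rw [hK, if_neg (by omega), if_pos (by omega)]
  · show K ((hi - hi + 2) / 5) = Jhi
    rw [hK, if_pos (by omega)]
  · intro b
    have h1 := hk b
    exact ⟨k b, by omega, rfl⟩

end Pool.Agent.Lib.MP_1a3405_co.BT
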