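import Mathlib
import Pool.Agent.Lib.MP_1a3405_co.BT.WExist
import Pool.Agent.Lib.MP_1a3405_co.BP.WTwo

/-!
A cell which is neither a chain cell nor a seed of a `Wire3` sees at most `2` cells of the wire.
-/

namespace Pool.Agent.Lib.MP_1a3405_co.BT

open Pool.Agent.Lib.MP_1a3405_co Pool.Agent.Lib.MP_1a3405_co.Ord
open Pool.Agent.Lib.MP_1a3405_co.BP

variable {E r : ℕ} {lo hi : ℤ} {X : ℤ → Fin E → ℤ} {J : ℤ → Finset (Fin E)}

private lemma w3_sum (x : Fin E → ℤ) (i : Fin E) (s : Bool) :
    ∑ j, nb x (i, s) j = (∑ j, x j) + if s then 1 else -1 := by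
  have h : ∀ j, nb x (i, s) j = x j + if j = i then (if s then 1 else -1) else 0 := by
    intro j
    by_cases hj : j = i
    · subst hj; rw [nb_self, if_pos rfl]
    · rw [nb_other x s hj, if_neg hj, add_zero]
  rw [Finset.sum_congr rfl fun j _ => h j, Finset.sum_add_distrib, Finset.sum_ite_eq']
  simp

/-- parity -/
private lemma w3_par {U : Fin E → ℤ} {i l m : Fin E} {s : Bool}
    (h : nb U (l, true) = nb (nb U (i, s)) (m, true)) : False := by
  have h1 := w3_sum U l true
  have h2 := w3_sum (nb U (i, s)) m true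
  have h3 := w3_sum U i s
  rw [h, h2, h3] at h1
  cases s
  · simp at h1
  · simp at h1

private lemma w3_inj {U : Fin E → ℤ} {l m : Fin E} (h : nb U (l, true) = nb U (m, true)) :
    l = m := by
  have := nb_dir h
  simpa using this

/-- a point outside of the wire is not both above and below -/
theorem wire3_not_both (h : Wire3 r lo hi X J) {b : ℤ} {x : Fin E → ℤ}
    (h0 : ¬ ((x = X b ∨ x = X (b + 1)) ∨
        ∃ l ∈ J b, x = nb (X b) (l, true) ∨ x = nb (X (b + 1)) (l, true)))
    (h1 : (x = X (b + 1) ∨ x = X (b + 2)) ∨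
        ∃ l ∈ J (b + 1), x = nb (X (b + 1)) (l, true) ∨ x = nb (X (b + 2)) (l, true))
    (h2 : (x = X (b - 1) ∨ x = X b) ∨
        ∃ l ∈ J (b - 1), x = nb (X (b - 1)) (l, true) ∨ x = nb (X b) (l, true)) : False := by
  push Not at h0
  obtain ⟨⟨hx1, hx2⟩, hx3⟩ := h0
  by_cases s0 : X b = X (b + 1)
  · -- no step at `b`
    have h1' : x = X (b + 2) ∨ ∃ l ∈ J (b + 1), x = nb (X b) (l, true) ∨
        x = nb (X (b + 2)) (l, true) := by
      rcases h1 with (h1 | h1) | ⟨l, hl, h1 | h1⟩
      · exact absurd h1 hx2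
      · exact Or.inl h1
      · exact Or.inr ⟨l, hl, Or.inl (by rw [s0]; exact h1)⟩
      · exact Or.inr ⟨l, hl, Or.inr h1⟩
    have h2' : x = X (b - 1) ∨ ∃ l ∈ J (b - 1), x = nb (X (b - 1)) (l, true) ∨
        x = nb (X b) (l, true) := by
      rcases h2 with (h2 | h2) | ⟨l, hl, h2⟩
      · exact Or.inl h2
      · exact absurd h2 hx1
      · exact Or.inr ⟨l, hl, h2⟩
    -- the common case
    have key : ∀ l ∈ J (b + 1), ∀ m ∈ J (b - 1), x = nb (X b) (l, true) →
        x = nb (X b) (m, true) → False := by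
      intro l hl m hm e1 e2
      have e3 : l = m := w3_inj (e1.symm.trans e2)
      subst e3
      exact (hx3 l (h.sep b l hm hl)).1 e1
    by_cases s1 : X (b + 1) = X (b + 2)
    · by_cases s2 : X (b - 1) = X b
      · -- no step at all
        rw [← s1, ← s0] at h1'
        rw [s2] at h2'
        rcases h1' with h1' | ⟨l, hl, h1'⟩
        · exact hx1 h1'
        · rcases h2' with h2' | ⟨m, hm, h2'⟩
          · exact hx1 h2'
          · exact key l hl m hm (by tauto) (by tauto)
      · -- step at `b - 1`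
        have hst := h.step (b - 1)
        rw [sub_add_cancel] at hst
        rcases hst with hst | ⟨i, s, hst, -, -, -⟩
        · exact s2 hst
        · rw [← s1, ← s0] at h1'
          have hi : i ∉ J (b + 1) :=
            h.step2 (b - 1) i s (by rw [sub_add_cancel]; exact hst) (b + 1) (by omega) (by omega)
          rcases h1' with h1' | ⟨l, hl, h1'⟩
          · exact hx1 h1'
          · have e1 : x = nb (X b) (l, true) := by tauto
            rcases h2' with h2' | ⟨m, hm, h2' | h2'⟩
            · rw [hst] at h2'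
              have := nb_dir (e1.symm.trans h2')
              simp only [Prod.mk.injEq] at this
              exact hi (this.1 ▸ hl)
            · rw [hst] at h2'
              exact w3_par (e1.symm.trans h2')
            · exact key l hl m hm e1 h2'
    · -- step at `b + 1`
      have s2 : X (b - 1) = X b := by
        by_contra s2
        have := h.gap2 (b - 1) (by rw [sub_add_cancel]; exact s2)
        rw [show b - 1 + 2 = b + 1 by ring, show b - 1 + 3 = b + 2 by ring] at this
        exact s1 this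
      rw [s2] at h2'
      have hst := h.step (b + 1)
      rw [show b + 1 + 1 = b + 2 by ring] at hst
      rcases hst with hst | ⟨i, s, hst, -, -, -⟩
      · exact s1 hst
      · have hi : i ∉ J (b - 1) :=
          h.step2 (b + 1) i s (by rw [show b + 1 + 1 = b + 2 by ring]; exact hst) (b - 1)
            (by omega) (by omega)
        have hU : X (b + 2) = nb (X b) (i, !s) := by
          rw [s0, hst, nb_nb_not]
        rcases h2' with h2' | ⟨m, hm, h2'⟩
        · exact hx1 h2'
        · have e1 : x = nb (X b) (m, true) := by tauto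
          rcases h1' with h1' | ⟨l, hl, h1' | h1'⟩
          · rw [hU] at h1'
            have := nb_dir (e1.symm.trans h1')
            simp only [Prod.mk.injEq] at this
            exact hi (this.1 ▸ hm)
          · exact key l hl m hm h1' e1
          · rw [hU] at h1'
            exact w3_par (e1.symm.trans h1')
  · -- step at `b`
    have s1 : X (b + 1) = X (b + 2) := h.gap b s0
    have s2 : X (b - 1) = X b := by
      by_contra s2
      have := h.gap (b - 1) (by rw [sub_add_cancel]; exact s2)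
      rw [sub_add_cancel, show b - 1 + 2 = b + 1 by ring] at this
      exact s0 this
    rw [← s1] at h1
    rw [s2] at h2
    rcases h.step b with hst | ⟨i, s, hst, -, -, -⟩
    · exact s0 hst
    · rcases h1 with h1 | ⟨l, hl, h1⟩
      · exact hx2 (by tauto)
      · rcases h2 with h2 | ⟨m, hm, h2⟩
        · exact hx1 (by tauto)
        · have e1 : x = nb (X (b + 1)) (l, true) := by tauto
          have e2 : x = nb (X b) (m, true) := by tauto
          rw [hst] at e2
          exact w3_par (e1.symm.trans e2)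

theorem wire_two (h : Wire3 r lo hi X J) {p : Fin (E + 1) → ℤ} (hp : ¬ WC lo hi X p)
    (hp' : ¬ WS lo hi X J p) :
    cz (fun q => WC lo hi X q ∨ WS lo hi X J q) p ≤ 2 := by
  have h3 := BP.wire_two h.toWire hp hp'
  by_cases hends : p 0 = lo ∨ p 0 = hi
  · exact h3.2 hends
  obtain ⟨b, x, rfl⟩ : ∃ b x, p = Fin.cons b x := ⟨p 0, Fin.tail p, (Fin.cons_self_tail p).symm⟩
  simp only [Fin.cons_zero] at hends
  rw [cz_cons]
  by_cases hb : lo ≤ b ∧ b ≤ hi
  · have hx : ¬ ((x = X b ∨ x = X (b + 1)) ∨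
        ∃ l ∈ J b, x = nb (X b) (l, true) ∨ x = nb (X (b + 1)) (l, true)) := by
      intro hx
      rcases (wQ_iff lo hi X J b x).2 ⟨hb, hx⟩ with h1 | h1
      · exact hp h1
      · exact hp' h1
    rcases wire_horiz h.toWire hb hx with h1 | ⟨h1, l, hl, l', hl', hne, Z, hZ, hxZ⟩
    · by_cases hu : WC lo hi X (Fin.cons (b + 1) x) ∨ WS lo hi X J (Fin.cons (b + 1) x)
      · have hd : ¬ (WC lo hi X (Fin.cons (b - 1) x) ∨ WS lo hi X J (Fin.cons (b - 1) x)) := by
          intro hd
          rw [wQ_iff] at hu hd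
          rw [show b + 1 + 1 = b + 2 by ring] at hu
          rw [show b - 1 + 1 = b by ring] at hd
          exact wire3_not_both h hx hu.2 hd.2
        rw [if_pos hu, if_neg hd]
        omega
      · rw [if_neg hu]
        split_ifs <;> omega
    · obtain ⟨h2, h3⟩ := wire_two_vert h.toWire b hZ hl hl' hne hxZ
      rw [if_neg h2, if_neg h3, h1]
  · have h0 : cz (fun z => WC lo hi X (Fin.cons b z) ∨ WS lo hi X J (Fin.cons b z)) x = 0 := by
      apply cz_eq_zero
      intro δ
      rw [wQ_iff]
      exact fun h => hb h.1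
    rw [h0]
    split_ifs <;> omega

/-- the cells next to the lower end of a wire -/
theorem wire_lo (h : BP.Wire r lo hi X J) {p : Fin (E + 1) → ℤ} (hp : ¬ WC lo hi X p)
    (hp' : ¬ WS lo hi X J p) (hb : p 0 = lo) :
    cz (fun q => WC lo hi X q ∨ WS lo hi X J q) p ≤ 1 ∨
      (∃ l ∈ J lo, ∃ l' ∈ J lo, l ≠ l' ∧ Fin.tail p = nb (nb (X lo) (l, true)) (l', true)) ∨
      (∃ l, l ∉ J lo ∧ Fin.tail p = nb (X lo) (l, true)) := by
  have hlen := h.len
  have x1 : X (lo + 1) = X lo := h.lo_const _ (by omega)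
  have x2 : X (lo + 2) = X lo := h.lo_const _ (by omega)
  obtain ⟨b, x, rfl⟩ : ∃ b x, p = Fin.cons b x := ⟨p 0, Fin.tail p, (Fin.cons_self_tail p).symm⟩
  simp only [Fin.cons_zero] at hb
  subst hb
  rw [Fin.tail_cons]
  have hx : ¬ ((x = X b ∨ x = X (b + 1)) ∨
      ∃ l ∈ J b, x = nb (X b) (l, true) ∨ x = nb (X (b + 1)) (l, true)) := by
    intro hx
    rcases (wQ_iff b hi X J b x).2 ⟨⟨le_rfl, by omega⟩, hx⟩ with h1 | h1
    · exact hp h1
    · exact hp' h1
  rw [cz_cons]
  have hd : ¬ (WC b hi X (Fin.cons (b - 1) x) ∨ WS b hi X J (Fin.cons (b - 1) x)) := by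
    rw [wQ_iff]; omega
  rcases wire_horiz h ⟨le_rfl, by omega⟩ hx with h1 | ⟨h1, l, hl, l', hl', hne, Z, hZ, hxZ⟩
  · by_cases hu : WC b hi X (Fin.cons (b + 1) x) ∨ WS b hi X J (Fin.cons (b + 1) x)
    · right; right
      rw [wQ_iff, show b + 1 + 1 = b + 2 by ring, x1, x2] at hu
      rw [x1] at hx
      push Not at hx
      rcases hu.2 with hu | ⟨l, hl, hu⟩
      · exact absurd (by tauto) hx.1.1
      · have e : x = nb (X b) (l, true) := by tauto
        exact ⟨l, fun hl' => (hx.2 l hl').1 e, e⟩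
    · left
      rw [if_neg hu, if_neg hd]
      omega
  · right; left
    rw [x1] at hZ
    have e : Z = X b := by tauto
    subst e
    exact ⟨l, hl, l', hl', hne, hxZ⟩

/-- the cells next to the upper end of a wire -/
theorem wire_hi (h : BP.Wire r lo hi X J) {p : Fin (E + 1) → ℤ} (hp : ¬ WC lo hi X p)
    (hp' : ¬ WS lo hi X J p) (hb : p 0 = hi) :
    cz (fun q => WC lo hi X q ∨ WS lo hi X J q) p ≤ 1 ∨
      (∃ l ∈ J hi, ∃ l' ∈ J hi, l ≠ l' ∧ Fin.tail p = nb (nb (X hi) (l, true)) (l', true)) ∨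
      (∃ l, l ∉ J hi ∧ Fin.tail p = nb (X hi) (l, true)) := by
  have hlen := h.len
  have x1 : X (hi + 1) = X hi := h.hi_const _ (by omega)
  have x2 : X (hi - 1) = X hi := h.hi_const _ (by omega)
  obtain ⟨b, x, rfl⟩ : ∃ b x, p = Fin.cons b x := ⟨p 0, Fin.tail p, (Fin.cons_self_tail p).symm⟩
  simp only [Fin.cons_zero] at hb
  subst hb
  rw [Fin.tail_cons]
  have hx : ¬ ((x = X b ∨ x = X (b + 1)) ∨
      ∃ l ∈ J b, x = nb (X b) (l, true) ∨ x = nb (X (b + 1)) (l, true)) := by
    intro hx
    rcases (wQ_iff lo b X J b x).2 ⟨⟨by omega, le_rfl⟩, hx⟩ with h1 | h1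
    · exact hp h1
    · exact hp' h1
  rw [cz_cons]
  have hu : ¬ (WC lo b X (Fin.cons (b + 1) x) ∨ WS lo b X J (Fin.cons (b + 1) x)) := by
    rw [wQ_iff]; omega
  rcases wire_horiz h ⟨by omega, le_rfl⟩ hx with h1 | ⟨h1, l, hl, l', hl', hne, Z, hZ, hxZ⟩
  · by_cases hd : WC lo b X (Fin.cons (b - 1) x) ∨ WS lo b X J (Fin.cons (b - 1) x)
    · right; right
      rw [wQ_iff, show b - 1 + 1 = b by ring, x2] at hd
      rw [x1] at hx
      push Not at hx
      rcases hd.2 with hd | ⟨l, hl, hd⟩
      · exact absurd (by tauto) hx.1.1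
      · have e : x = nb (X b) (l, true) := by tauto
        exact ⟨l, fun hl' => (hx.2 l hl').1 e, e⟩
    · left
      rw [if_neg hu, if_neg hd]
      omega
  · right; left
    rw [x1] at hZ
    have e : Z = X b := by tauto
    subst e
    exact ⟨l, hl, l', hl', hne, hxZ⟩

end Pool.Agent.Lib.MP_1a3405_co.BT
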