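import Mathlib
import Pool.Agent.Lib.MP_1a3405_co.BT.Defs
import Pool.Agent.Lib.MP_1a3405_co.BT.LNear
import Pool.Agent.Lib.MP_1a3405_co.BT.WTwo

/-!
Cells outside of the links see at most `3` link cells, and at most `2` at the heights `3`,
`L - 2`. By `near_unique`, `near_start` all link cells seen by `p` belong to one wire
(`wire_two`) or all of them belong to the start cell and its seeds (for these: at height `3`
they form the star of `(e 0; v 0)`, `star_out`; at height `4` there is one more seed).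
-/

namespace Pool.Agent.Lib.MP_1a3405_co.BT

open Pool.Agent.Lib.MP_1a3405_co Pool.Agent.Lib.MP_1a3405_co.Ord
open Pool.Agent.Lib.MP_1a3405_co.BP

namespace Plan

variable {D r : ℕ} (P : Plan D r)

/-- the position of the start cell -/
private def sY : Fin (D + 1) → ℤ := Fin.cons (P.e 0) (P.v 0)

open Classical in
/-- the seed directions at the start cell -/
private noncomputable def sJ : Finset (Fin (D + 1)) :=
  Finset.univ.filter fun l => l = 0 ∨ ∃ i : Fin D, l = i.succ ∧ P.T (nb (P.v 0) (i, true))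

private lemma mem_sJ (l : Fin (D + 1)) :
    l ∈ P.sJ ↔ l = 0 ∨ ∃ i : Fin D, l = i.succ ∧ P.T (nb (P.v 0) (i, true)) := by
  simp [sJ]

private lemma pt_eq_cons (a b : ℤ) (x : Fin D → ℤ) :
    pt a b x = Fin.cons b (Fin.cons a x : Fin (D + 1) → ℤ) := rfl

private lemma nb_sY_zero : nb P.sY (0, true) = Fin.cons (P.e 0 + 1) (P.v 0) := by
  rw [sY, nb_cons_zero]; rfl

private lemma nb_sY_succ (i : Fin D) :
    nb P.sY (i.succ, true) = Fin.cons (P.e 0) (nb (P.v 0) (i, true)) := by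
  rw [sY, nb_cons_succ]

private lemma cons_inj2 {b b' : ℤ} {y y' : Fin (D + 1) → ℤ} :
    (Fin.cons b y : Fin (D + 2) → ℤ) = Fin.cons b' y' ↔ b = b' ∧ y = y' :=
  Fin.cons_inj

private lemma St_iff (b : ℤ) (y : Fin (D + 1) → ℤ) :
    P.St (Fin.cons b y) ↔
      (b = 3 ∧ (y = P.sY ∨ ∃ l ∈ P.sJ, y = nb P.sY (l, true))) ∨ (b = 4 ∧ y = P.sY) := by
  unfold St start
  rw [pt_eq_cons, pt_eq_cons, pt_eq_cons, cons_inj2, cons_inj2, cons_inj2]
  constructor
  · rintro (⟨h1, h2⟩ | ⟨h1, h2⟩ | ⟨h1, h2⟩ | ⟨i, hi, h⟩)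
    · exact Or.inl ⟨h1, Or.inl h2⟩
    · exact Or.inr ⟨h1, h2⟩
    · refine Or.inl ⟨h1, Or.inr ⟨0, ?_, ?_⟩⟩
      · rw [mem_sJ]; exact Or.inl rfl
      · rw [nb_sY_zero]; exact h2
    · rw [pt_eq_cons, cons_inj2] at h
      refine Or.inl ⟨h.1, Or.inr ⟨i.succ, ?_, ?_⟩⟩
      · rw [mem_sJ]; exact Or.inr ⟨i, rfl, hi⟩
      · rw [nb_sY_succ]; exact h.2
  · rintro (⟨h1, h2 | ⟨l, hl, h2⟩⟩ | ⟨h1, h2⟩)
    · exact Or.inl ⟨h1, h2⟩
    · rw [mem_sJ] at hl
      rcases hl with rfl | ⟨i, rfl, hi⟩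
      · rw [nb_sY_zero] at h2
        exact Or.inr (Or.inr (Or.inl ⟨h1, h2⟩))
      · rw [nb_sY_succ] at h2
        refine Or.inr (Or.inr (Or.inr ⟨i, hi, ?_⟩))
        rw [pt_eq_cons, cons_inj2]
        exact ⟨h1, h2⟩
    · exact Or.inr (Or.inl ⟨h1, h2⟩)

/-- the start cell and its seeds -/
theorem start_two {p : Fin (D + 2) → ℤ} (h : ¬ P.St p) : cz P.St p ≤ 2 := by
  obtain ⟨b, y, rfl⟩ : ∃ b y, p = Fin.cons b y := ⟨p 0, Fin.tail p, (Fin.cons_self_tail p).symm⟩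
  rw [St_iff] at h
  rw [cz_cons]
  by_cases h3 : b = 3
  · subst h3
    have hy1 : y ≠ P.sY := fun e => h (Or.inl ⟨rfl, Or.inl e⟩)
    have hy2 : ∀ l ∈ P.sJ, y ≠ nb P.sY (l, true) :=
      fun l hl e => h (Or.inl ⟨rfl, Or.inr ⟨l, hl, e⟩⟩)
    have a1 : ¬ P.St (Fin.cons (3 + 1) y) := by
      rw [St_iff]
      rintro (⟨h1, -⟩ | ⟨-, h2⟩)
      · omega
      · exact hy1 h2
    have a2 : ¬ P.St (Fin.cons (3 - 1) y) := by
      rw [St_iff]; omega
    have a3 : cz (fun q' => P.St (Fin.cons 3 q')) y =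
        cz (fun z => z = P.sY ∨ ∃ l ∈ P.sJ, z = nb P.sY (l, true)) y := by
      apply cz_congr
      intro δ
      rw [St_iff]
      constructor
      · rintro (⟨-, h2⟩ | ⟨h1, -⟩)
        · exact h2
        · omega
      · intro h2
        exact Or.inl ⟨rfl, h2⟩
    rw [if_neg a1, if_neg a2, a3]
    rcases star_out P.sY P.sJ y hy1 hy2 with h1 | ⟨h1, -⟩ <;> omega
  · by_cases h4 : b = 4
    · subst h4
      have hy1 : y ≠ P.sY := fun e => h (Or.inr ⟨rfl, e⟩)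
      have a1 : ¬ P.St (Fin.cons (4 + 1) y) := by
        rw [St_iff]; omega
      have a3 : cz (fun q' => P.St (Fin.cons 4 q')) y ≤ 1 := by
        apply cz_le_one
        intro δ δ' hδ hδ'
        rw [St_iff] at hδ hδ'
        rcases hδ with ⟨h1, -⟩ | ⟨-, h2⟩
        · omega
        · rcases hδ' with ⟨h1, -⟩ | ⟨-, h2'⟩
          · omega
          · have e := h2.trans h2'.symm
            obtain ⟨i, s⟩ := δ
            obtain ⟨i', s'⟩ := δ'
            have e1 := congrFun e i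
            rw [nb_self] at e1
            by_cases hi : i = i'
            · subst hi
              rw [nb_self] at e1
              cases s <;> cases s' <;> simp at e1 ⊢
            · rw [nb_other _ _ hi] at e1
              cases s <;> simp at e1
      rw [if_neg a1]
      split_ifs <;> omega
    · have a3 : cz (fun q' => P.St (Fin.cons b q')) y = 0 := by
        apply cz_eq_zero
        intro δ
        rw [St_iff]; omega
      rw [a3]
      split_ifs <;> omega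

/-- the start cell and its seeds, at the height `3` -/
theorem start_lo {p : Fin (D + 2) → ℤ} (h : ¬ P.St p) (hb : p 0 = 3) :
    cz P.St p ≤ 1 ∨ ∃ l : Fin (D + 1),
      (l = 0 ∨ ∃ i : Fin D, l = i.succ ∧ P.T (nb (P.v 0) (i, true))) ∧ ∃ l' : Fin (D + 1),
      (l' = 0 ∨ ∃ i : Fin D, l' = i.succ ∧ P.T (nb (P.v 0) (i, true))) ∧ l ≠ l' ∧
      Fin.tail p = nb (nb (Fin.cons (P.e 0) (P.v 0) : Fin (D + 1) → ℤ) (l, true)) (l', true) := by
  obtain ⟨b, y, rfl⟩ : ∃ b y, p = Fin.cons b y := ⟨p 0, Fin.tail p, (Fin.cons_self_tail p).symm⟩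
  simp only [Fin.cons_zero] at hb
  subst hb
  rw [St_iff] at h
  rw [cz_cons, Fin.tail_cons]
  have hy1 : y ≠ P.sY := fun e => h (Or.inl ⟨rfl, Or.inl e⟩)
  have hy2 : ∀ l ∈ P.sJ, y ≠ nb P.sY (l, true) :=
    fun l hl e => h (Or.inl ⟨rfl, Or.inr ⟨l, hl, e⟩⟩)
  have a1 : ¬ P.St (Fin.cons (3 + 1) y) := by
    rw [St_iff]
    rintro (⟨h1, -⟩ | ⟨-, h2⟩)
    · omega
    · exact hy1 h2
  have a2 : ¬ P.St (Fin.cons (3 - 1) y) := by
    rw [St_iff]; omega
  have a3 : cz (fun q' => P.St (Fin.cons 3 q')) y =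
      cz (fun z => z = P.sY ∨ ∃ l ∈ P.sJ, z = nb P.sY (l, true)) y := by
    apply cz_congr
    intro δ
    rw [St_iff]
    constructor
    · rintro (⟨-, h2⟩ | ⟨h1, -⟩)
      · exact h2
      · omega
    · intro h2
      exact Or.inl ⟨rfl, h2⟩
  rw [if_neg a1, if_neg a2, a3]
  rcases star_out P.sY P.sJ y hy1 hy2 with h1 | ⟨-, l, hl, l', hl', hne, e⟩
  · left; omega
  · right
    rw [mem_sJ] at hl hl'
    exact ⟨l, hl, l', hl', hne, e⟩

/-- all link cells near a cell outside belong to the start cell and its seeds, or to one wire -/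
theorem l_dich {p : Fin (D + 2) → ℤ} (h1 : ¬ P.LC p) (h2 : ¬ P.LS p) (h3 : ¬ P.FP p) :
    (¬ P.St p ∧ (∃ δ, P.St (nb p δ)) ∧
        cz (fun q => P.LC q ∨ P.LS q) p ≤ cz P.St p) ∨
      (∃ g < P.M, ¬ WC 3 (P.L - 2) (P.X g) p ∧ ¬ WS 3 (P.L - 2) (P.X g) (P.J g) p ∧
        (∃ δ, P.W g (nb p δ)) ∧
        cz (fun q => P.LC q ∨ P.LS q) p ≤
          cz (fun q => WC 3 (P.L - 2) (P.X g) q ∨ WS 3 (P.L - 2) (P.X g) (P.J g) q) p) ∨
      cz (fun q => P.LC q ∨ P.LS q) p = 0 := by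
  have hSt : ¬ P.St p := by
    rintro (h | h)
    · exact h1 (Or.inl h)
    · exact h2 (Or.inl h)
  have hW : ∀ g < P.M, ¬ WC 3 (P.L - 2) (P.X g) p := by
    intro g hg h
    by_cases hg1 : g + 1 < P.M
    · exact h1 (Or.inr ⟨g, hg1, h⟩)
    · have e : g = P.M - 1 := by omega
      subst e
      exact h3 h
  have hW' : ∀ g < P.M, ¬ WS 3 (P.L - 2) (P.X g) (P.J g) p :=
    fun g hg h => h2 (Or.inr ⟨g, hg, h⟩)
  have split : ∀ q, P.LC q ∨ P.LS q → P.St q ∨ ∃ g < P.M, P.W g q := by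
    rintro q ((h | ⟨g, hg, h⟩) | (h | ⟨g, hg, h⟩))
    · exact Or.inl (Or.inl h)
    · exact Or.inr ⟨g, by omega, Or.inl h⟩
    · exact Or.inl (Or.inr h)
    · exact Or.inr ⟨g, hg, Or.inr h⟩
  by_cases hA : ∃ δ, P.St (nb p δ)
  · obtain ⟨δ0, hδ0⟩ := hA
    refine Or.inl ⟨hSt, ⟨δ0, hδ0⟩, cz_mono fun δ hδ => ?_⟩
    rcases split _ hδ with h | ⟨g, hg, h⟩
    · exact h
    · exact (P.near_start hg h hδ0 (near_nb_nb p δ δ0)).elim
  · by_cases hB : ∃ δ, ∃ g < P.M, P.W g (nb p δ)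
    · obtain ⟨δ0, g, hg, hδ0⟩ := hB
      refine Or.inr (Or.inl ⟨g, hg, hW g hg, hW' g hg, ⟨δ0, hδ0⟩, cz_mono fun δ hδ => ?_⟩)
      rcases split _ hδ with h | ⟨g', hg', h⟩
      · exact absurd ⟨δ, h⟩ hA
      · have e := P.near_unique hg hg' hδ0 h (near_nb_nb p δ0 δ)
        subst e
        exact h
    · refine Or.inr (Or.inr (cz_eq_zero fun δ hδ => ?_))
      rcases split _ hδ with h | ⟨g, hg, h⟩
      · exact hA ⟨δ, h⟩
      · exact hB ⟨δ, g, hg, h⟩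

theorem l_two {p : Fin (D + 2) → ℤ} (h1 : ¬ P.LC p) (h2 : ¬ P.LS p) (h3 : ¬ P.FP p) :
    cz (fun q => P.LC q ∨ P.LS q) p ≤ 2 := by
  rcases P.l_dich h1 h2 h3 with ⟨h, -, hle⟩ | ⟨g, hg, h4, h5, -, hle⟩ | h0
  · exact hle.trans (P.start_two h)
  · exact hle.trans (wire_two (P.wire3 g hg) h4 h5)
  · omega

end Plan

end Pool.Agent.Lib.MP_1a3405_co.BT
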