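import Mathlib
import Pool.Agent.Lib.MP_1a3405_co.BT.LTwo
import Pool.Agent.Lib.MP_1a3405_co.BT.LSlice

/-!
The cells outside of the links at the two end heights `3`, `L - 2` see at most one link cell,
with known exceptions.
-/

namespace Pool.Agent.Lib.MP_1a3405_co.BT

open Pool.Agent.Lib.MP_1a3405_co Pool.Agent.Lib.MP_1a3405_co.Ord
open Pool.Agent.Lib.MP_1a3405_co.BP

namespace Plan

variable {D r : ℕ} (P : Plan D r)

/-- only one upper neighbour in the pattern -/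
theorem up_one {y : Fin D → ℤ} (hT : P.T y) {i i' : Fin D} (h : P.T (nb y (i, true)))
    (h' : P.T (nb y (i', true))) : i = i' := by
  have h1 : {i : Fin D | P.T (nb y (i, true))}.ncard = 1 :=
    (P.T_up y hT).trans (by have := P.hr; omega)
  rw [Set.ncard_eq_one] at h1
  obtain ⟨k, hk⟩ := h1
  have e : i ∈ ({k} : Set (Fin D)) := hk ▸ h
  have e' : i' ∈ ({k} : Set (Fin D)) := hk ▸ h'
  rw [Set.mem_singleton_iff] at e e'
  rw [e, e']

/-- the directions at an end -/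
theorem end_dirs {y : Fin D → ℤ} (hT : P.T y) {c : ℤ} {Z q : Fin (D + 1) → ℤ}
    (hZ : Z = Fin.cons c y) {J : Fin (D + 1) → Prop}
    (hJ : ∀ l, J l ↔ l = 0 ∨ ∃ i : Fin D, l = i.succ ∧ P.T (nb y (i, true)))
    (h : (∃ l, J l ∧ ∃ l', J l' ∧ l ≠ l' ∧ q = nb (nb Z (l, true)) (l', true)) ∨
      (∃ l, ¬ J l ∧ q = nb Z (l, true))) :
    (∃ i : Fin D, P.T (nb y (i, true)) ∧ q = Fin.cons (c + 1) (nb y (i, true))) ∨
      (∃ i : Fin D, ¬ P.T (nb y (i, true)) ∧ q = Fin.cons c (nb y (i, true))) := by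
  subst hZ
  have c0 : nb (Fin.cons c y : Fin (D + 1) → ℤ) (0, true) = Fin.cons (c + 1) y := by
    rw [nb_cons_zero]; rfl
  have cs : ∀ (c' : ℤ) (i : Fin D), nb (Fin.cons c' y : Fin (D + 1) → ℤ) (i.succ, true) =
      Fin.cons c' (nb y (i, true)) := fun c' i => by rw [nb_cons_succ]
  rcases h with ⟨l, hl, l', hl', hne, h⟩ | ⟨l, hl, h⟩
  · left
    rw [hJ] at hl hl'
    rcases hl with rfl | ⟨i, rfl, hi⟩
    · rcases hl' with rfl | ⟨i', rfl, hi'⟩
      · exact absurd rfl hne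
      · exact ⟨i', hi', by rw [h, c0, cs]⟩
    · rcases hl' with rfl | ⟨i', rfl, hi'⟩
      · refine ⟨i, hi, ?_⟩
        rw [h, cs, nb_cons_zero]
        rfl
      · exact absurd (by rw [P.up_one hT hi hi']) hne
  · right
    rw [hJ] at hl
    push Not at hl
    obtain ⟨hl0, hl1⟩ := hl
    obtain ⟨i, rfl⟩ := Fin.exists_succ_eq.2 hl0
    exact ⟨i, hl1 i rfl, by rw [h, cs]⟩

theorem l_lo {p : Fin (D + 2) → ℤ} (h1 : ¬ P.LC p) (h2 : ¬ P.LS p) (h3 : ¬ P.FP p)
    (hb : p 0 = 3) :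
    cz (fun q => P.LC q ∨ P.LS q) p ≤ 1 ∨
      (∃ g < P.M, ∃ i : Fin D, P.T (nb (P.v g) (i, true)) ∧ fib p = nb (P.v g) (i, true) ∧
        p 1 = P.e g + 1) ∨
      (∃ g < P.M, ∃ i : Fin D, ¬ P.T (nb (P.v g) (i, true)) ∧ fib p = nb (P.v g) (i, true)) ∨
      p 1 ≤ P.eF - 4 := by
  have hL := P.hL12
  have hM := P.M_pos
  rcases P.l_dich h1 h2 h3 with ⟨hS, -, hle⟩ | ⟨g, hg, h4, h5, ⟨δ, hδ⟩, hle⟩ | h0
  · -- the start cell
    rcases P.start_lo hS hb with h6 | ⟨l, hl, l', hl', hne, e⟩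
    · exact Or.inl (hle.trans h6)
    · rcases P.end_dirs (P.v_T 0 hM) rfl (J := fun l => l = 0 ∨ ∃ i : Fin D, l = i.succ ∧
        P.T (nb (P.v 0) (i, true))) (fun l => Iff.rfl) (q := Fin.tail p)
        (Or.inl ⟨l, hl, l', hl', hne, e⟩) with ⟨i, hi, e⟩ | ⟨i, hi, e⟩
      · refine Or.inr (Or.inl ⟨0, hM, i, hi, ?_, ?_⟩)
        · show Fin.tail (Fin.tail p) = _
          rw [e, Fin.tail_cons]
        · show (Fin.tail p) 0 = _
          rw [e, Fin.cons_zero]
      · refine Or.inr (Or.inr (Or.inl ⟨0, hM, i, hi, ?_⟩))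
        show Fin.tail (Fin.tail p) = _
        rw [e, Fin.tail_cons]
  · by_cases hgl : g + 1 < P.M
    · rcases wire_lo (P.wire g hg) h4 h5 hb with h6 | h6
      · exact Or.inl (hle.trans h6)
      · have h7 := P.end_dirs (P.v_T (g + 1) hgl) (P.X_lo g hgl) (J := fun l => l ∈ P.J g 3)
          (P.J_lo g hgl) (q := Fin.tail p) (by
            rcases h6 with ⟨l, hl, l', hl', hne, e⟩ | ⟨l, hl, e⟩
            · exact Or.inl ⟨l, hl, l', hl', hne, e⟩
            · exact Or.inr ⟨l, hl, e⟩)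
        rcases h7 with ⟨i, hi, e⟩ | ⟨i, hi, e⟩
        · refine Or.inr (Or.inl ⟨g + 1, hgl, i, hi, ?_, ?_⟩)
          · show Fin.tail (Fin.tail p) = _
            rw [e, Fin.tail_cons]
          · show (Fin.tail p) 0 = _
            rw [e, Fin.cons_zero]
        · refine Or.inr (Or.inr (Or.inl ⟨g + 1, hgl, i, hi, ?_⟩))
          show Fin.tail (Fin.tail p) = _
          rw [e, Fin.tail_cons]
    · -- the final wire
      right; right; right
      have e : g = P.M - 1 := by omega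
      subst e
      have hX3 : P.X (P.M - 1) 3 0 = P.aF := by rw [P.X_last]; rfl
      have hXc : ∀ b, b ≤ 5 → P.X (P.M - 1) b 0 = P.aF := by
        intro b hb5
        rw [(P.wire _ hg).lo_const b (by omega), hX3]
      have haF := P.aF_lt
      have hcol : nb p δ 1 ≤ P.aF + 1 := by
        have hn := nb_near p δ 0
        rcases hδ with hδ | hδ
        · obtain ⟨-, -, h6⟩ := hδ
          have h7 : nb p δ 1 = Fin.tail (nb p δ) 0 := rfl
          rcases h6 with h6 | h6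
          · rw [h7, h6, hXc _ (by omega)]; omega
          · rw [h7, h6, hXc _ (by omega)]; omega
        · obtain ⟨-, -, l, -, h6⟩ := hδ
          have h7 : nb p δ 1 = Fin.tail (nb p δ) 0 := rfl
          rcases h6 with h6 | h6
          · rw [h7, h6]
            have := nb_near (P.X (P.M - 1) (nb p δ 0)) (l, true) 0
            rw [hXc _ (by omega)] at this
            omega
          · rw [h7, h6]
            have := nb_near (P.X (P.M - 1) (nb p δ 0 + 1)) (l, true) 0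
            rw [hXc _ (by omega)] at this
            omega
      have hn := nb_near p δ 1
      omega
  · left; omega

theorem l_hi {p : Fin (D + 2) → ℤ} (h1 : ¬ P.LC p) (h2 : ¬ P.LS p) (h3 : ¬ P.FP p)
    (hb : p 0 = P.L - 2) :
    cz (fun q => P.LC q ∨ P.LS q) p ≤ 1 ∨
      (∃ g < P.M, ∃ i : Fin D, P.T (nb (P.v g) (i, true)) ∧ fib p = nb (P.v g) (i, true) ∧
        p 1 = P.x g + 1) ∨
      (∃ g < P.M, ∃ i : Fin D, ¬ P.T (nb (P.v g) (i, true)) ∧
        fib p = nb (P.v g) (i, true)) := by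
  have hL := P.hL12
  have hM := P.M_pos
  rcases P.l_dich h1 h2 h3 with ⟨hS, ⟨δ, hδ⟩, hle⟩ | ⟨g, hg, h4, h5, ⟨δ, hδ⟩, hle⟩ | h0
  · -- the start cell
    exfalso
    have hn := nb_near p δ 0
    have h6 : nb p δ 0 ≤ 4 := by
      rcases hδ with hδ | hδ | hδ | ⟨i, -, hδ⟩
      · rw [hδ]; show (3 : ℤ) ≤ 4; norm_num
      · rw [hδ]; exact le_rfl
      · rw [hδ]; show (3 : ℤ) ≤ 4; norm_num
      · rw [hδ]; show (3 : ℤ) ≤ 4; norm_num
    omega
  · rcases wire_hi (P.wire g hg) h4 h5 hb with h6 | h6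
    · exact Or.inl (hle.trans h6)
    · have h7 := P.end_dirs (P.v_T g hg) (P.X_hi g hg) (J := fun l => l ∈ P.J g (P.L - 2))
        (P.J_hi g hg) (q := Fin.tail p) (by
          rcases h6 with ⟨l, hl, l', hl', hne, e⟩ | ⟨l, hl, e⟩
          · exact Or.inl ⟨l, hl, l', hl', hne, e⟩
          · exact Or.inr ⟨l, hl, e⟩)
      rcases h7 with ⟨i, hi, e⟩ | ⟨i, hi, e⟩
      · refine Or.inr (Or.inl ⟨g, hg, i, hi, ?_, ?_⟩)
        · show Fin.tail (Fin.tail p) = _
          rw [e, Fin.tail_cons]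
        · show (Fin.tail p) 0 = _
          rw [e, Fin.cons_zero]
      · refine Or.inr (Or.inr ⟨g, hg, i, hi, ?_⟩)
        show Fin.tail (Fin.tail p) = _
        rw [e, Fin.tail_cons]
  · left; omega

end Plan

end Pool.Agent.Lib.MP_1a3405_co.BT
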