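import Mathlib
import Pool.Agent.Lib.MP_1a3405_co.BT.Defs
import Pool.Agent.Lib.MP_1a3405_co.BT.GCount
import Pool.Agent.Lib.MP_1a3405_co.BP.SkelA

/-!
Near the walls (points with at most `r` coordinates `≠ 1`): a point outside of the skeleton and
of the seeds sees at most `r - 1` points of the skeleton, the seeds and the chain.

Proof. `p` has a coordinate equal to `1` (the dimension is `D + 2 ≥ r + 1`), so by `box_c`,
`box_s` its only neighbours in the structure are seeds of the final wire, of height `≥ 8`.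
If there is none: `skel_stable`. If there is one: `p 0 ≥ 7`, so `p` (not being in the skeleton)
has exactly `r` coordinates `≠ 1`, one of them `p 0`. The seed is `q = (b; Z + e_l)`, where `Z`
(position of the final wire) is at least `P* = (2; 2, …, 2, 1, …, 1)` (`r` twos: the column and
the first `r - 1` fibre coordinates) in each coordinate (`Xl_col`, `Xl_box`). So `q` has at least
`r` coordinates `≠ 1` besides `q 0`, `p` has only `r - 1`; hence `q = p + e_j` for the unique `j`
among these `r` coordinates with `p j = 1` (so there is only one such `q`), the coordinates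
`≠ 1` of `q` besides `q 0` are exactly these `r` ones, so `l` is one of them, `l ≠ j` (as
`q j = 2 = p j + 1` and `Z j ≥ 2`) and `p l = q l ≥ 3`. So `p` has at most `r - 2` coordinates
equal to `2` (`p 0 ≥ 7`, `p l ≥ 3`) and by `skel_twos` it sees at most `r - 2` skeleton points.
-/

namespace Pool.Agent.Lib.MP_1a3405_co.BT

open Pool.Agent.Lib.MP_1a3405_co Pool.Agent.Lib.MP_1a3405_co.Ord
open Pool.Agent.Lib.MP_1a3405_co.BP

namespace Plan

variable {D r : ℕ} (P : Plan D r)

/-- the position of a seed of the final wire (after the translation) -/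
private lemma seed_pos {q : Fin (D + 2) → ℤ}
    (h : WS 3 (P.L - 2) (P.X (P.M - 1)) (P.J (P.M - 1)) (q - P.w)) :
    ∃ (Z : Fin (D + 1) → ℤ) (l : Fin (D + 1)), (∀ c : Fin (D + 1), (c : ℕ) < r → 2 ≤ Z c) ∧
      (∀ c, 1 ≤ Z c) ∧ ∀ c, q (Fin.succ c) = nb Z (l, true) c := by
  obtain ⟨-, -, l, -, hl⟩ := h
  have hw0 : (Fin.tail P.w : Fin (D + 1) → ℤ) 0 = 2 - P.aF := rfl
  have hwj : ∀ j : Fin D, (Fin.tail P.w : Fin (D + 1) → ℤ) j.succ = 0 := fun j => rfl
  have hr := P.hr
  have key : ∀ b, Fin.tail (q - P.w) = nb (P.X (P.M - 1) b) (l, true) →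
      ∃ (Z : Fin (D + 1) → ℤ) (l : Fin (D + 1)), (∀ c : Fin (D + 1), (c : ℕ) < r → 2 ≤ Z c) ∧
      (∀ c, 1 ≤ Z c) ∧ ∀ c, q (Fin.succ c) = nb Z (l, true) c := by
    intro b hb
    have h2 : ∀ c : Fin (D + 1), (c : ℕ) < r → 2 ≤ (P.X (P.M - 1) b + Fin.tail P.w) c := by
      intro c
      refine Fin.cases (fun _ => ?_) (fun j hj => ?_) c
      · have := (P.Xl_col b).1
        rw [Pi.add_apply, hw0]
        omega
      · have := (P.Xl_box b j).1
        rw [Fin.val_succ] at hj
        rw [if_pos (by omega)] at this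
        rw [Pi.add_apply, hwj]
        omega
    refine ⟨P.X (P.M - 1) b + Fin.tail P.w, l, h2, ?_, ?_⟩
    · intro c
      refine Fin.cases ?_ (fun j => ?_) c
      · have := (P.Xl_col b).1
        rw [Pi.add_apply, hw0]
        omega
      · have := (P.Xl_box b j).1
        rw [Pi.add_apply, hwj]
        split_ifs at this <;> omega
    · intro c
      rw [nb_add, Pi.add_apply, ← hb]
      simp only [Fin.tail, Pi.sub_apply]
      ring
  rcases hl with hl | hl
  · exact key _ hl
  · exact key _ hl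

/-- the situation near a seed of the final wire -/
private lemma near_seed {p : Fin (D + 2) → ℤ} (hcard : {i | p i ≠ 1}.ncard = r) (h0 : p 0 ≠ 1)
    {δ : Fin (D + 2) × Bool}
    (h : WS 3 (P.L - 2) (P.X (P.M - 1)) (P.J (P.M - 1)) (nb p δ - P.w)) :
    ∃ j l : Fin (D + 1), (j : ℕ) < r ∧ p j.succ = 1 ∧
      (∀ c : Fin (D + 1), (c : ℕ) < r → c ≠ j → 2 ≤ p c.succ) ∧ δ = (j.succ, true) ∧
      3 ≤ p l.succ := by
  classical
  obtain ⟨Z, l, hZ2, hZ1, hq⟩ := P.seed_pos h
  have hrD := P.hrD
  have hge : ∀ c, Z c ≤ nb p δ (Fin.succ c) := by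
    intro c
    rw [hq c]
    by_cases hc : c = l
    · subst hc; rw [nb_self]; simp
    · rw [nb_other Z true hc]
  set N : Finset (Fin (D + 2)) := Finset.univ.filter (fun i => p i ≠ 1) with hN
  have hNc : N.card = r := by
    rw [← hcard, ← Set.ncard_coe_finset]
    congr 1
    ext i
    simp [hN]
  have hmemN : ∀ i, i ∈ N ↔ p i ≠ 1 := by intro i; simp [hN]
  set A : Finset (Fin (D + 1)) := Finset.univ.filter (fun c : Fin (D + 1) => (c : ℕ) < r) with hA
  have hAc : A.card = r := by
    rw [hA, Fin.card_filter_val_lt]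
    omega
  have hmemA : ∀ c : Fin (D + 1), c ∈ A ↔ (c : ℕ) < r := by intro i; simp [hA]
  have hS : ∀ B : Finset (Fin (D + 1)), (insert 0 (B.image Fin.succ)).card = B.card + 1 := by
    intro B
    rw [Finset.card_insert_of_notMem, Finset.card_image_of_injective _ (Fin.succ_injective _)]
    rw [Finset.mem_image]
    rintro ⟨c, -, hc⟩
    exact Fin.succ_ne_zero c hc
  -- the coordinate which changes
  have hj : ∃ j ∈ A, p (Fin.succ j) = 1 := by
    by_contra hcon
    push Not at hcon
    have : insert 0 (A.image Fin.succ) ⊆ N := by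
      intro i hi
      rw [Finset.mem_insert, Finset.mem_image] at hi
      rw [hmemN]
      rcases hi with rfl | ⟨c, hc, rfl⟩
      · exact h0
      · exact hcon c hc
    have := Finset.card_le_card this
    rw [hS, hAc, hNc] at this
    omega
  obtain ⟨j, hjA, hj1⟩ := hj
  rw [hmemA] at hjA
  have hδ : δ = (j.succ, true) := by
    have h3 := hge j
    have h4 := hZ2 j hjA
    obtain ⟨i, s⟩ := δ
    by_cases hij : j.succ = i
    · subst hij
      rw [nb_self] at h3
      cases s
      · simp only [Bool.false_eq_true, if_false] at h3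
        omega
      · rfl
    · rw [nb_other p s hij] at h3
      omega
  subst hδ
  have hoth : ∀ c : Fin (D + 1), c ≠ j → nb p (j.succ, true) c.succ = p c.succ := by
    intro c hc
    exact nb_other p true (fun h => hc (Fin.succ_injective _ h))
  have hge2 : ∀ c : Fin (D + 1), (c : ℕ) < r → c ≠ j → 2 ≤ p c.succ := by
    intro c hc hcj
    have h3 := hge c
    rw [hoth c hcj] at h3
    exact (hZ2 c hc).trans h3
  refine ⟨j, l, hjA, hj1, hge2, rfl, ?_⟩
  have hlj : l ≠ j := by
    rintro rfl
    have h3 := hq l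
    rw [nb_self, nb_self, hj1] at h3
    have h4 := hZ2 l hjA
    simp only [if_true] at h3
    omega
  have hl := hq l
  rw [hoth l hlj, nb_self] at hl
  simp only [if_true] at hl
  have hNeq : insert 0 ((A.erase j).image Fin.succ) = N := by
    apply Finset.eq_of_subset_of_card_le
    · intro i hi
      rw [Finset.mem_insert, Finset.mem_image] at hi
      rw [hmemN]
      rcases hi with rfl | ⟨c, hc, rfl⟩
      · exact h0
      · rw [Finset.mem_erase, hmemA] at hc
        have := hge2 c hc.2 hc.1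
        omega
    · rw [hS, Finset.card_erase_of_mem ((hmemA j).2 hjA), hAc, hNc]
      omega
  have hlN : l.succ ∈ N := by
    rw [hmemN]
    have := hZ1 l
    omega
  rw [← hNeq, Finset.mem_insert, Finset.mem_image] at hlN
  rcases hlN with h5 | ⟨c, hc, hcl⟩
  · exact absurd h5 (Fin.succ_ne_zero l)
  · have : c = l := Fin.succ_injective _ hcl
    subst this
    rw [Finset.mem_erase, hmemA] at hc
    have := hZ2 c hc.2
    omega

theorem wall {p : Fin (D + 2) → ℤ} (hp : InBox P.n p) (h1 : ¬ Skel r p) (h2 : ¬ P.S (p - P.w))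
    (hν : {i | p i ≠ 1}.ncard ≤ r) :
    cz (fun q => (∀ i, 1 ≤ q i) ∧ ((Skel r q ∨ P.S (q - P.w)) ∨ P.C (q - P.w))) p ≤ r - 1 := by
  classical
  have hr := P.hr
  have hrD := P.hrD
  have hr3 : 3 ≤ r := by omega
  have hp1 : ∀ i, 1 ≤ p i := fun i => (hp i).1
  -- a coordinate equal to `1`
  obtain ⟨i1, hi1⟩ : ∃ i, p i = 1 := by
    by_contra hcon
    push Not at hcon
    have : {i | p i ≠ 1} = Set.univ := Set.eq_univ_of_forall hcon
    rw [this, Set.ncard_univ, Nat.card_eq_fintype_card, Fintype.card_fin] at hν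
    omega
  have hsmall : ∀ δ, ¬ (∀ i, 5 ≤ (nb p δ - P.w + P.w) i ∧ (nb p δ - P.w + P.w) i < P.n) := by
    intro δ h
    have h3 := (h i1).1
    rw [P.sub_add_w] at h3
    have := (nb_near p δ i1).1
    omega
  have hC : ∀ δ, ¬ P.C (nb p δ - P.w) := fun δ h => hsmall δ (P.box_c h)
  have hS : ∀ δ, P.S (nb p δ - P.w) →
      WS 3 (P.L - 2) (P.X (P.M - 1)) (P.J (P.M - 1)) (nb p δ - P.w) ∧ 8 ≤ nb p δ 0 := by
    intro δ h
    rcases P.box_s h with h3 | ⟨h3, h4, -⟩
    · exact absurd h3 (hsmall δ)
    · rw [P.sub_add_w] at h4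
      exact ⟨h3, h4⟩
  by_cases hex : ∃ δ, P.S (nb p δ - P.w)
  · obtain ⟨δ₀, hδ₀⟩ := hex
    obtain ⟨hws, h8⟩ := hS δ₀ hδ₀
    have h07 : 7 ≤ p 0 := by
      have := (nb_near p δ₀ 0).1
      omega
    have h0 : p 0 ≠ 1 := by omega
    have hcard : {i | p i ≠ 1}.ncard = r := by
      by_contra hne
      apply h1
      have h3 : {i : Fin (D + 2) | p i ≠ 1}.ncard ≤ r - 1 := by omega
      refine ⟨h3, ?_⟩
      rintro ⟨-, h3⟩
      omega
    obtain ⟨j, l, hjr, hj1, hj2, -, hl⟩ := P.near_seed hcard h0 hws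
    have hone : cz (fun q => P.S (q - P.w)) p ≤ 1 := by
      apply cz_le_one
      intro δ δ' hδ hδ'
      obtain ⟨j1, l1, h3, h4, h5, rfl, -⟩ := P.near_seed hcard h0 (hS _ hδ).1
      obtain ⟨j2, l2, h6, h7, h8, rfl, -⟩ := P.near_seed hcard h0 (hS _ hδ').1
      have : j1 = j2 := by
        by_contra hne
        have := h5 j2 h6 (fun h => hne h.symm)
        omega
      rw [this]
    have htwo : {i | p i = 2}.ncard ≤ r - 2 := by
      have hsub : {i | p i = 2} ⊆ {i | p i ≠ 1} \ {0, l.succ} := by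
        intro i hi
        simp only [Set.mem_ofPred_eq] at hi
        refine ⟨by simp only [Set.mem_ofPred_eq]; omega, ?_⟩
        simp only [Set.mem_insert_iff, Set.mem_singleton_iff]
        rintro (rfl | rfl) <;> omega
      have h3 := Set.ncard_le_ncard hsub (Set.toFinite _)
      rw [Set.ncard_sdiff, hcard, Set.ncard_pair (Fin.succ_ne_zero l).symm] at h3
      · exact h3
      · rintro i (rfl | hi)
        · exact h0
        · rw [Set.mem_singleton_iff] at hi
          subst hi
          simp only [Set.mem_ofPred_eq]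
          omega
    have hskel : cz (Skel r) p ≤ {i : Fin (D + 2) | p i = 2}.ncard := skel_twos hr3 hp1 hcard
    calc cz (fun q => (∀ i, 1 ≤ q i) ∧ ((Skel r q ∨ P.S (q - P.w)) ∨ P.C (q - P.w))) p
        ≤ cz (fun q => Skel r q ∨ P.S (q - P.w)) p := by
          apply cz_mono
          rintro δ ⟨-, h | h⟩
          · exact h
          · exact absurd h (hC δ)
      _ ≤ cz (Skel r) p + cz (fun q => P.S (q - P.w)) p := cz_or_le _ _ _
      _ ≤ r - 1 := by omega
  · refine le_trans (cz_mono ?_) (skel_stable hr3 hp1 h1)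
    rintro δ ⟨h3, (h | h) | h⟩
    · exact ⟨h3, h⟩
    · exact absurd ⟨δ, h⟩ hex
    · exact absurd h (hC δ)

end Plan

end Pool.Agent.Lib.MP_1a3405_co.BT
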