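import Mathlib
import Pool.Agent.Lib.MP_1a3405_co.BT.Defs
import Pool.Agent.Lib.MP_1a3405_co.BT.CSideA
import Pool.Agent.Lib.MP_1a3405_co.BT.GStarB
import Pool.Agent.Lib.MP_1a3405_co.BT.GTwo
import Pool.Agent.Lib.MP_1a3405_co.BT.Wall

/-!
The `star` conditions of the certificate.

* Points `p` with more than `r` coordinates `≠ 1` see no skeleton point (`skel_none`), so the
  count is that of the structure: `star` for a chain cell (one of the `r` seeds and earlier cells
  is the predecessor, whose time is only one less), `two` for the others (their time is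
  `ncard + 1`, so all chain cells except `last` count).
* Points with at most `r` coordinates `≠ 1` are not chain cells (`box_c`); use `wall`.
-/

namespace Pool.Agent.Lib.MP_1a3405_co.BT

open Pool.Agent.Lib.MP_1a3405_co Pool.Agent.Lib.MP_1a3405_co.Ord
open Pool.Agent.Lib.MP_1a3405_co.BP

namespace Plan

variable {D r : ℕ} (P : Plan D r) {τ : (Fin (D + 2) → ℤ) → ℤ}

private theorem cz_lt {d : ℕ} {Q Q' : (Fin d → ℤ) → Prop} {p : Fin d → ℤ}
    (h : ∀ δ, Q (nb p δ) → Q' (nb p δ)) (δ0 : Fin d × Bool) (h1 : Q' (nb p δ0))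
    (h2 : ¬ Q (nb p δ0)) : cz Q p < cz Q' p := by
  classical
  rw [cz_eq_card, cz_eq_card]
  apply Finset.card_lt_card
  rw [Finset.ssubset_iff_of_subset]
  · exact ⟨δ0, by simpa using h1, by simpa using h2⟩
  · intro δ hδ
    simp only [Finset.mem_filter, Finset.mem_univ, true_and] at hδ ⊢
    exact h δ hδ

private theorem side_le (hτ : P.IsRank τ) (p : Fin (D + 2) → ℤ) :
    1 ≤ (P.side τ).τ p ∧ (P.side τ).τ p ≤ ({p | P.C p}.ncard : ℤ) + 1 := by
  by_cases h : P.C (p - P.w)
  · rw [P.side_τ_of_c h]
    have := hτ.range _ h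
    omega
  · rw [P.side_τ_of_not h]
    omega

/-- the neighbours with an earlier time are chain cells -/
private theorem side_early (hτ : P.IsRank τ) {p q : Fin (D + 2) → ℤ}
    (h : (P.side τ).τ q + 2 ≤ (P.side τ).τ p) :
    P.C (q - P.w) ∧ τ (q - P.w) + 2 ≤ (P.side τ).τ p := by
  have h1 := (P.side_le hτ p).2
  by_cases hc : P.C (q - P.w)
  · rw [P.side_τ_of_c hc] at h
    exact ⟨hc, h⟩
  · rw [P.side_τ_of_not hc] at h
    omega

theorem side_star (hτ : P.IsRank τ) (p : Fin (D + 2) → ℤ) (hp : InBox P.n p)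
    (hT : ¬ (P.side τ).T p) (hne : p ≠ (P.side τ).w) :
    cnt P.n (fun q => (P.side τ).T q ∨ (P.side τ).τ q + 2 ≤ (P.side τ).τ p) p < r := by
  classical
  have hr := P.hr
  have h1 : ¬ Skel r p := fun h => hT (Or.inl h)
  have h2 : ¬ P.S (p - P.w) := fun h => hT (Or.inr h)
  rw [cnt_eq_cz]
  by_cases hν : {i | p i ≠ 1}.ncard ≤ r
  · have hw := P.wall hp h1 h2 hν
    refine lt_of_le_of_lt ((cz_mono fun δ hδ => ?_).trans hw) (by omega)
    obtain ⟨hb, hq⟩ := hδ
    refine ⟨fun i => (hb i).1, ?_⟩
    rcases hq with hq | hq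
    · exact Or.inl hq
    · exact Or.inr (P.side_early hτ hq).1
  · push Not at hν
    have hsk := skel_none (r := r) (by omega) hν
    obtain ⟨p', hp'⟩ : ∃ p', p' = p - P.w := ⟨_, rfl⟩
    have hpp : p = p' + P.w := by rw [hp', P.sub_add_w]
    have hnb : ∀ δ, nb p δ - P.w = nb p' δ := by
      intro δ
      rw [hpp, nb_add, P.add_sub_w]
    rw [← hp'] at h2
    by_cases hc : P.C p'
    · have hne' : p' ≠ P.start := by
        intro h
        apply hne
        rw [hpp, h]
        rfl
      have hst := P.star hc hne'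
      refine lt_of_lt_of_le ?_ hst.le
      rw [← cz_shift _ p' P.w, ← hpp]
      have hτp : (P.side τ).τ p = τ p' := by
        rw [P.side_τ_of_c (by rw [← hp']; exact hc), ← hp']
      obtain ⟨δ0, hd1, hd2, hd3⟩ := hτ.pred p' hc hne'
      refine cz_lt (fun δ hδ => ?_) δ0 ?_ ?_
      · obtain ⟨-, hq⟩ := hδ
        rw [hnb]
        rcases hq with hq | hq
        · rcases hq with hq | hq
          · exact absurd hq (hsk δ)
          · rw [hnb] at hq
            exact Or.inl hq
        · obtain ⟨e1, e2⟩ := P.side_early hτ hq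
          rw [hnb] at e1 e2
          rw [hτp] at e2
          exact Or.inr ⟨e1, (hτ.lt p' _ hc e1).2 (by omega)⟩
      · rw [hnb]
        exact Or.inr ⟨hd1, hd2⟩
      · rintro ⟨-, hq | hq⟩
        · rcases hq with hq | hq
          · exact hsk δ0 hq
          · rw [hnb] at hq
            exact P.c_not_s hd1 hq
        · obtain ⟨e1, e2⟩ := P.side_early hτ hq
          rw [hnb, hτp] at e2
          omega
    · have hτp : (P.side τ).τ p = ({p | P.C p}.ncard : ℤ) + 1 := by
        rw [P.side_τ_of_not (by rw [← hp']; exact hc)]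
      have htw := P.two hc h2
      refine lt_of_le_of_lt (le_trans ?_ htw) (by omega)
      rw [← cz_shift _ p' P.w, ← hpp]
      refine cz_mono fun δ hδ => ?_
      obtain ⟨-, hq⟩ := hδ
      rw [hnb]
      rcases hq with hq | hq
      · rcases hq with hq | hq
        · exact absurd hq (hsk δ)
        · rw [hnb] at hq
          exact Or.inl hq
      · obtain ⟨e1, e2⟩ := P.side_early hτ hq
        rw [hnb] at e1 e2
        rw [hτp] at e2
        refine Or.inr ⟨e1, fun he => ?_⟩
        have := hτ.last
        rw [he, this] at e2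
        omega

theorem side_star_w (hτ : P.IsRank τ) :
    cnt P.n (fun q => (P.side τ).T q ∨ (P.side τ).τ q + 2 ≤ (P.side τ).τ (P.side τ).w)
      (P.side τ).w ≤ r := by
  classical
  have hr := P.hr
  have hrD := P.hrD
  have hbox := P.box_c P.c_start
  have hν : r < {i | (P.start + P.w) i ≠ 1}.ncard := by
    have he : {i | (P.start + P.w) i ≠ 1} = Set.univ := by
      ext i
      simp only [Set.mem_ofPred_eq, Set.mem_univ, iff_true]
      have := (hbox i).1
      omega
    rw [he, Set.ncard_univ, Nat.card_eq_fintype_card, Fintype.card_fin]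
    omega
  have hsk := skel_none (r := r) (by omega) hν
  have hw : (P.side τ).w = P.start + P.w := rfl
  rw [hw, cnt_eq_cz, P.side_τ_add P.c_start, hτ.start]
  refine le_trans ?_ P.star_start.le
  rw [← cz_shift _ P.start P.w]
  refine cz_mono fun δ hδ => ?_
  obtain ⟨-, hq⟩ := hδ
  rcases hq with hq | hq
  · rcases hq with hq | hq
    · exact absurd hq (hsk δ)
    · exact hq
  · have := (P.side_le hτ (nb (P.start + P.w) δ)).1
    omega

end Plan

end Pool.Agent.Lib.MP_1a3405_co.BT
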