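import Mathlib
import Pool.Agent.Lib.MP_1a3405_co.BP.RFace
import Pool.Agent.Lib.MP_1a3405_co.BT.Sets

/-!
For `r = 3`, a pattern fibre which is neither active nor a face has at most one neighbour which
is active or a face.
-/

namespace Pool.Agent.Lib.MP_1a3405_co.BT

open Pool.Agent.Lib.MP_1a3405_co Pool.Agent.Lib.MP_1a3405_co.Ord
open Pool.Agent.Lib.MP_1a3405_co.BP

namespace Rooms

variable {D r : ℕ} (R : BP.Rooms D r)

/-- `z` is in the room `k`, all coordinates except possibly `i` in the block -/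
private def InR (k : ℕ) (i : Fin D) (z : Fin D → ℤ) : Prop :=
  R.org k i ≤ z i ∧ z i ≤ R.org k i + R.B ∧
    ∀ j, j ≠ i → R.org k j + 1 ≤ z j ∧ z j ≤ R.org k j + R.B

private lemma inR_all {k : ℕ} {i : Fin D} {z : Fin D → ℤ} (h : InR R k i z) (j : Fin D) :
    R.org k j ≤ z j ∧ z j ≤ R.org k j + R.B := by
  by_cases hj : j = i
  · subst hj; exact ⟨h.1, h.2.1⟩
  · have := h.2.2 j hj
    exact ⟨by omega, this.2⟩

private lemma v_box' {g : ℕ} (j : Fin D) :
    R.org (R.rm g) j + 1 ≤ R.v g j ∧ R.v g j ≤ R.org (R.rm g) j + R.B := by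
  have := R.u_box (R.ti g) (R.ti_lt g) j
  unfold BP.Rooms.v
  constructor <;> omega

private lemma room_eq {k l : ℕ} (hk : k < R.K) (hl : l < R.K) {z z' : Fin D → ℤ}
    (hz : ∀ j, R.org k j ≤ z j ∧ z j ≤ R.org k j + R.B)
    (hz' : ∀ j, R.org l j ≤ z' j ∧ z' j ≤ R.org l j + R.B)
    (h : ∀ j, z j ≤ z' j + 2 ∧ z' j ≤ z j + 2) : k = l := by
  by_contra hne
  obtain ⟨j, hj⟩ := R.org_far hk hl hne
  have h1 := hz j
  have h2 := hz' j
  have h3 := h j
  have hm := R.hm
  have hm' : (1 : ℤ) ≤ (R.m : ℤ) := by exact_mod_cast hm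
  unfold BP.Rooms.Cs at hj
  rcases abs_cases (R.org k j - R.org l j) with h4 | h4 <;> omega

/-- active fibres and faces are in a room -/
private lemma q_inR (hD : 0 < D) {z : Fin D → ℤ} (h : R.F z ∨ ∃ g < R.M, R.v g = z) :
    ∃ k < R.K, ∃ i, InR R k i z := by
  rcases h with ⟨-, k, hk, i, hi, hj⟩ | ⟨g, hg, rfl⟩
  · have := R.B_pos
    exact ⟨k, hk, i, by omega, by omega, hj⟩
  · refine ⟨R.rm g, R.rm_lt hg, ⟨0, hD⟩, ?_, ?_, ?_⟩
    · have := v_box' R (g := g) ⟨0, hD⟩; omega
    · have := v_box' R (g := g) ⟨0, hD⟩; omega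
    · intro j _; exact v_box' R (g := g) j

private lemma not_inR {y : Fin D → ℤ} (hT : R.T y) (hF : ¬ R.F y) (hv : ∀ g < R.M, R.v g ≠ y)
    {k : ℕ} (hk : k < R.K) (i : Fin D) : ¬ InR R k i y := by
  rintro ⟨h1, h2, h3⟩
  rcases h1.eq_or_lt with h4 | h4
  · exact hF ⟨hT, k, hk, i, h4.symm, h3⟩
  · have hall : ∀ j, R.org k j + 1 ≤ y j ∧ y j ≤ R.org k j + R.B := by
      intro j
      by_cases h : j = i
      · subst h; omega
      · exact h3 j h
    have hT' : R.T (fun j => y j - R.org k j) := by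
      rw [← R.T_org k]
      convert hT using 2
      ring
    obtain ⟨t, ht, hu⟩ := R.u_surj _ hT' (fun j => by have := hall j; constructor <;> omega)
    refine hv (k * R.N + t) (R.lt_M hk ht) ?_
    funext j
    unfold BP.Rooms.v
    rw [(R.rm_ti ht).1, (R.rm_ti ht).2, hu]
    ring

theorem out_one (hr3 : r = 3) : ∀ y, R.T y → ¬ R.F y → (∀ g < R.M, R.v g ≠ y) →
    cz (fun z => R.F z ∨ ∃ g < R.M, R.v g = z) y ≤ 1 := by
  classical
  intro y hT hF hv
  have hD : 0 < D := by have := R.hr; have := R.hrD; omega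
  -- the sign of a direction
  have sgn : ∀ k < R.K, ∀ (i : Fin D) (s : Bool), (∃ i1, InR R k i1 (nb y (i, s))) →
      (s = true → y i ≤ R.org k i) ∧ (s = false → R.org k i + R.B + 1 ≤ y i) := by
    rintro k hk i s ⟨i1, hi1⟩
    have hiB : ¬ (R.org k i + 1 ≤ y i ∧ y i ≤ R.org k i + R.B) := by
      intro hgood
      apply not_inR R hT hF hv hk i1
      refine ⟨?_, ?_, ?_⟩
      · by_cases h : i1 = i
        · subst h; omega
        · have := hi1.1; rwa [nb_other y s h] at this
      · by_cases h : i1 = i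
        · subst h; omega
        · have := hi1.2.1; rwa [nb_other y s h] at this
      · intro j hj
        by_cases h : j = i
        · subst h; exact hgood
        · have := hi1.2.2 j hj; rwa [nb_other y s h] at this
    have h1 := inR_all R hi1 i
    rw [nb_self] at h1
    have hB := R.B_pos
    cases s
    · simp only [Bool.false_eq_true, if_false] at h1
      refine ⟨fun h => absurd h (by simp), fun _ => ?_⟩
      omega
    · simp only [if_true] at h1
      refine ⟨fun _ => ?_, fun h => absurd h (by simp)⟩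
      omega
  -- different signs are impossible
  have diff : ∀ i i' : Fin D, (R.F (nb y (i, true)) ∨ ∃ g < R.M, R.v g = nb y (i, true)) →
      (R.F (nb y (i', false)) ∨ ∃ g < R.M, R.v g = nb y (i', false)) → False := by
    intro i i' h h'
    obtain ⟨k, hk, i1, h1⟩ := q_inR R hD h
    obtain ⟨l, hl, i2, h2⟩ := q_inR R hD h'
    have e : k = l := by
      apply room_eq R hk hl (z := nb y (i, true)) (z' := nb y (i', false)) (inR_all R h1)
        (inR_all R h2)
      intro j
      have := nb_near y (i, true) j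
      have := nb_near y (i', false) j
      omega
    subst e
    have s1 := (sgn k hk i true ⟨i1, h1⟩).1 rfl
    have s2 := (sgn k hk i' false ⟨i2, h2⟩).2 rfl
    have hB := R.B_pos
    by_cases hii : i' = i
    · subst hii
      omega
    · have h3 := inR_all R h1 i'
      rw [nb_other y true hii] at h3
      omega
  have hTq : ∀ z, (R.F z ∨ ∃ g < R.M, R.v g = z) → R.T z := by
    rintro z (h | ⟨g, hg, rfl⟩)
    · exact h.1
    · exact R.v_T g hg
  have one : ∀ s : Bool, ∀ i i' : Fin D, R.T (nb y (i, s)) → R.T (nb y (i', s)) → i = i' := by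
    intro s i i' h h'
    have h1 : {i : Fin D | R.T (nb y (i, s))}.ncard = 1 := by
      cases s
      · exact (R.T_dn y hT).trans (by omega)
      · exact (R.T_up y hT).trans (by omega)
    rw [Set.ncard_eq_one] at h1
    obtain ⟨k, hk⟩ := h1
    have e : i ∈ ({k} : Set (Fin D)) := hk ▸ h
    have e' : i' ∈ ({k} : Set (Fin D)) := hk ▸ h'
    rw [Set.mem_singleton_iff] at e e'
    rw [e, e']
  refine cz_le_one ?_
  rintro ⟨i, s⟩ ⟨i', s'⟩ h h'
  cases s <;> cases s'
  · rw [one false i i' (hTq _ h) (hTq _ h')]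
  · exact (diff i' i h' h).elim
  · exact (diff i i' h h').elim
  · rw [one true i i' (hTq _ h) (hTq _ h')]

end Rooms

end Pool.Agent.Lib.MP_1a3405_co.BT
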