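import Mathlib
import Pool.Agent.Lib.MP_1a3405_co.BP.RWireA
import Pool.Agent.Lib.MP_1a3405_co.BT.WExist

/-!
The wires (`Wire3`) inside a room.
-/

namespace Pool.Agent.Lib.MP_1a3405_co.BT

open Pool.Agent.Lib.MP_1a3405_co Pool.Agent.Lib.MP_1a3405_co.Ord
open Pool.Agent.Lib.MP_1a3405_co.BP

/-- a wire along a walk in a region -/
theorem wire_of_walk {E r : ℕ} (hr : 1 ≤ r) (hE : r ≤ E) (L : ℤ) (W : (Fin E → ℤ) → Prop)
    (ℓ : ℕ) (y : ℕ → Fin E → ℤ) (hw : IsWalk ℓ y) (hlen : 5 * (ℓ : ℤ) + 17 ≤ L)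
    (hW : ∀ j ≤ ℓ, W (y j))
    (Jlo Jhi : Finset (Fin E)) (hlo : Jlo.card = r - 1) (hhi : Jhi.card = r - 1) :
    ∃ (X : ℤ → Fin E → ℤ) (J : ℤ → Finset (Fin E)), Wire3 r 3 (L - 2) X J ∧
      X (L - 2) = y 0 ∧ X 3 = y ℓ ∧ J 3 = Jlo ∧ J (L - 2) = Jhi ∧ ∀ b, W (X b) := by
  obtain ⟨X, J, h1, h2, h3, h4, h5, h6⟩ :=
    exists_wire hr hE 3 (L - 2) ℓ y hw (by linarith) Jlo Jhi hlo hhi
  refine ⟨X, J, h1, h2, h3, h4, h5, fun b => ?_⟩
  obtain ⟨j, hj, hb⟩ := h6 b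
  rw [hb]
  exact hW j hj

namespace Rooms

variable {D r : ℕ} (R : BP.Rooms D r)

theorem exists_wire_inside {g : ℕ} (hg : g < R.M) (ht : R.ti g + 1 < R.N) (L : ℤ)
    (hL : 100 * (D + 2) * (R.B + 14 * R.m + R.N + 10) ≤ L) :
    g + 1 < R.M ∧ ∃ (X : ℤ → Fin (D + 1) → ℤ) (J : ℤ → Finset (Fin (D + 1))),
      Wire3 r 3 (L - 2) X J ∧ X (L - 2) = Fin.cons (R.x g) (R.v g) ∧
      X 3 = Fin.cons (R.e (g + 1)) (R.v (g + 1)) ∧
      (∀ l, l ∈ J (L - 2) ↔ l = 0 ∨ ∃ i : Fin D, l = i.succ ∧ R.T (nb (R.v g) (i, true))) ∧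
      (∀ l, l ∈ J 3 ↔ l = 0 ∨ ∃ i : Fin D, l = i.succ ∧ R.T (nb (R.v (g + 1)) (i, true))) ∧
      ∀ b, R.Reg g (X b) := by
  have hgk := R.rm_lt hg
  have hg1 : g + 1 = R.rm g * R.N + (R.ti g + 1) := by
    have := R.g_eq g
    omega
  obtain ⟨hrm, hti⟩ := R.rm_ti (k := R.rm g) (t := R.ti g + 1) ht
  rw [← hg1] at hrm hti
  refine ⟨by rw [hg1]; exact R.lt_M hgk ht, ?_⟩
  have he : R.e (g + 1) = R.x g := by
    rw [BP.Rooms.e, hti, if_neg (by omega), BP.Rooms.x]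
    push_cast
    ring
  have hv1 := R.v_box_rm g
  have hv2 := R.v_box_rm (g + 1)
  rw [hrm] at hv2
  obtain ⟨Jhi, hJhi, hJhi'⟩ := R.exists_dirs (R.v_mem_T g)
  obtain ⟨Jlo, hJlo, hJlo'⟩ := R.exists_dirs (R.v_mem_T (g + 1))
  obtain ⟨ℓ, y, hy, hy0, hy1, hℓ, hyb⟩ :=
    exists_walk (Fin.cons (R.x g) (R.v g) : Fin (D + 1) → ℤ) (Fin.cons (R.x g) (R.v (g + 1)))
  have hlen : (ℓ : ℤ) ≤ D * R.B := by
    rw [hℓ, Fin.sum_univ_succ]
    simp only [Fin.cons_zero, sub_self, abs_zero, zero_add, Fin.cons_succ]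
    calc ∑ i : Fin D, |R.v g i - R.v (g + 1) i| ≤ ∑ _i : Fin D, R.B := by
          apply Finset.sum_le_sum
          intro i _
          rw [abs_le]
          constructor <;> linarith [(hv1 i).1, (hv1 i).2, (hv2 i).1, (hv2 i).2]
      _ = D * R.B := by simp
  have hB := R.B_pos
  have hlen' : 5 * (ℓ : ℤ) + 17 ≤ L := by
    have h1 : (0 : ℤ) ≤ D := Int.natCast_nonneg D
    have h2 : (0 : ℤ) ≤ R.m := Int.natCast_nonneg _
    have h3 : (0 : ℤ) ≤ R.N := Int.natCast_nonneg _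
    nlinarith [mul_nonneg h1 h2, mul_nonneg h1 h3, mul_nonneg h1 (by linarith : 0 ≤ R.B)]
  obtain ⟨X, J, h1, h2, h3, h4, h5, h6⟩ := wire_of_walk (r := r) (by have := R.hr; omega) R.hrD L
    (R.Reg g) ℓ y hy hlen' (fun j hj => by
      have hb := hyb j hj
      rw [BP.Rooms.Reg, if_pos ht, BP.Rooms.RegI]
      constructor
      · have := hb 0
        simp only [Fin.cons_zero, min_self, max_self] at this
        omega
      · intro i
        have h := hb i.succ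
        simp only [Fin.cons_succ] at h
        have a1 := hv1 i
        have a2 := hv2 i
        omega) Jlo Jhi hJlo hJhi
  refine ⟨X, J, h1, by rw [h2, hy0], by rw [h3, hy1, he], fun l => by rw [h5]; exact hJhi' l,
    fun l => by rw [h4]; exact hJlo' l, h6⟩

end Rooms

end Pool.Agent.Lib.MP_1a3405_co.BT
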