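import Mathlib
import Pool.Agent.Lib.MP_1a3405_co.BP.RWireA
import Pool.Agent.Lib.MP_1a3405_co.BT.RWireA

/-!
The final wire (`Wire3`).
-/

namespace Pool.Agent.Lib.MP_1a3405_co.BT

open Pool.Agent.Lib.MP_1a3405_co Pool.Agent.Lib.MP_1a3405_co.Ord
open Pool.Agent.Lib.MP_1a3405_co.BP

namespace Rooms

variable {D r : ℕ} (R : BP.Rooms D r)

theorem exists_wire_final {g : ℕ} (hg : g < R.M) (ht : R.ti g + 1 = R.N)
    (hk : ¬ R.rm g + 1 < R.K) (L : ℤ)
    (hL : 100 * (D + 2) * (R.B + 14 * R.m + R.N + 10) ≤ L) :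
    g + 1 = R.M ∧ ∃ (X : ℤ → Fin (D + 1) → ℤ) (J : ℤ → Finset (Fin (D + 1))),
      Wire3 r 3 (L - 2) X J ∧ X (L - 2) = Fin.cons (R.x g) (R.v g) ∧
      X 3 = Fin.cons R.aF R.xs ∧
      (∀ l, l ∈ J (L - 2) ↔ l = 0 ∨ ∃ i : Fin D, l = i.succ ∧ R.T (nb (R.v g) (i, true))) ∧
      ∀ b, R.Reg g (X b) := by
  have hgk := R.rm_lt hg
  have hrmK : R.rm g = R.K - 1 := by omega
  have hM : g + 1 = R.M := by
    have h := R.g_eq g
    have h2 : R.rm g + 1 = R.K := by omega
    rw [BP.Rooms.M, ← h2, Nat.add_mul, one_mul]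
    omega
  refine ⟨hM, ?_⟩
  have horg : ∀ j, R.org (R.rm g) j = 6 * R.m := by
    intro j
    rw [BP.Rooms.org, hrmK, R.ρ_last, mul_zero, add_zero]
  have hx : R.x g = -12 := by
    rw [BP.Rooms.x]
    have : (R.N : ℤ) = R.ti g + 1 := by rw [← ht]; push_cast; ring
    rw [this]
    ring
  have hv := R.v_box_rm g
  have hB := R.B_pos
  have hm : (1 : ℤ) ≤ R.m := by exact_mod_cast R.hm
  have hN : (2 : ℤ) ≤ R.N := by exact_mod_cast R.hN
  have hD : (0 : ℤ) ≤ D := Int.natCast_nonneg D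
  have ho : ∀ j, R.o (R.rm g) j = 6 * R.m + R.B + 4 := by
    intro j; rw [BP.Rooms.o, horg]
  have hxs : ∀ j, 1 ≤ R.xs j ∧ R.xs j ≤ 2 := by
    intro j
    rw [BP.Rooms.xs]
    split_ifs <;> norm_num
  obtain ⟨Jhi, hJhi, hJhi'⟩ := R.exists_dirs (R.v_mem_T g)
  have hReg : ∀ p, R.RegF g p → R.Reg g p := by
    intro p hp
    rw [BP.Rooms.Reg, if_neg (by omega), if_neg hk]
    exact hp
  have haF : R.aF ≤ -12 := by rw [BP.Rooms.aF]; linarith
  -- the three walks
  obtain ⟨ℓ₀, y₀, hy₀, h00, h01, hℓ₀, hb₀⟩ :=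
    exists_walk (Fin.cons (-12) (R.v g) : Fin (D + 1) → ℤ) (Fin.cons (-12) (R.o (R.rm g)))
  have hR0 : ∀ j ≤ ℓ₀, R.Reg g (y₀ j) := by
    intro j hj
    apply hReg
    left
    have hb := hb₀ j hj
    constructor
    · have := hb 0
      simp only [Fin.cons_zero, min_self, max_self] at this
      omega
    · intro i
      have h := hb i.succ
      simp only [Fin.cons_succ, ho] at h
      have a1 := hv i
      rw [horg] at a1 ⊢
      omega
  obtain ⟨ℓ₁, y₁, hy₁, h10, h11, hℓ₁, hR1⟩ := walk_extend (R.Reg g) hy₀ hR0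
    (Fin.cons R.aF (R.o (R.rm g)) : Fin (D + 1) → ℤ) (fun z hz => by
      apply hReg
      right; left
      rw [h01] at hz
      have h := hz 0
      simp only [Fin.cons_zero] at h
      refine ⟨by omega, by omega, fun j => ?_⟩
      have h := hz j.succ
      simp only [Fin.cons_succ, min_self, max_self] at h
      omega)
  obtain ⟨ℓ₂, y₂, hy₂, h20, h21, hℓ₂, hR2⟩ := walk_extend (R.Reg g) hy₁ hR1
    (Fin.cons R.aF R.xs : Fin (D + 1) → ℤ) (fun z hz => by
      apply hReg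
      right; right
      rw [h11] at hz
      have h := hz 0
      simp only [Fin.cons_zero, min_self, max_self] at h
      refine ⟨by omega, fun j => ?_⟩
      have h := hz j.succ
      simp only [Fin.cons_succ, ho] at h
      have h2 := hxs j
      rw [ho]
      omega)
  have hl0 : (ℓ₀ : ℤ) ≤ D * (R.B + 4) := by
    rw [hℓ₀, Fin.sum_univ_succ]
    simp only [Fin.cons_zero, sub_self, abs_zero, zero_add, Fin.cons_succ]
    calc ∑ i : Fin D, |R.v g i - R.o (R.rm g) i| ≤ ∑ _i : Fin D, (R.B + 4) := by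
          apply Finset.sum_le_sum
          intro i _
          have a1 := hv i
          rw [horg] at a1
          rw [abs_le, ho]
          constructor <;> linarith [a1.1, a1.2]
      _ = D * (R.B + 4) := by simp
  have hl1 : (ℓ₁ : ℤ) ≤ D * (R.B + 4) + 6 * (R.N + 6) := by
    rw [hℓ₁, h01, Fin.sum_univ_succ]
    simp only [Fin.cons_zero, Fin.cons_succ, sub_self, abs_zero, Finset.sum_const_zero, add_zero]
    have : |(-12 : ℤ) - R.aF| ≤ 6 * (R.N + 6) := by
      rw [abs_le, BP.Rooms.aF]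
      constructor <;> linarith
    linarith
  have hl2 : (ℓ₂ : ℤ) ≤ D * (R.B + 4) + 6 * (R.N + 6) + D * (6 * R.m + R.B + 4) := by
    rw [hℓ₂, h11, Fin.sum_univ_succ]
    simp only [Fin.cons_zero, sub_self, abs_zero, zero_add, Fin.cons_succ]
    have : ∑ i : Fin D, |R.o (R.rm g) i - R.xs i| ≤ D * (6 * R.m + R.B + 4) := by
      calc ∑ i : Fin D, |R.o (R.rm g) i - R.xs i| ≤ ∑ _i : Fin D, (6 * R.m + R.B + 4) := by
            apply Finset.sum_le_sum
            intro i _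
            have h2 := hxs i
            rw [abs_le, ho]
            constructor <;> linarith [h2.1, h2.2]
        _ = D * (6 * R.m + R.B + 4) := by simp
    linarith
  have hlen' : 5 * (ℓ₂ : ℤ) + 17 ≤ L := by
    have h1 : (0 : ℤ) ≤ D * R.m := mul_nonneg hD (by linarith)
    have h2 : (0 : ℤ) ≤ D * R.N := mul_nonneg hD (by linarith)
    have h3 : (0 : ℤ) ≤ D * R.B := mul_nonneg hD (by linarith)
    nlinarith
  obtain ⟨X, J, h1, h2, h3, h4, h5, h6⟩ := wire_of_walk (r := r) (by have := R.hr; omega) R.hrD L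
    (R.Reg g) ℓ₂ y₂ hy₂ hlen' hR2 Jhi Jhi hJhi hJhi
  refine ⟨X, J, h1, by rw [h2, h20, h10, h00, hx], by rw [h3, h21], fun l => ?_, h6⟩
  rw [h5]
  exact hJhi' l

end Rooms

end Pool.Agent.Lib.MP_1a3405_co.BT
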