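import Mathlib
import Pool.Agent.Lib.MP_1a3405_co.BT.Cert
import Pool.Agent.Lib.MP_1a3405_co.BT.RPlan
import Pool.Agent.Lib.MP_1a3405_co.BP.Main

/-!
The asymptotic lower bound for `r = 3`: `liminf M([n]^d, 3) / n^d ≥ 1/(d - 2)` for `d ≥ 4`
(here `d = D + 2`).

Given `ε`, choose `β` with `(β / (β + 14))^D ≥ 1 - ε/3` and `H` with `H / (H + 4) ≥ 1 - ε/3`; for
`n → ∞` let `q` be the integer part of `(n - 6m) / (2 m (β + 14))` and `L` the largest multiple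
of `2 H + 8` with `L ≤ n - 6 N - 50`.
-/

namespace Pool.Agent.Lib.MP_1a3405_co.BT

open Pool.Agent.Lib.MP_1a3405_co Pool.Agent.Lib.MP_1a3405_co.Ord
open Pool.Agent.Lib.MP_1a3405_co.BP

theorem lower_explicit {D : ℕ} (hD : 2 ≤ D) {β q : ℕ} (hβ : 1 ≤ β)
    (hq : 1 ≤ q) (n : ℕ) (H L : ℤ) (hS : Sz H L)
    (hL : 100 * (D + 2) * (mP D 3 * β + 14 * mP D 3 + nBlock D 3 β + 10) ≤ L)
    (hLn : L + 6 * nBlock D 3 β + 50 ≤ n)
    (hqn : 6 * mP D 3 + (mP D 3 * β + 14 * mP D 3) * (2 * q) ≤ n) :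
    ((2 * q : ℤ) ^ D * nBlock D 3 β) * ar H L ≤ (maxPercTime (grid (D + 2) n) 3 : ℤ) := by
  obtain ⟨R, hRm, hRB, hRN, hRq, hRK⟩ := exists_rooms (D := D) (r := 3) (by omega) (by omega) hβ hq
  have haF : R.aF = -6 * ((nBlock D 3 β : ℤ) + 6) := by
    unfold BP.Rooms.aF
    rw [hRN]
  have hCs : R.Cs = mP D 3 * β + 14 * mP D 3 := by
    unfold BP.Rooms.Cs
    rw [hRB, hRm]
  obtain ⟨P, hPn, hPH, hPL, hPM⟩ := Rooms.exists_plan R rfl n H L hS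
    (by rw [hRB, hRm, hRN]; exact hL) (by omega)
    (by rw [haF]; omega) (by
      rw [hCs, hRm, hRq]
      have h1 : (6 * (mP D 3 : ℤ) + ((mP D 3 : ℤ) * β + 14 * mP D 3) * (2 * q)) ≤ n := by
        exact_mod_cast hqn
      push_cast
      linarith)
  have h2 := P.le_max
  rw [hPn, hPL, hPM, hPH] at h2
  have h3 : ((R.M : ℕ) : ℤ) = (2 * q : ℤ) ^ D * nBlock D 3 β := by
    unfold BP.Rooms.M
    rw [hRK, hRN]
    push_cast
    ring
  rw [h3] at h2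
  exact h2

theorem bt_lower {D : ℕ} (hD : 2 ≤ D) (ε : ℝ) (hε : 0 < ε) :
    ∃ n₀ : ℕ, ∀ n : ℕ, n₀ ≤ n →
      (1 / (D : ℝ) - ε) * (n : ℝ) ^ (D + 2) ≤ (maxPercTime (grid (D + 2) n) 3 : ℝ) := by
  have hDR : (2 : ℝ) ≤ D := by exact_mod_cast hD
  have hNB := nBlock_real (D := D) (r := 3) (by omega) (by omega)
  have hc : (((3 : ℕ) : ℝ) - 1) / (2 * D + 3 - ((3 : ℕ) : ℝ)) = 1 / (D : ℝ) := by
    have : (D : ℝ) ≠ 0 := by linarith
    push_cast
    field_simp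
    ring
  rw [hc] at hNB
  generalize hcc : 1 / (D : ℝ) = c at hNB ⊢
  have hc0 : 0 < c := by rw [← hcc]; positivity
  have hc1 : c ≤ 1 := by rw [← hcc, div_le_one (by linarith)]; linarith
  rcases le_or_gt 1 ε with h1 | h1
  · refine ⟨0, fun n _ => ?_⟩
    have : (c - ε) * (n : ℝ) ^ (D + 2) ≤ 0 :=
      mul_nonpos_of_nonpos_of_nonneg (by linarith) (by positivity)
    exact this.trans (Nat.cast_nonneg _)
  -- the parameters
  obtain ⟨β', hβ'⟩ : ∃ β : ℕ, 42 * (D : ℝ) / ε ≤ β := exists_nat_ge _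
  obtain ⟨β, hβ1, hβ⟩ : ∃ β : ℕ, 1 ≤ β ∧ 42 * (D : ℝ) / ε ≤ β :=
    ⟨β' + 1, by omega, by push_cast; linarith⟩
  obtain ⟨H', hH'⟩ : ∃ H : ℕ, 12 / ε ≤ H := exists_nat_ge _
  obtain ⟨H, hH3, hH⟩ : ∃ H : ℕ, 3 ≤ H ∧ 12 / ε ≤ H :=
    ⟨H' + 3, by omega, by push_cast; linarith⟩
  have hm2 : 2 ≤ mP D 3 := (mP_ge (by omega) (by omega)).1
  have hNBβ := hNB β
  have hlow := fun q => @lower_explicit D hD β q hβ1
  generalize nBlock D 3 β = N at hNBβ hlow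
  generalize mP D 3 = m at hm2 hNBβ hlow
  obtain ⟨P, hP⟩ : ∃ P : ℕ, P = m * β + 14 * m := ⟨_, rfl⟩
  have hP1 : 1 ≤ P := by omega
  obtain ⟨K₁, hK1⟩ : ∃ K₁ : ℕ, K₁ = 100 * (D + 2) * (P + N + 10) := ⟨_, rfl⟩
  obtain ⟨k, hk⟩ : ∃ k : ℕ, k = 6 * m + 2 * P + 6 * N + 60 + 4 * H := ⟨_, rfl⟩
  obtain ⟨n₁, hn₁⟩ : ∃ n : ℕ, ((D + 2 : ℕ) : ℝ) * k / (ε / 3) ≤ n := exists_nat_ge _
  refine ⟨K₁ + k + n₁, fun n hn => ?_⟩
  have hnk : k ≤ n := by omega
  -- the choice of q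
  obtain ⟨q, hq1, hq2, hq3⟩ : ∃ q : ℕ, 1 ≤ q ∧ 6 * m + P * (2 * q) ≤ n ∧
      n ≤ 6 * m + 2 * P + P * (2 * q) := by
    have hdm := Nat.div_add_mod (n - 6 * m) (2 * P)
    have hlt := Nat.mod_lt (n - 6 * m) (by omega : 2 * P > 0)
    refine ⟨(n - 6 * m) / (2 * P), ?_, ?_, ?_⟩
    · rw [Nat.one_le_div_iff (by omega)]
      omega
    · have e : P * (2 * ((n - 6 * m) / (2 * P))) = 2 * P * ((n - 6 * m) / (2 * P)) := by ring
      rw [e]
      omega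
    · have e : P * (2 * ((n - 6 * m) / (2 * P))) = 2 * P * ((n - 6 * m) / (2 * P)) := by ring
      rw [e]
      omega
  -- the choice of L
  obtain ⟨L, K, hL1, hK0, hL2, hL3, hL4⟩ : ∃ L K : ℕ, L = (2 * H + 8) * K ∧ 1 ≤ K ∧
      L + 6 * N + 50 ≤ n ∧ n ≤ L + 6 * N + 58 + 2 * H ∧ K₁ ≤ L := by
    have hdm := Nat.div_add_mod (n - 6 * N - 50) (2 * H + 8)
    have hlt := Nat.mod_lt (n - 6 * N - 50) (by omega : 2 * H + 8 > 0)
    refine ⟨(2 * H + 8) * ((n - 6 * N - 50) / (2 * H + 8)), (n - 6 * N - 50) / (2 * H + 8), rfl,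
      ?_, by omega, by omega, by omega⟩
    rw [Nat.one_le_div_iff (by omega)]
    omega
  have hS : Sz (H : ℤ) (L : ℤ) := ⟨by exact_mod_cast hH3, K, by exact_mod_cast hK0, by
    rw [hL1]; push_cast; ring⟩
  have har : ar (H : ℤ) (L : ℤ) = 2 * H * K * (L - 2 * H) := by
    unfold ar
    have e : (L : ℤ) / (2 * H + 8) = K := by
      rw [hL1]
      push_cast
      exact Int.mul_ediv_cancel_left K (by omega)
    rw [e]
  have hex := hlow q hq1 n H L hS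
    (by
      have : ((K₁ : ℕ) : ℤ) ≤ ((L : ℕ) : ℤ) := by exact_mod_cast hL4
      rw [hK1, hP] at this
      push_cast at this
      exact this)
    (by exact_mod_cast hL2) (by rw [← hP]; exact hq2)
  rw [har] at hex
  have hexR : ((2 * (q : ℝ)) ^ D * N) * (2 * H * K * (L - 2 * H)) ≤
      (maxPercTime (grid (D + 2) n) 3 : ℝ) := by exact_mod_cast hex
  refine le_trans ?_ hexR
  -- the estimate
  have hmR : (2 : ℝ) ≤ m := by exact_mod_cast hm2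
  have hβR : (1 : ℝ) ≤ β := by exact_mod_cast hβ1
  have hHR : (3 : ℝ) ≤ H := by exact_mod_cast hH3
  have hnkR : (k : ℝ) ≤ n := by exact_mod_cast hnk
  have hk0 : (0 : ℝ) ≤ k := Nat.cast_nonneg k
  have hkpos : (52 : ℝ) ≤ k := by
    have : 52 ≤ k := by omega
    exact_mod_cast this
  have hn0 : (0 : ℝ) < n := by linarith
  have hPR : (P : ℝ) = m * β + 14 * m := by rw [hP]; push_cast; ring
  have hkR : (k : ℝ) = 6 * m + 2 * P + 6 * N + 60 + 4 * H := by rw [hk]; push_cast; ring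
  have hN0 : (0 : ℝ) ≤ N := Nat.cast_nonneg N
  set θ : ℝ := β / (β + 14) with hθ
  have hθ0 : 0 ≤ θ := by positivity
  have hb14 : (0 : ℝ) < β + 14 := by linarith
  have hmb : (m : ℝ) * β = θ * P := by
    rw [hθ, hPR]
    field_simp
  have hq3R : (n : ℝ) ≤ 6 * m + 2 * P + P * (2 * q) := by exact_mod_cast hq3
  have hL3R : (n : ℝ) ≤ L + 6 * N + 58 + 2 * H := by exact_mod_cast hL3
  have hL1R : (L : ℝ) = (2 * H + 8) * K := by rw [hL1]; push_cast; ring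
  have hP0 : (0 : ℝ) ≤ P := Nat.cast_nonneg P
  have hA : θ * ((n : ℝ) - k) ≤ 2 * q * (m * β) := by
    rw [hmb]
    have : (n : ℝ) - k ≤ P * (2 * q) := by linarith
    calc θ * ((n : ℝ) - k) ≤ θ * (P * (2 * q)) := mul_le_mul_of_nonneg_left this hθ0
      _ = 2 * q * (θ * P) := by ring
  have hB : (n : ℝ) - k ≤ L - 2 * H := by linarith
  have hnk0 : (0 : ℝ) ≤ (n : ℝ) - k := by linarith
  have hθD : 1 - ε / 3 ≤ θ ^ D := by
    have e : θ = 1 + -(14 / (β + 14)) := by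
      rw [hθ]
      field_simp
      ring
    have h2 : -2 ≤ -(14 / ((β : ℝ) + 14)) := by
      have : 14 / ((β : ℝ) + 14) ≤ 1 := by rw [div_le_one hb14]; linarith
      linarith
    have h3 := one_add_mul_le_pow h2 D
    rw [← e] at h3
    have h4 : (D : ℝ) * (14 / (β + 14)) ≤ ε / 3 := by
      rw [← mul_div_assoc, div_le_iff₀ hb14]
      rw [div_le_iff₀ hε] at hβ
      linarith
    linarith
  -- the blocks
  set φ : ℝ := H / (H + 4) with hφ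
  have hφ0 : 0 ≤ φ := by positivity
  have hφ1 : 1 - ε / 3 ≤ φ := by
    rw [hφ, le_div_iff₀ (by linarith)]
    rw [div_le_iff₀ hε] at hH
    nlinarith
  have hHK : 2 * (H : ℝ) * K = φ * L := by
    rw [hφ, hL1R]
    field_simp
    ring
  have hB2 : φ * ((n : ℝ) - k) ^ 2 ≤ 2 * H * K * (L - 2 * H) := by
    rw [hHK]
    have h5 : (n : ℝ) - k ≤ L := by linarith
    calc φ * ((n : ℝ) - k) ^ 2 = φ * (((n : ℝ) - k) * ((n : ℝ) - k)) := by ring
      _ ≤ φ * (L * (L - 2 * H)) := by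
          refine mul_le_mul_of_nonneg_left ?_ hφ0
          exact mul_le_mul h5 hB hnk0 (by linarith)
      _ = φ * L * (L - 2 * H) := by ring
  have hC : (1 - ε / 3) * (n : ℝ) ^ (D + 2) ≤ ((n : ℝ) - k) ^ (D + 2) := by
    refine pow_sub_ge (D + 2) n k (ε / 3) hn0 hnkR hk0 ?_
    have h5 : ((D + 2 : ℕ) : ℝ) * k / (ε / 3) ≤ n := hn₁.trans (by exact_mod_cast (by omega))
    rw [div_le_iff₀ (by positivity)] at h5
    linarith
  have hD' : c * (θ ^ D * φ * ((n : ℝ) - k) ^ (D + 2)) ≤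
      ((2 * (q : ℝ)) ^ D * N) * (2 * H * K * (L - 2 * H)) := by
    rw [hNBβ]
    have e1 : (2 * (q : ℝ)) ^ D * (c * ((m : ℝ) * β) ^ D) * (2 * H * K * (L - 2 * H)) =
        c * ((2 * q * (m * β)) ^ D * (2 * H * K * (L - 2 * H))) := by
      rw [mul_pow (2 * (q : ℝ)) ((m : ℝ) * β) D]
      ring
    have e2 : θ ^ D * φ * ((n : ℝ) - k) ^ (D + 2) =
        (θ * ((n : ℝ) - k)) ^ D * (φ * ((n : ℝ) - k) ^ 2) := by
      rw [mul_pow, pow_add]
      ring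
    rw [e1, e2]
    refine mul_le_mul_of_nonneg_left ?_ hc0.le
    refine mul_le_mul (pow_le_pow_left₀ (by positivity) hA D) hB2
      (by positivity) (by positivity)
  refine le_trans ?_ hD'
  have hnD : (0 : ℝ) < (n : ℝ) ^ (D + 2) := by positivity
  have hη0 : 0 ≤ 1 - ε / 3 := by linarith
  have h6 : ((1 - ε / 3) * (1 - ε / 3)) * ((1 - ε / 3) * (n : ℝ) ^ (D + 2)) ≤
      θ ^ D * φ * ((n : ℝ) - k) ^ (D + 2) := by
    refine mul_le_mul (mul_le_mul hθD hφ1 hη0 (by positivity)) hC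
      (mul_nonneg hη0 hnD.le) (by positivity)
  have h7 := mul_le_mul_of_nonneg_left h6 hc0.le
  refine le_trans ?_ h7
  have h8 : c - ε ≤ c * ((1 - ε / 3) * (1 - ε / 3) * (1 - ε / 3)) := by
    have h9 : c * ε ≤ ε := mul_le_of_le_one_left hε.le hc1
    have h10 : 1 - ε ≤ (1 - ε / 3) * (1 - ε / 3) * (1 - ε / 3) := by
      nlinarith [mul_pos hε hε, mul_nonneg (mul_nonneg hε.le hε.le) (by linarith : 0 ≤ 1 - ε / 9)]
    have h11 := mul_le_mul_of_nonneg_left h10 hc0.le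
    linarith
  calc (c - ε) * (n : ℝ) ^ (D + 2)
      ≤ (c * ((1 - ε / 3) * (1 - ε / 3) * (1 - ε / 3))) * (n : ℝ) ^ (D + 2) :=
        mul_le_mul_of_nonneg_right h8 hnD.le
    _ = c * (((1 - ε / 3) * (1 - ε / 3)) * ((1 - ε / 3) * (n : ℝ) ^ (D + 2))) := by ring

end Pool.Agent.Lib.MP_1a3405_co.BT
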